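import Pool.Agent.RP60.Def

/-!
Probabilities for a uniformly random start vertex and rainbow list.
-/

namespace RP60

open Finset RP97

variable {V : Type*} {k : ℕ} (S : Sys V k) [Fintype V]

open Classical in
/-- The event as a finite set. -/
noncomputable def exxEv (P : V → List (Fin k) → Prop) (T : ℕ) : Finset (V × List (Fin k)) :=
  ((univ : Finset V) ×ˢ nd (∅ : Finset (Fin k)) T).filter (fun p => P p.1 p.2)

theorem exx_mem {P : V → List (Fin k) → Prop} {T : ℕ} {p : V × List (Fin k)} :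
    p ∈ exxEv P T ↔ p.2 ∈ nd (∅ : Finset (Fin k)) T ∧ P p.1 p.2 := by
  simp [exxEv]

theorem exx_eq (P : V → List (Fin k) → Prop) (T : ℕ) :
    Pr P T = ((exxEv P T).card : ℝ) / ((Fintype.card V : ℝ) * (k.descFactorial T : ℝ)) := by
  classical
  unfold Pr Ex
  congr 1
  rw [← Finset.sum_product', exxEv, Finset.card_filter]
  push_cast
  apply Finset.sum_congr rfl
  intro p _
  congr

theorem exx_total (T : ℕ) : (((univ : Finset V) ×ˢ nd (∅ : Finset (Fin k)) T).card : ℝ) =
    (Fintype.card V : ℝ) * (k.descFactorial T : ℝ) := by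
  rw [card_product, card_nd]
  simp

theorem exx_le {P Q : V → List (Fin k) → Prop} {T : ℕ}
    (h : (exxEv P T).card ≤ (exxEv Q T).card) : Pr P T ≤ Pr Q T := by
  rw [exx_eq, exx_eq]
  apply div_le_div_of_nonneg_right _ (by positivity)
  exact_mod_cast h

theorem Pr_nonneg (P : V → List (Fin k) → Prop) (T : ℕ) : 0 ≤ Pr P T := by
  rw [exx_eq]; positivity

theorem Pr_le_one (P : V → List (Fin k) → Prop) (T : ℕ) : Pr P T ≤ 1 := by
  classical
  rw [exx_eq, ← exx_total]
  apply div_le_one_of_le₀ _ (by positivity)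
  exact_mod_cast card_filter_le _ _

theorem Pr_true [Nonempty V] {T : ℕ} (hT : T ≤ k) :
    Pr (V := V) (k := k) (fun _ _ => True) T = 1 := by
  classical
  have hn : (0 : ℝ) < (Fintype.card V : ℝ) := by exact_mod_cast Fintype.card_pos
  have hD : (0 : ℝ) < (k.descFactorial T : ℝ) := by
    exact_mod_cast Nat.descFactorial_pos.2 hT
  rw [exx_eq]
  have : exxEv (V := V) (k := k) (fun _ _ => True) T =
      ((univ : Finset V) ×ˢ nd (∅ : Finset (Fin k)) T) := by
    ext p
    simp [exxEv]
  rw [this, exx_total, div_self (by positivity)]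

theorem Pr_mono {P Q : V → List (Fin k) → Prop} {T : ℕ}
    (h : ∀ x, ∀ l ∈ nd (∅ : Finset (Fin k)) T, P x l → Q x l) : Pr P T ≤ Pr Q T := by
  apply exx_le
  apply card_le_card
  intro p hp
  rw [exx_mem] at hp ⊢
  exact ⟨hp.1, h _ _ hp.1 hp.2⟩

theorem Pr_or (P Q : V → List (Fin k) → Prop) (T : ℕ) :
    Pr (fun x l => P x l ∨ Q x l) T ≤ Pr P T + Pr Q T := by
  classical
  rw [exx_eq, exx_eq, exx_eq, ← add_div]
  apply div_le_div_of_nonneg_right _ (by positivity)
  have h : (exxEv (fun x l => P x l ∨ Q x l) T).card ≤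
      (exxEv P T).card + (exxEv Q T).card := by
    refine le_trans (card_le_card ?_) (card_union_le _ _)
    intro p hp
    rw [exx_mem] at hp
    rw [mem_union, exx_mem, exx_mem]
    tauto
  exact_mod_cast h

/-- Inclusion and exclusion. -/
theorem Pr_and_or (P Q : V → List (Fin k) → Prop) (T : ℕ) :
    Pr (fun x l => P x l ∧ Q x l) T + Pr (fun x l => P x l ∨ Q x l) T = Pr P T + Pr Q T := by
  classical
  rw [exx_eq, exx_eq, exx_eq, exx_eq, ← add_div, ← add_div]
  congr 1
  have h1 : exxEv (fun x l => P x l ∧ Q x l) T = exxEv P T ∩ exxEv Q T := by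
    ext p
    rw [mem_inter, exx_mem, exx_mem, exx_mem]
    tauto
  have h2 : exxEv (fun x l => P x l ∨ Q x l) T = exxEv P T ∪ exxEv Q T := by
    ext p
    rw [mem_union, exx_mem, exx_mem, exx_mem]
    tauto
  rw [h1, h2]
  exact_mod_cast card_inter_add_card_union _ _

/-- Union bound. -/
theorem Pr_exists {ι : Type*} (s : Finset ι) (P : ι → V → List (Fin k) → Prop) (T : ℕ) :
    Pr (fun x l => ∃ i ∈ s, P i x l) T ≤ ∑ i ∈ s, Pr (P i) T := by
  classical
  have h : (exxEv (fun x l => ∃ i ∈ s, P i x l) T).card ≤ ∑ i ∈ s, (exxEv (P i) T).card := by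
    refine le_trans (card_le_card ?_) card_biUnion_le
    intro p hp
    rw [exx_mem] at hp
    obtain ⟨h1, i, hi, h2⟩ := hp
    rw [mem_biUnion]
    exact ⟨i, hi, exx_mem.2 ⟨h1, h2⟩⟩
  rw [exx_eq]
  simp only [exx_eq]
  rw [← Finset.sum_div]
  apply div_le_div_of_nonneg_right _ (by positivity)
  exact_mod_cast h

theorem exists_of_Pr_pos {P : V → List (Fin k) → Prop} {T : ℕ} (h : 0 < Pr P T) :
    ∃ x, ∃ l ∈ nd (∅ : Finset (Fin k)) T, P x l := by
  rw [exx_eq] at h
  by_contra hc
  push Not at hc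
  have : exxEv P T = ∅ := by
    rw [Finset.eq_empty_iff_forall_notMem]
    intro p hp
    rw [exx_mem] at hp
    exact hc p.1 p.2 hp.1 hp.2
  rw [this] at h
  simp at h

/-- An injection of events which does not change the length. -/
theorem Pr_inj {P Q : V → List (Fin k) → Prop} {T : ℕ} (Φ : V × List (Fin k) → V × List (Fin k))
    (h1 : ∀ x, ∀ l ∈ nd (∅ : Finset (Fin k)) T, P x l →
      (Φ (x, l)).2 ∈ nd (∅ : Finset (Fin k)) T ∧ Q (Φ (x, l)).1 (Φ (x, l)).2)
    (h2 : ∀ p q : V × List (Fin k), p.2 ∈ nd (∅ : Finset (Fin k)) T →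
      q.2 ∈ nd (∅ : Finset (Fin k)) T → Φ p = Φ q → p = q) : Pr P T ≤ Pr Q T := by
  apply exx_le
  apply Finset.card_le_card_of_injOn Φ
  · rintro ⟨x, l⟩ hp
    rw [mem_coe, exx_mem] at hp
    rw [mem_coe, exx_mem]
    exact h1 x l hp.1 hp.2
  · intro p hp q hq he
    rw [mem_coe, exx_mem] at hp hq
    exact h2 p q hp.1 hq.1 he

theorem exx_desc {t j : ℕ} (htj : t + j ≤ k) :
    (k.descFactorial (t + j) : ℝ) = (k.descFactorial t : ℝ) * ((k - t).descFactorial j : ℝ) := by
  have := Nat.descFactorial_mul_descFactorial (n := k) (show t ≤ t + j by omega)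
  rw [Nat.add_sub_cancel_left] at this
  rw [← this]
  push_cast
  ring

/-- Conditional probability bound: the last `j` letters are random in the remaining pool. -/
theorem Pr_step {P : V → List (Fin k) → Prop} {Q : V → List (Fin k) → List (Fin k) → Prop}
    {t j : ℕ} (htj : t + j ≤ k) {β : ℝ} (hβ : 0 ≤ β)
    (h : ∀ x, ∀ l ∈ nd (∅ : Finset (Fin k)) t, P x l → ∀ F : Finset (List (Fin k)),
      (∀ u ∈ F, u ∈ nd l.toFinset j ∧ Q x u l) → (F.card : ℝ) ≤ β * ((k - t).descFactorial j : ℝ)) :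
    Pr (fun x l => P x (l.drop j) ∧ Q x (l.take j) (l.drop j)) (t + j) ≤ β * Pr P t := by
  classical
  have _ := hβ
  set E := exxEv (fun x l => P x (l.drop j) ∧ Q x (l.take j) (l.drop j)) (t + j) with hE
  set E0 := exxEv P t with hE0
  have hmaps : ∀ p ∈ E, (fun p : V × List (Fin k) => (p.1, p.2.drop j)) p ∈ E0 := by
    rintro ⟨x, l⟩ hp
    rw [hE, exx_mem] at hp
    obtain ⟨hl, h1, -⟩ := hp
    obtain ⟨g1, g2, -⟩ := mem_nd.1 hl
    rw [hE0, exx_mem]
    refine ⟨mem_nd.2 ⟨?_, g2.sublist (List.drop_sublist _ _), by simp⟩, h1⟩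
    rw [List.length_drop]
    omega
  have hcard : (E.card : ℝ) ≤ E0.card * (β * ((k - t).descFactorial j : ℝ)) := by
    rw [Finset.card_eq_sum_card_fiberwise hmaps]
    push_cast
    rw [← nsmul_eq_mul]
    apply Finset.sum_le_card_nsmul
    rintro ⟨x, l⟩ hp
    rw [hE0, exx_mem] at hp
    obtain ⟨hl, hP⟩ := hp
    set F := (E.filter (fun p : V × List (Fin k) => (p.1, p.2.drop j) = (x, l))).image
      (fun p => p.2.take j) with hF
    have hinj : (E.filter (fun p : V × List (Fin k) => (p.1, p.2.drop j) = (x, l))).card =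
        F.card := by
      rw [hF, card_image_of_injOn]
      rintro ⟨x1, l1⟩ h1 ⟨x2, l2⟩ h2 he
      rw [mem_coe, mem_filter] at h1 h2
      simp only [Prod.mk.injEq] at h1 h2 he ⊢
      refine ⟨h1.2.1.trans h2.2.1.symm, ?_⟩
      rw [← List.take_append_drop j l1, ← List.take_append_drop j l2, he, h1.2.2, h2.2.2]
    rw [hinj]
    refine h x l hl hP F ?_
    intro u hu
    rw [hF, mem_image] at hu
    obtain ⟨⟨x1, l1⟩, h1, rfl⟩ := hu
    rw [mem_filter] at h1
    obtain ⟨h1, h2⟩ := h1
    simp only [Prod.mk.injEq] at h2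
    obtain ⟨rfl, rfl⟩ := h2
    rw [hE, exx_mem] at h1
    obtain ⟨h3, -, h4⟩ := h1
    obtain ⟨g1, g2, -⟩ := mem_nd.1 h3
    refine ⟨mem_nd.2 ⟨?_, g2.sublist (List.take_sublist _ _), ?_⟩, h4⟩
    · have g1' : l1.length = t + j := g1
      rw [List.length_take]
      omega
    · intro c hc hc'
      rw [List.mem_toFinset] at hc'
      have g3 : (l1.take j ++ l1.drop j).Nodup := by
        rw [List.take_append_drop]; exact g2
      exact (List.nodup_append.1 g3).2.2 c hc c hc' rfl
  rw [exx_eq, exx_eq, ← hE, ← hE0, exx_desc htj]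
  rcases Nat.eq_zero_or_pos (Fintype.card V) with hV | hV
  · rw [hV]
    simp
  have hn : (0 : ℝ) < (Fintype.card V : ℝ) := by exact_mod_cast hV
  have hD : (0 : ℝ) < (k.descFactorial t : ℝ) := by
    exact_mod_cast Nat.descFactorial_pos.2 (by omega)
  have hD2 : (0 : ℝ) < ((k - t).descFactorial j : ℝ) := by
    exact_mod_cast Nat.descFactorial_pos.2 (by omega)
  rw [div_le_iff₀ (by positivity)]
  refine hcard.trans (le_of_eq ?_)
  field_simp

theorem Pr_drop (P : V → List (Fin k) → Prop) {t j : ℕ} (htj : t + j ≤ k) :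
    Pr (fun x l => P x (l.drop j)) (t + j) = Pr P t := by
  classical
  have key : ∀ (Q : V → List (Fin k) → Prop) (u : ℕ), (exxEv (V := V) Q u).card =
      ∑ x : V, ((nd (∅ : Finset (Fin k)) u).filter (fun l => Q x l)).card := by
    intro Q u
    unfold exxEv
    rw [Finset.card_filter, Finset.sum_product]
    apply Finset.sum_congr rfl
    intro x _
    rw [Finset.card_filter]
  have h1 : (exxEv (V := V) (fun x l => P x (l.drop j)) (t + j)).card =
      (exxEv P t).card * (k - t).descFactorial j := by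
    rw [key, key, Finset.sum_mul]
    apply Finset.sum_congr rfl
    intro x _
    exact card_ext (fun l => P x l) t j
  have hD2 : (0 : ℝ) < ((k - t).descFactorial j : ℝ) := by
    exact_mod_cast Nat.descFactorial_pos.2 (by omega)
  rw [exx_eq, exx_eq, h1, exx_desc htj]
  push_cast
  rw [← mul_assoc, mul_div_mul_right _ _ hD2.ne']

theorem ep_reverse (l : List (Fin k)) (x : V) : S.ep l.reverse (S.ep l x) = x := by
  induction l with
  | nil => rfl
  | cons c l ih =>
    rw [List.reverse_cons, ep_append]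
    simp only [ep_cons, ep_nil, S.invol]
    exact ih

theorem exx_verts_snoc (u : List (Fin k)) (c : Fin k) (y : V) :
    S.verts (u ++ [c]) y = S.verts u (S.nb c y) ++ [y] := by
  induction u with
  | nil => rfl
  | cons d u ih =>
    show S.nb d (S.ep (u ++ [c]) y) :: S.verts (u ++ [c]) y =
      S.nb d (S.ep u (S.nb c y)) :: S.verts u (S.nb c y) ++ [y]
    rw [ih, ep_append]
    rfl

theorem verts_reverse (l : List (Fin k)) (x : V) :
    S.verts l.reverse (S.ep l x) = (S.verts l x).reverse := by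
  induction l with
  | nil => rfl
  | cons c l ih =>
    have e : S.verts (c :: l) x = S.nb c (S.ep l x) :: S.verts l x := rfl
    rw [e, List.reverse_cons, List.reverse_cons, exx_verts_snoc, ep_cons, S.invol, ih]

theorem Pr_rev (P : V → List (Fin k) → Prop) (T : ℕ) :
    Pr (fun x l => P (S.ep l x) l.reverse) T = Pr P T := by
  have hnd : ∀ l ∈ nd (∅ : Finset (Fin k)) T, l.reverse ∈ nd (∅ : Finset (Fin k)) T := by
    intro l hl
    obtain ⟨h1, h2, -⟩ := mem_nd.1 hl
    exact mem_nd.2 ⟨by rw [List.length_reverse, h1], List.nodup_reverse.2 h2, by simp⟩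
  have hinj : ∀ p q : V × List (Fin k), p.2 ∈ nd (∅ : Finset (Fin k)) T →
      q.2 ∈ nd (∅ : Finset (Fin k)) T →
      (fun p : V × List (Fin k) => (S.ep p.2 p.1, p.2.reverse)) p =
        (fun p : V × List (Fin k) => (S.ep p.2 p.1, p.2.reverse)) q → p = q := by
    rintro ⟨x, l⟩ ⟨x', l'⟩ - - he
    simp only [Prod.mk.injEq, List.reverse_inj] at he
    obtain ⟨h1, rfl⟩ := he
    rw [ep_injective S _ h1]
  apply le_antisymm
  · exact Pr_inj (fun p => (S.ep p.2 p.1, p.2.reverse)) (fun x l hl h => ⟨hnd l hl, h⟩) hinj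
  · refine Pr_inj (fun p => (S.ep p.2 p.1, p.2.reverse)) (fun x l hl h => ⟨hnd l hl, ?_⟩) hinj
    show P (S.ep l.reverse (S.ep l x)) l.reverse.reverse
    rw [ep_reverse, List.reverse_reverse]
    exact h

/-- Stationarity. -/
theorem Pr_shift (P : V → List (Fin k) → Prop) {t j : ℕ} (htj : t + j ≤ k) :
    Pr (fun x l => P (S.ep (l.drop j) x) (l.take j)) (t + j) = Pr P j := by
  rw [← Pr_rev S (fun x l => P (S.ep (l.drop j) x) (l.take j)) (t + j)]
  rw [← Pr_rev S P j]
  have h1 := Pr_drop (V := V) (k := k) (fun x l => P (S.ep l x) l.reverse) (t := j) (j := t)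
    (by omega)
  rw [← h1, Nat.add_comm j t]
  have hkey : ∀ x : V, ∀ l ∈ nd (∅ : Finset (Fin k)) (t + j),
      P (S.ep (l.reverse.drop j) (S.ep l x)) (l.reverse.take j) ↔
        P (S.ep (l.drop t) x) (l.drop t).reverse := by
    intro x l hl
    obtain ⟨g1, -, -⟩ := mem_nd.1 hl
    have e1 : l.reverse.take j = (l.drop t).reverse := by
      rw [List.reverse_drop, g1, Nat.add_sub_cancel_left]
    have e2 : l.reverse.drop j = (l.take t).reverse := by
      rw [List.reverse_take, g1, Nat.add_sub_cancel_left]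
    have e3 : S.ep (l.take t).reverse (S.ep l x) = S.ep (l.drop t) x := by
      have e4 : S.ep l x = S.ep (l.take t) (S.ep (l.drop t) x) := by
        rw [← ep_append, List.take_append_drop]
      rw [e4, ep_reverse]
    rw [e1, e2, e3]
  exact le_antisymm (Pr_mono fun x l hl h => (hkey x l hl).1 h)
    (Pr_mono fun x l hl h => (hkey x l hl).2 h)

end RP60
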