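import Pool.Agent.RP60.Fam
import Pool.Agent.RP60.Exx

/-!
Probability that a random walk with a hereditary property has an irregular pool.
-/

namespace RP60

open Finset RP97

variable {V : Type*} {k : ℕ} (S : Sys V k) [Fintype V] [DecidableEq V]

private theorem chain_drop {E : V → List (Fin k) → Prop} (hE : ∀ x c l, E x (c :: l) → E x l)
    (x : V) (j : ℕ) (l : List (Fin k)) (h : E x l) : E x (l.drop j) := by
  induction j generalizing l with
  | zero => simpa using h
  | succ j ih =>
    cases l with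
    | nil => simpa using h
    | cons c l => simpa using ih l (hE x c l h)

private theorem chain_step {w r p : ℕ → ℕ} {K : ℕ → ℝ} {h i : ℕ}
    (hmono : r i ≤ r (i + 1)) (hr0 : 0 < r i) (hrk : r (i + 1) ≤ k)
    (hp : p i * h ≤ w i) (hK : ∀ i, 0 < K i)
    {E : V → List (Fin k) → Prop} (hE : ∀ x c l, E x (c :: l) → E x l) :
    Pr (fun x l => E x l ∧ ¬ Reg S w r K h i x l.toFinset) (k - r i) ≤
      ((Hf k w r i).card * k ^ h * (K (i + 1) / K i) ^ (p i)) * Pr E (k - r (i + 1)) +
      Pr (fun x l => E x l ∧ ¬ Reg S w r K h (i + 1) x l.toFinset) (k - r (i + 1)) := by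
  classical
  set β : ℝ := ((Hf k w r i).card * k ^ h * (K (i + 1) / K i) ^ (p i)) with hβdef
  have hβ : 0 ≤ β := by
    rw [hβdef]
    have h1 : 0 ≤ K (i + 1) / K i := (div_pos (hK _) (hK _)).le
    positivity
  obtain ⟨t, ht⟩ : ∃ t, r i + t = r (i + 1) := ⟨r (i + 1) - r i, by omega⟩
  have hlen : k - r i = (k - r (i + 1)) + t := by omega
  have htk : (k - r (i + 1)) + t ≤ k := by omega
  have hkk : k - (k - r (i + 1)) = r (i + 1) := by omega
  have hstep := Pr_step (V := V) (k := k)
    (P := fun x l => E x l ∧ Reg S w r K h (i + 1) x l.toFinset)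
    (Q := fun x u l => ¬ Reg S w r K h i x (l.toFinset ∪ u.toFinset))
    (t := k - r (i + 1)) (j := t) htk hβ (by
      intro x l hl hP F hF
      rw [hkk]
      obtain ⟨h1, h2, -⟩ := mem_nd.1 hl
      have hU : l.toFinset.card + r (i + 1) = k := by
        rw [List.toFinset_card_of_nodup h2, h1]; omega
      have htr := trans S (w := w) (r := r) (K := K) (h := h) (i := i) (p := p i) (t := t)
        (y := x) (U := l.toFinset) hU ht hr0 hp (hK i) (hK (i + 1)).le hP.2
      refine le_trans ?_ htr
      have hsub : F ⊆ (nd l.toFinset t).filter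
          (fun v => ¬ Reg S w r K h i x (l.toFinset ∪ v.toFinset)) := by
        intro u hu
        rw [mem_filter]
        exact hF u hu
      exact_mod_cast card_le_card hsub)
  have hdrop := Pr_drop (V := V) (k := k)
    (fun x l => E x l ∧ ¬ Reg S w r K h (i + 1) x l.toFinset) htk
  have hPE : Pr (fun x l => E x l ∧ Reg S w r K h (i + 1) x l.toFinset) (k - r (i + 1)) ≤
      Pr E (k - r (i + 1)) := Pr_mono (fun x l _ hx => hx.1)
  rw [hlen]
  refine (Pr_mono (Q := fun x l =>
    ((E x (l.drop t) ∧ Reg S w r K h (i + 1) x (l.drop t).toFinset) ∧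
      ¬ Reg S w r K h i x ((l.drop t).toFinset ∪ (l.take t).toFinset)) ∨
    (E x (l.drop t) ∧ ¬ Reg S w r K h (i + 1) x (l.drop t).toFinset)) ?_).trans ?_
  · intro x l _ hx
    have hEd := chain_drop hE x t l hx.1
    by_cases hreg : Reg S w r K h (i + 1) x (l.drop t).toFinset
    · left
      refine ⟨⟨hEd, hreg⟩, ?_⟩
      have e : (l.drop t).toFinset ∪ (l.take t).toFinset = l.toFinset := by
        rw [union_comm, ← List.toFinset_append, List.take_append_drop]
      rw [e]
      exact hx.2
    · right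
      exact ⟨hEd, hreg⟩
  · refine (Pr_or _ _ _).trans ?_
    refine add_le_add (hstep.trans ?_) hdrop.le
    exact mul_le_mul_of_nonneg_left hPE hβ

theorem chain {w r p : ℕ → ℕ} {K : ℕ → ℝ} {h I : ℕ} (hI : r I = k)
    (hmono : ∀ i < I, r i ≤ r (i + 1)) (hr0 : ∀ i < I, 0 < r i) (hrk : ∀ i ≤ I, r i ≤ k)
    (hp : ∀ i < I, p i * h ≤ w i) (hK : ∀ i, 0 < K i) (hdet : ∀ y, Reg S w r K h I y ∅)
    {E : V → List (Fin k) → Prop} (hE : ∀ x c l, E x (c :: l) → E x l) :
    Pr (fun x l => E x l ∧ ¬ Reg S w r K h 0 x l.toFinset) (k - r 0) ≤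
      ∑ i ∈ range I, ((Hf k w r i).card * k ^ h * (K (i + 1) / K i) ^ (p i)) *
        Pr E (k - r (i + 1)) := by
  have key : ∀ j ≤ I, Pr (fun x l => E x l ∧ ¬ Reg S w r K h 0 x l.toFinset) (k - r 0) ≤
      (∑ i ∈ range j, ((Hf k w r i).card * k ^ h * (K (i + 1) / K i) ^ (p i)) *
        Pr E (k - r (i + 1))) +
      Pr (fun x l => E x l ∧ ¬ Reg S w r K h j x l.toFinset) (k - r j) := by
    intro j hj
    induction j with
    | zero => simp
    | succ j ih =>
      have h1 := ih (by omega)
      have h2 := chain_step S (w := w) (r := r) (p := p) (K := K) (h := h) (i := j)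
        (hmono j (by omega)) (hr0 j (by omega)) (hrk (j + 1) hj) (hp j (by omega)) hK hE
      rw [sum_range_succ]
      linarith
  have hlast : Pr (fun x l => E x l ∧ ¬ Reg S w r K h I x l.toFinset) (k - r I) = 0 := by
    refine le_antisymm ?_ (Pr_nonneg _ _)
    refine (Pr_mono (Q := fun _ _ => False) ?_).trans ?_
    · intro x l hl hx
      rw [hI, Nat.sub_self] at hl
      obtain ⟨h1, -, -⟩ := mem_nd.1 hl
      have h0 : l = [] := List.length_eq_zero_iff.1 h1
      subst h0
      exact hx.2 (by simpa using hdet x)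
    · unfold Pr Ex
      simp
  have h3 := key I le_rfl
  rw [hlast, add_zero] at h3
  exact h3

end RP60
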