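import Pool.Agent.RP60.Det
import Pool.Agent.RP60.Exx

/-!
Probability that a random walk returns, if the pool is good.
-/

namespace RP60

open Finset RP97

variable {V : Type*} {k : ℕ} (S : Sys V k) [Fintype V] [DecidableEq V]

theorem pow_le_desc {r h : ℕ} (hr : 2 * h ^ 2 ≤ r) :
    (r : ℝ) ^ h ≤ 2 * (r.descFactorial h : ℝ) := by
  rcases Nat.eq_zero_or_pos h with rfl | hh
  · simp
  have hh2 : h ≤ h ^ 2 := by nlinarith
  have hrh : h ≤ r := by omega
  have hr0 : 0 < r := by omega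
  have hr0' : (0 : ℝ) < r := by exact_mod_cast hr0
  have h1 : ((r + 1 - h : ℕ) : ℝ) ^ h ≤ (r.descFactorial h : ℝ) := by
    exact_mod_cast Nat.pow_sub_le_descFactorial r h
  have h2 : ((r : ℝ) - h) ^ h ≤ ((r + 1 - h : ℕ) : ℝ) ^ h := by
    apply pow_le_pow_left₀
    · have : (h : ℝ) ≤ r := by exact_mod_cast hrh
      linarith
    · rw [Nat.cast_sub (by omega)]
      push_cast
      linarith
  have hq : (h : ℝ) ^ 2 / r ≤ 1 / 2 := by
    rw [div_le_div_iff₀ hr0' (by norm_num)]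
    have : (2 : ℝ) * (h : ℝ) ^ 2 ≤ r := by exact_mod_cast hr
    linarith
  have hhr : (h : ℝ) / r ≤ 1 := by
    rw [div_le_one hr0']
    exact_mod_cast hrh
  have h3 := one_add_mul_le_pow (a := -((h : ℝ) / r)) (by linarith) h
  have h4 : (1 : ℝ) / 2 ≤ (1 + -((h : ℝ) / r)) ^ h := by
    refine le_trans ?_ h3
    have : (h : ℝ) * -((h : ℝ) / r) = - ((h : ℝ) ^ 2 / r) := by ring
    rw [this]
    linarith
  have h5 : ((r : ℝ) - h) ^ h = (r : ℝ) ^ h * (1 + -((h : ℝ) / r)) ^ h := by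
    rw [← mul_pow]
    congr 1
    field_simp
    ring
  have h6 : (0 : ℝ) ≤ (r : ℝ) ^ h := by positivity
  nlinarith [mul_le_mul_of_nonneg_left h4 h6]

omit [Fintype V] in
/-- Number of words of a good pool leading to a given vertex. -/
theorem clo_count {h r : ℕ} {K : ℝ} (hK : 0 ≤ K) (hr : 2 * h ^ 2 ≤ r) (hr0 : 0 < r)
    {U : Finset (Fin k)} {y : V} (hg : Good S K h r y U) (z : V) :
    (((nd U h).filter (fun u => S.ep u y = z)).card : ℝ) ≤ 2 * K * (r.descFactorial h : ℝ) := by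
  have h1 := hg z
  rw [A_indicator] at h1
  have hr0' : (0 : ℝ) < r := by exact_mod_cast hr0
  have hp : (0 : ℝ) < (r : ℝ) ^ h := by positivity
  rw [one_div, inv_pow, ← div_eq_mul_inv, div_le_iff₀ hp] at h1
  have h2 := mul_le_mul_of_nonneg_left (pow_le_desc hr) hK
  linarith

/-- Splitting off the bad pools. -/
theorem clo_split {E G : V → List (Fin k) → Prop} {R : V → List (Fin k) → Prop}
    {Q : V → List (Fin k) → List (Fin k) → Prop}
    {h r τ : ℕ} {β : ℝ} (hβ : 0 ≤ β) (hτ : τ + r = k) (hh : h ≤ r)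
    (hR : ∀ x l, R x l → Q x (l.take h) (l.drop h))
    (hc : ∀ x, ∀ l ∈ nd (∅ : Finset (Fin k)) τ, E x l → G x l → ∀ F : Finset (List (Fin k)),
      (∀ u ∈ F, u ∈ nd l.toFinset h ∧ Q x u l) → (F.card : ℝ) ≤ β * (r.descFactorial h : ℝ)) :
    Pr (fun x l => E x (l.drop h) ∧ R x l) (τ + h) ≤
      β * Pr E τ + Pr (fun x l => E x l ∧ ¬ G x l) τ := by
  have htj : τ + h ≤ k := by omega
  have hk : k - τ = r := by omega
  have h1 : Pr (fun x l => (E x (l.drop h) ∧ G x (l.drop h)) ∧ Q x (l.take h) (l.drop h)) (τ + h) ≤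
      β * Pr (fun x l => E x l ∧ G x l) τ := by
    refine Pr_step (P := fun x l => E x l ∧ G x l) (Q := Q) htj hβ ?_
    intro x l hl hP F hF
    rw [hk]
    exact hc x l hl hP.1 hP.2 F hF
  have h2 : Pr (fun x l => E x l ∧ G x l) τ ≤ Pr E τ := Pr_mono (fun x l _ h => h.1)
  have h3 := Pr_drop (V := V) (fun x l => E x l ∧ ¬ G x l) htj
  have h4 : Pr (fun x l => E x (l.drop h) ∧ R x l) (τ + h) ≤
      Pr (fun x l => ((E x (l.drop h) ∧ G x (l.drop h)) ∧ Q x (l.take h) (l.drop h)) ∨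
        (E x (l.drop h) ∧ ¬ G x (l.drop h))) (τ + h) := by
    refine Pr_mono (fun x l _ hx => ?_)
    by_cases hG : G x (l.drop h)
    · exact Or.inl ⟨⟨hx.1, hG⟩, hR x l hx.2⟩
    · exact Or.inr ⟨hx.1, hG⟩
  have h5 := Pr_or (V := V) (fun x l => (E x (l.drop h) ∧ G x (l.drop h)) ∧
    Q x (l.take h) (l.drop h)) (fun x l => E x (l.drop h) ∧ ¬ G x (l.drop h)) (τ + h)
  have h6 := mul_le_mul_of_nonneg_left h2 hβ
  linarith

/-- The end vertex returns to a small set of vertices. -/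
theorem clo_end {E : V → List (Fin k) → Prop} (Z : V → List (Fin k) → Finset V) {N h r τ : ℕ}
    {K : ℝ} (hK : 0 ≤ K) (hτ : τ + r = k) (hh : h ≤ r) (hr : 2 * h ^ 2 ≤ r) (hr0 : 0 < r)
    (hN : ∀ x, ∀ l ∈ nd (∅ : Finset (Fin k)) τ, E x l → (Z x l).card ≤ N) :
    Pr (fun x l => E x (l.drop h) ∧ S.ep l x ∈ Z x (l.drop h)) (τ + h) ≤
      2 * N * K * Pr E τ +
        Pr (fun x l => E x l ∧ ¬ Good S K h r (S.ep l x) l.toFinset) τ := by
  refine clo_split (E := E) (G := fun x l => Good S K h r (S.ep l x) l.toFinset)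
    (R := fun x l => S.ep l x ∈ Z x (l.drop h))
    (Q := fun x u l => S.ep u (S.ep l x) ∈ Z x l) (by positivity) hτ hh ?_ ?_
  · intro x l hx
    show S.ep (l.take h) (S.ep (l.drop h) x) ∈ Z x (l.drop h)
    rw [← ep_append, List.take_append_drop]
    exact hx
  · intro x l hl hE hG F hF
    have hsub : F ⊆ (Z x l).biUnion
        (fun z => (nd l.toFinset h).filter (fun u => S.ep u (S.ep l x) = z)) := by
      intro u hu
      obtain ⟨h1, h2⟩ := hF u hu
      rw [mem_biUnion]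
      exact ⟨_, h2, by rw [mem_filter]; exact ⟨h1, rfl⟩⟩
    have hc1 : (F.card : ℝ) ≤ ∑ z ∈ Z x l,
        (((nd l.toFinset h).filter (fun u => S.ep u (S.ep l x) = z)).card : ℝ) := by
      exact_mod_cast (card_le_card hsub).trans card_biUnion_le
    refine hc1.trans ((sum_le_sum fun z _ => clo_count S hK hr hr0 hG z).trans ?_)
    rw [sum_const, nsmul_eq_mul]
    have hN' : ((Z x l).card : ℝ) ≤ N := by exact_mod_cast hN x l hl hE
    have h7 : (0 : ℝ) ≤ 2 * K * (r.descFactorial h : ℝ) := by positivity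
    nlinarith [mul_le_mul_of_nonneg_right hN' h7]

/-- The walk is closed. -/
theorem clo_closed {E : V → List (Fin k) → Prop} {h r τ : ℕ}
    {K : ℝ} (hK : 0 ≤ K) (hτ : τ + r = k) (hh : h ≤ r) (hr : 2 * h ^ 2 ≤ r) (hr0 : 0 < r) :
    Pr (fun x l => E x (l.drop h) ∧ S.ep l x = x) (τ + h) ≤
      2 * K * Pr E τ + Pr (fun x l => E x l ∧ ¬ Good S K h r x l.toFinset) τ := by
  refine clo_split (E := E) (G := fun x l => Good S K h r x l.toFinset)
    (R := fun x l => S.ep l x = x)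
    (Q := fun x u l => S.ep u (S.ep l x) = x) (by positivity) hτ hh ?_ ?_
  · intro x l hx
    show S.ep (l.take h) (S.ep (l.drop h) x) = x
    rw [← ep_append, List.take_append_drop]
    exact hx
  · intro x l hl hE hG F hF
    refine le_trans ?_ (clo_count S hK hr hr0 hG (S.ep l x))
    have : F.card ≤ ((nd l.toFinset h).filter (fun u => S.ep u x = S.ep l x)).card := by
      apply card_le_card_of_injOn List.reverse
      · intro u hu
        obtain ⟨h1, h2⟩ := hF u hu
        obtain ⟨h3, h4, h5⟩ := mem_nd.1 h1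
        simp only [coe_filter, Set.mem_setOf_eq]
        refine ⟨mem_nd.2 ⟨by simp [h3], List.nodup_reverse.2 h4, ?_⟩, ?_⟩
        · intro c hc
          exact h5 c (List.mem_reverse.1 hc)
        · have := ep_reverse S u (S.ep l x)
          rw [h2] at this
          exact this
      · intro u _ v _ he
        exact List.reverse_injective he
    exact_mod_cast this

end RP60
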