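import Pool.Agent.RP97.Base

/-!
Weighted rainbow words, regularity of the pool of unused colours at several levels, expectations.
-/

namespace RP60

open Finset RP97

variable {V : Type*} {k : ℕ}

/-- Total weight of the rainbow words of length `h` leading from `y` to `z`, a word being weighted
by the product of the weights of its letters. -/
noncomputable def A (S : Sys V k) [DecidableEq V] (ω : Fin k → ℝ) (h : ℕ) (y z : V) : ℝ :=
  ∑ u ∈ (nd (∅ : Finset (Fin k)) h).filter (fun u => S.ep u y = z), (u.map ω).prod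

/-- Any two vertices are joined by at most `D` rainbow words of length three. -/
def Cod (S : Sys V k) [DecidableEq V] (D : ℕ) : Prop :=
  ∀ y z, ((nd (∅ : Finset (Fin k)) 3).filter (fun u => S.ep u y = z)).card ≤ D

/-- The pool of the colours not in `U` (of size `r`) is good at `y`: at most a fraction about `K`
of its words of length `h` leads from `y` to any given vertex. -/
def Good (S : Sys V k) [DecidableEq V] (K : ℝ) (h r : ℕ) (y : V) (U : Finset (Fin k)) : Prop :=
  ∀ z, A S (fun c => if c ∈ U then 0 else 1 / (r : ℝ)) h y z ≤ K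

open Classical in
/-- Sums of weights `1_W / r j` over `j < i`, the sets `W` having at most `w j` elements. -/
noncomputable def Hf (k : ℕ) (w r : ℕ → ℕ) : ℕ → Finset (Fin k → ℝ)
  | 0 => {fun _ => 0}
  | i + 1 => ((Hf k w r i) ×ˢ (univ.filter (fun W : Finset (Fin k) => W.card ≤ w i))).image
      (fun p c => p.1 c + if c ∈ p.2 then 1 / (r i : ℝ) else 0)

/-- Regularity at level `i` of the pool of the colours not in `U` at the vertex `y`. -/
def Reg (S : Sys V k) [DecidableEq V] (w r : ℕ → ℕ) (K : ℕ → ℝ) (h i : ℕ) (y : V)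
    (U : Finset (Fin k)) : Prop :=
  ∀ η ∈ Hf k w r i, ∀ z, A S (fun c => η c + if c ∈ U then 0 else 1 / (r i : ℝ)) h y z ≤ K i

/-- Expectation for a uniformly random start vertex and rainbow list of length `T`. -/
noncomputable def Ex [Fintype V] (f : V → List (Fin k) → ℝ) (T : ℕ) : ℝ :=
  (∑ x : V, ∑ l ∈ nd (∅ : Finset (Fin k)) T, f x l) /
    ((Fintype.card V : ℝ) * (k.descFactorial T : ℝ))

open Classical in
/-- Probability for a uniformly random start vertex and rainbow list of length `T`. -/
noncomputable def Pr [Fintype V] (P : V → List (Fin k) → Prop) (T : ℕ) : ℝ :=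
  Ex (fun x l => if P x l then 1 else 0) T

/-- Probability that a random rainbow walk of length `j` has no repeated vertex. -/
noncomputable def sa (S : Sys V k) [Fintype V] (j : ℕ) : ℝ :=
  Pr (fun x l => (S.verts l x).Nodup) j

/-- The first `m` steps of the walk have no repeated vertex. -/
def En (S : Sys V k) (m : ℕ) (x : V) (l : List (Fin k)) : Prop :=
  (S.verts (l.drop (l.length - m)) x).Nodup

/-- The parameters: `2 ^ n ≤ k < 2 ^ (n + 1)`, levels with ratio `b`, moments of order about
`r / B`, last pool `2 q`, very small pools below `t`; `D` bounds the numbers of words of length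
three between two vertices. -/
structure Par (k D n b B q t : ℕ) : Prop where
  hn : 1 ≤ n
  hk : k < 2 ^ (n + 1)
  hDk : k ≤ D
  hb : 8 * n * (n + 1) * (3 * n + 6) ≤ b
  hB1 : 2 * n ^ 2 * (3 * n + 6) ^ 2 ≤ B
  hB2 : 4 * 2592 * (3 * n + 6) * n ^ 2 * (n + 2) ≤ B
  hX : 3200 * D * (b * B) ≤ k ^ 2
  ht1 : 2 * B * (2 * (n + 1) * (3 * n + 6) + 1) ≤ t
  ht2 : 2 * (3 * n + 6) ^ 2 ≤ t
  hq1 : 2048 * t ^ 4 ≤ q
  hq2 : 3200 * D * q ≤ k ^ 2
  hq3 : 64 * q ≤ k

end RP60
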