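import Pool.Agent.RP60.Def

/-!
Deterministic bounds for weighted numbers of rainbow words between two vertices.
-/

namespace RP60

open Finset RP97

variable {V : Type*} {k : ℕ} (S : Sys V k) [DecidableEq V]

private lemma det_prod_nonneg {ω : Fin k → ℝ} (h0 : ∀ c, 0 ≤ ω c) (l : List (Fin k)) :
    0 ≤ (l.map ω).prod := by
  induction l with
  | nil => simp
  | cons c l ih =>
    rw [List.map_cons, List.prod_cons]
    exact mul_nonneg (h0 c) ih

private lemma det_prod_mono {ω ω' : Fin k → ℝ} (h0 : ∀ c, 0 ≤ ω c) (hle : ∀ c, ω c ≤ ω' c)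
    (l : List (Fin k)) : (l.map ω).prod ≤ (l.map ω').prod := by
  induction l with
  | nil => simp
  | cons c l ih =>
    rw [List.map_cons, List.prod_cons, List.map_cons, List.prod_cons]
    exact mul_le_mul (hle c) ih (det_prod_nonneg h0 l) ((h0 c).trans (hle c))

theorem A_nonneg {ω : Fin k → ℝ} (h0 : ∀ c, 0 ≤ ω c) (h : ℕ) (y z : V) : 0 ≤ A S ω h y z :=
  Finset.sum_nonneg fun l _ => det_prod_nonneg h0 l

theorem A_mono {ω ω' : Fin k → ℝ} (h0 : ∀ c, 0 ≤ ω c) (hle : ∀ c, ω c ≤ ω' c) (h : ℕ) (y z : V) :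
    A S ω h y z ≤ A S ω' h y z :=
  Finset.sum_le_sum fun l _ => det_prod_mono h0 hle l

/-- Only vertices at distance `h` are reached. -/
theorem A_eq_zero {ω : Fin k → ℝ} {h : ℕ} {y z : V}
    (hz : z ∉ (nd (∅ : Finset (Fin k)) h).image (fun u => S.ep u y)) : A S ω h y z = 0 := by
  unfold A
  rw [Finset.filter_eq_empty_iff.2, Finset.sum_empty]
  intro u hu he
  exact hz (Finset.mem_image.2 ⟨u, hu, he⟩)

private lemma det_prod_const {U : Finset (Fin k)} {r : ℝ} (l : List (Fin k))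
    (hl : ∀ c ∈ l, c ∉ U) : (l.map (fun c => if c ∈ U then 0 else r)).prod = r ^ l.length := by
  induction l with
  | nil => simp
  | cons c l ih =>
    rw [List.map_cons, List.prod_cons, ih fun d hd => hl d (List.mem_cons_of_mem _ hd),
      if_neg (hl c (List.mem_cons_self ..)), List.length_cons, pow_succ, mul_comm]

theorem A_indicator (U : Finset (Fin k)) (r h : ℕ) (y z : V) :
    A S (fun c => if c ∈ U then 0 else 1 / (r : ℝ)) h y z =
      (((nd U h).filter (fun u => S.ep u y = z)).card : ℝ) * (1 / (r : ℝ)) ^ h := by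
  have hsub : (nd U h).filter (fun u => S.ep u y = z) ⊆
      (nd (∅ : Finset (Fin k)) h).filter (fun u => S.ep u y = z) := by
    intro u hu
    rw [mem_filter, mem_nd] at hu ⊢
    exact ⟨⟨hu.1.1, hu.1.2.1, fun c _ => notMem_empty c⟩, hu.2⟩
  unfold A
  rw [← Finset.sum_subset hsub]
  · rw [Finset.sum_congr rfl (g := fun _ => (1 / (r : ℝ)) ^ h)]
    · rw [Finset.sum_const, nsmul_eq_mul]
    · intro u hu
      rw [mem_filter, mem_nd] at hu
      rw [det_prod_const u hu.1.2.2, hu.1.1]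
  · intro u hu hu'
    rw [mem_filter, mem_nd] at hu hu'
    have h1 : ∃ c ∈ u, c ∈ U := by
      by_contra hcon
      push Not at hcon
      exact hu' ⟨⟨hu.1.1, hu.1.2.1, hcon⟩, hu.2⟩
    obtain ⟨c, hc, hcU⟩ := h1
    apply List.prod_eq_zero
    rw [List.mem_map]
    exact ⟨c, hc, if_pos hcU⟩

/-- Sums over words of distinct letters, by the head letter. -/
private lemma det_succ (U : Finset (Fin k)) (t : ℕ) {f : List (Fin k) → ℝ} (hf : ∀ l, 0 ≤ f l) :
    ∑ u ∈ nd U (t + 1), f u ≤ ∑ c, ∑ v ∈ nd U t, f (c :: v) := by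
  rw [nd, Finset.sum_image]
  · rw [← Finset.sum_product']
    exact Finset.sum_le_sum_of_subset_of_nonneg (Finset.filter_subset _ _) fun p _ _ => hf _
  · intro p _ q _ h
    simp only [List.cons.injEq] at h
    exact Prod.ext h.1 h.2

private lemma det_triple {f : List (Fin k) → ℝ} (hf : ∀ l, 0 ≤ f l) :
    ∑ u ∈ nd (∅ : Finset (Fin k)) 3, f u ≤ ∑ a, ∑ b, ∑ c, f [a, b, c] := by
  refine (det_succ ∅ 2 hf).trans (Finset.sum_le_sum fun a _ => ?_)
  refine (det_succ ∅ 1 (f := fun v => f (a :: v)) fun _ => hf _).trans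
    (Finset.sum_le_sum fun b _ => ?_)
  refine (det_succ ∅ 0 (f := fun v => f (a :: b :: v)) fun _ => hf _).trans
    (Finset.sum_le_sum fun c _ => ?_)
  simp [nd]

private lemma det_pow {ω : Fin k → ℝ} {T : ℝ} (h0 : ∀ c, 0 ≤ ω c) (hT : ∑ c, ω c ≤ T)
    (hT0 : 0 ≤ T) (a : ℕ) : ∑ v ∈ nd (∅ : Finset (Fin k)) a, (v.map ω).prod ≤ T ^ a := by
  induction a with
  | zero => simp [nd]
  | succ a ih =>
    refine (det_succ ∅ a (f := fun v => (v.map ω).prod) fun l => det_prod_nonneg h0 l).trans ?_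
    have h1 : ∑ c, ∑ v ∈ nd (∅ : Finset (Fin k)) a, ((c :: v).map ω).prod =
        (∑ c, ω c) * ∑ v ∈ nd (∅ : Finset (Fin k)) a, (v.map ω).prod := by
      rw [Finset.sum_mul]
      refine Finset.sum_congr rfl fun c _ => ?_
      rw [Finset.mul_sum]
      refine Finset.sum_congr rfl fun v _ => ?_
      rw [List.map_cons, List.prod_cons]
    rw [h1, pow_succ, mul_comm]
    exact mul_le_mul ih hT (Finset.sum_nonneg fun c _ => h0 c) (pow_nonneg hT0 a)

private lemma det_split (a : ℕ) {f : List (Fin k) → ℝ} (hf : ∀ l, 0 ≤ f l) :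
    ∑ u ∈ nd (∅ : Finset (Fin k)) (a + 3), f u ≤
      ∑ w ∈ nd (∅ : Finset (Fin k)) 3, ∑ v ∈ nd (∅ : Finset (Fin k)) a, f (w ++ v) := by
  have h1 : ∑ u ∈ nd (∅ : Finset (Fin k)) (a + 3), f u =
      ∑ p ∈ (nd (∅ : Finset (Fin k)) (a + 3)).image (fun u => (u.take 3, u.drop 3)),
        f (p.1 ++ p.2) := by
    rw [Finset.sum_image]
    · refine Finset.sum_congr rfl fun u _ => ?_
      rw [List.take_append_drop]
    · intro u _ v _ h
      simp only [Prod.mk.injEq] at h
      rw [← List.take_append_drop 3 u, ← List.take_append_drop 3 v, h.1, h.2]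
  rw [h1, ← Finset.sum_product']
  refine Finset.sum_le_sum_of_subset_of_nonneg ?_ fun p _ _ => hf _
  intro p hp
  rw [mem_image] at hp
  obtain ⟨u, hu, rfl⟩ := hp
  obtain ⟨h2, h3, -⟩ := mem_nd.1 hu
  rw [mem_product, mem_nd, mem_nd]
  refine ⟨⟨?_, h3.sublist (List.take_sublist _ _), fun c _ => notMem_empty c⟩, ?_,
    h3.sublist (List.drop_sublist _ _), fun c _ => notMem_empty c⟩
  · rw [List.length_take]; omega
  · rw [List.length_drop]; omega

omit [DecidableEq V] in
private lemma det_inv (w : List (Fin k)) (z : V) : ∃ z', ∀ x, S.ep w x = z ↔ x = z' := by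
  induction w generalizing z with
  | nil => exact ⟨z, fun x => Iff.rfl⟩
  | cons c w ih =>
    obtain ⟨z', hz'⟩ := ih (S.nb c z)
    refine ⟨z', fun x => ?_⟩
    rw [← hz' x, ep_cons]
    constructor
    · intro h
      rw [← h, S.invol]
    · intro h
      rw [h, S.invol]

private lemma det_one {ω : Fin k → ℝ} {μ : ℝ} (hμ : ∀ c, ω c ≤ μ) (hμ0 : 0 ≤ μ)
    (P : Fin k → Prop) [DecidablePred P] (hP : ∀ c d, P c → P d → c = d) :
    ∑ c, (if P c then ω c else 0) ≤ μ := by
  by_cases h : ∃ c, P c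
  · obtain ⟨c, hc⟩ := h
    rw [Finset.sum_eq_single c]
    · rw [if_pos hc]
      exact hμ c
    · intro d _ hd
      rw [if_neg fun h => hd (hP d c h hc)]
    · intro h
      exact absurd (mem_univ c) h
  · push Not at h
    rw [Finset.sum_eq_zero fun c _ => if_neg (h c)]
    exact hμ0

/-- The product of the weights of a word of three letters, some of them in `O`. -/
private lemma det_or {ω : Fin k → ℝ} {O : Finset (Fin k)} (h0 : ∀ c, 0 ≤ ω c) (a b c : Fin k)
    (h : ∃ d ∈ [a, b, c], d ∈ O) : ω a * (ω b * ω c) ≤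
      (if a ∈ O then ω a else 0) * (ω b * ω c) + (if b ∈ O then ω b else 0) * (ω a * ω c) +
        (if c ∈ O then ω c else 0) * (ω a * ω b) := by
  have ha := h0 a
  have hb := h0 b
  have hc := h0 c
  have h1 : 0 ≤ (if a ∈ O then ω a else 0) * (ω b * ω c) := by
    split_ifs <;> positivity
  have h2 : 0 ≤ (if b ∈ O then ω b else 0) * (ω a * ω c) := by
    split_ifs <;> positivity
  have h3 : 0 ≤ (if c ∈ O then ω c else 0) * (ω a * ω b) := by
    split_ifs <;> positivity
  obtain ⟨d, hd, hdO⟩ := h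
  simp only [List.mem_cons, List.not_mem_nil, or_false] at hd
  rcases hd with rfl | rfl | rfl
  · rw [if_pos hdO]; linarith
  · have h4 : ω a * (ω d * ω c) = (if d ∈ O then ω d else 0) * (ω a * ω c) := by
      rw [if_pos hdO]; ring
    linarith
  · have h4 : ω a * (ω b * ω d) = (if d ∈ O then ω d else 0) * (ω a * ω b) := by
      rw [if_pos hdO]; ring
    linarith

private lemma det_small {ω : Fin k → ℝ} {O : Finset (Fin k)} {ρ : ℝ} (h0 : ∀ c, 0 ≤ ω c)
    (hO : ∀ c ∉ O, ω c ≤ ρ) (hρ : 0 ≤ ρ) {l : List (Fin k)} (hl : ∀ c ∈ l, c ∉ O) :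
    (l.map ω).prod ≤ ρ ^ l.length := by
  induction l with
  | nil => simp
  | cons c l ih =>
    rw [List.map_cons, List.prod_cons, List.length_cons, pow_succ, mul_comm]
    exact mul_le_mul (ih fun d hd => hl d (List.mem_cons_of_mem _ hd))
      (hO c (hl c (List.mem_cons_self ..))) (h0 c) (pow_nonneg hρ _)

private lemma det_sum_O {ω : Fin k → ℝ} {O : Finset (Fin k)} {σ : ℝ}
    (hσ : ∑ c ∈ O, ω c ≤ σ) : ∑ c, (if c ∈ O then ω c else 0) ≤ σ := by
  rw [← Finset.sum_filter]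
  rwa [Finset.filter_mem_eq_inter, Finset.univ_inter]

theorem det_three {D : ℕ} (hS : Cod S D) {ω : Fin k → ℝ} {O : Finset (Fin k)} {ρ σ μ T : ℝ}
    (h0 : ∀ c, 0 ≤ ω c) (hO : ∀ c ∉ O, ω c ≤ ρ) (hσ : ∑ c ∈ O, ω c ≤ σ) (hμ : ∀ c, ω c ≤ μ)
    (hT : ∑ c, ω c ≤ T) (hρ : 0 ≤ ρ) (hσ0 : 0 ≤ σ) (hμ0 : 0 ≤ μ) (hT0 : 0 ≤ T) (y z : V) :
    A S ω 3 y z ≤ D * ρ ^ 3 + 3 * σ * T * μ := by
  classical
  unfold A
  rw [Finset.sum_filter]
  have h1 : ∀ u ∈ nd (∅ : Finset (Fin k)) 3, (if S.ep u y = z then (u.map ω).prod else 0) ≤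
      (if S.ep u y = z then ρ ^ 3 else 0) +
        (if (∃ d ∈ u, d ∈ O) ∧ S.ep u y = z then (u.map ω).prod else 0) := by
    intro u hu
    by_cases hz : S.ep u y = z
    · rw [if_pos hz, if_pos hz]
      by_cases hd : ∃ d ∈ u, d ∈ O
      · rw [if_pos ⟨hd, hz⟩]
        have : 0 ≤ ρ ^ 3 := by positivity
        linarith
      · rw [if_neg fun h => hd h.1, add_zero]
        push Not at hd
        have h2 := det_small h0 hO hρ hd
        rwa [(mem_nd.1 hu).1] at h2
    · rw [if_neg hz, if_neg hz, if_neg fun h => hz h.2, add_zero]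
  refine (Finset.sum_le_sum h1).trans ?_
  rw [Finset.sum_add_distrib]
  refine add_le_add ?_ ?_
  · rw [← Finset.sum_filter, Finset.sum_const, nsmul_eq_mul]
    exact mul_le_mul_of_nonneg_right (by exact_mod_cast hS y z) (by positivity)
  · refine (det_triple (f := fun u => if (∃ d ∈ u, d ∈ O) ∧ S.ep u y = z then (u.map ω).prod
      else 0) fun l => ?_).trans ?_
    · split_ifs
      · exact det_prod_nonneg h0 l
      · exact le_rfl
    have hso := det_sum_O (ω := ω) hσ
    have hO0 : ∀ c, 0 ≤ (if c ∈ O then ω c else 0) := fun c => by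
      split_ifs
      · exact h0 c
      · exact le_rfl
    have h2 : ∀ a b c : Fin k, (if (∃ d ∈ [a, b, c], d ∈ O) ∧ S.ep [a, b, c] y = z then
        (([a, b, c] : List (Fin k)).map ω).prod else 0) ≤
        (if a ∈ O then ω a else 0) * (ω b * (if S.ep [a, b, c] y = z then ω c else 0)) +
        (if b ∈ O then ω b else 0) * (ω c * (if S.ep [a, b, c] y = z then ω a else 0)) +
        (if c ∈ O then ω c else 0) * (ω b * (if S.ep [a, b, c] y = z then ω a else 0)) := by
      intro a b c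
      by_cases hz : S.ep [a, b, c] y = z
      · simp only [hz, and_true, if_true]
        by_cases hd : ∃ d ∈ [a, b, c], d ∈ O
        · rw [if_pos hd]
          have h3 := det_or h0 a b c hd
          simp only [List.map_cons, List.map_nil, List.prod_cons, List.prod_nil, mul_one]
          refine h3.trans (le_of_eq ?_)
          ring
        · rw [if_neg hd]
          have := hO0 a
          have := hO0 b
          have := hO0 c
          have := h0 a
          have := h0 b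
          have := h0 c
          positivity
      · simp only [hz, and_false, if_false, mul_zero, add_zero, le_refl]
    refine (Finset.sum_le_sum fun a _ => Finset.sum_le_sum fun b _ =>
      Finset.sum_le_sum fun c _ => h2 a b c).trans ?_
    simp only [Finset.sum_add_distrib]
    have hTμ : (∑ c, ω c) * μ ≤ T * μ := mul_le_mul_of_nonneg_right hT hμ0
    have hall : (∑ c, if c ∈ O then ω c else 0) * ((∑ c, ω c) * μ) ≤ σ * (T * μ) :=
      mul_le_mul hso hTμ (mul_nonneg (Finset.sum_nonneg fun c _ => h0 c) hμ0) hσ0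
    have e1 : ∑ a, ∑ b, ∑ c, (if a ∈ O then ω a else 0) *
        (ω b * (if S.ep [a, b, c] y = z then ω c else 0)) ≤ σ * (T * μ) := by
      refine le_trans ?_ hall
      rw [Finset.sum_mul]
      refine Finset.sum_le_sum fun a _ => ?_
      rw [Finset.sum_mul, Finset.mul_sum]
      refine Finset.sum_le_sum fun b _ => ?_
      rw [← Finset.mul_sum, ← Finset.mul_sum]
      refine mul_le_mul_of_nonneg_left (mul_le_mul_of_nonneg_left ?_ (h0 b)) (hO0 a)
      refine det_one hμ hμ0 _ ?_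
      intro c d hc hd
      refine S.inj y c d (nb_injective S b (nb_injective S a ?_))
      exact hc.trans hd.symm
    have e2 : ∑ a, ∑ b, ∑ c, (if b ∈ O then ω b else 0) *
        (ω c * (if S.ep [a, b, c] y = z then ω a else 0)) ≤ σ * (T * μ) := by
      refine le_trans ?_ hall
      rw [Finset.sum_comm, Finset.sum_mul]
      refine Finset.sum_le_sum fun b _ => ?_
      rw [Finset.sum_comm, Finset.sum_mul, Finset.mul_sum]
      refine Finset.sum_le_sum fun c _ => ?_
      rw [← Finset.mul_sum, ← Finset.mul_sum]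
      refine mul_le_mul_of_nonneg_left (mul_le_mul_of_nonneg_left ?_ (h0 c)) (hO0 b)
      refine det_one hμ hμ0 _ ?_
      intro a d ha hd
      exact S.inj _ a d (ha.trans hd.symm)
    have e3 : ∑ a, ∑ b, ∑ c, (if c ∈ O then ω c else 0) *
        (ω b * (if S.ep [a, b, c] y = z then ω a else 0)) ≤ σ * (T * μ) := by
      refine le_trans ?_ hall
      rw [Finset.sum_comm]
      rw [Finset.sum_congr rfl fun b _ => Finset.sum_comm]
      rw [Finset.sum_comm, Finset.sum_mul]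
      refine Finset.sum_le_sum fun c _ => ?_
      rw [Finset.sum_mul, Finset.mul_sum]
      refine Finset.sum_le_sum fun b _ => ?_
      rw [← Finset.mul_sum, ← Finset.mul_sum]
      refine mul_le_mul_of_nonneg_left (mul_le_mul_of_nonneg_left ?_ (h0 b)) (hO0 c)
      refine det_one hμ hμ0 _ ?_
      intro a d ha hd
      exact S.inj _ a d (ha.trans hd.symm)
    linarith

private lemma det_someO {ω : Fin k → ℝ} {O : Finset (Fin k)} {σ T : ℝ}
    (h0 : ∀ c, 0 ≤ ω c) (hσ : ∑ c ∈ O, ω c ≤ σ)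
    (hT : ∑ c, ω c ≤ T) (hσ0 : 0 ≤ σ) (hT0 : 0 ≤ T)
    (P : List (Fin k) → Prop) [DecidablePred P] (hP : ∀ l, P l ↔ ∃ d ∈ l, d ∈ O) :
    ∑ w ∈ nd (∅ : Finset (Fin k)) 3, (if P w then (w.map ω).prod else 0) ≤ 3 * σ * T ^ 2 := by
  refine (det_triple (f := fun u => if P u then (u.map ω).prod else 0) fun l => ?_).trans ?_
  · split_ifs
    · exact det_prod_nonneg h0 l
    · exact le_rfl
  have hso := det_sum_O (ω := ω) hσ
  have hO0 : ∀ c, 0 ≤ (if c ∈ O then ω c else 0) := fun c => by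
    split_ifs
    · exact h0 c
    · exact le_rfl
  have h2 : ∀ a b c : Fin k, (if P [a, b, c] then (([a, b, c] : List (Fin k)).map ω).prod else 0) ≤
      (if a ∈ O then ω a else 0) * (ω b * ω c) + (if b ∈ O then ω b else 0) * (ω a * ω c) +
        (if c ∈ O then ω c else 0) * (ω a * ω b) := by
    intro a b c
    by_cases hd : P [a, b, c]
    · rw [if_pos hd]
      have h3 := det_or h0 a b c ((hP _).1 hd)
      simpa only [List.map_cons, List.map_nil, List.prod_cons, List.prod_nil, mul_one] using h3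
    · rw [if_neg hd]
      have := hO0 a
      have := hO0 b
      have := hO0 c
      have := h0 a
      have := h0 b
      have := h0 c
      positivity
  refine (Finset.sum_le_sum fun a _ => Finset.sum_le_sum fun b _ =>
    Finset.sum_le_sum fun c _ => h2 a b c).trans ?_
  simp only [Finset.sum_add_distrib]
  have hsum0 : 0 ≤ ∑ c, ω c := Finset.sum_nonneg fun c _ => h0 c
  have hTT : (∑ c, ω c) * (∑ c, ω c) ≤ T * T := mul_le_mul hT hT hsum0 hT0
  have hall : (∑ c, if c ∈ O then ω c else 0) * ((∑ c, ω c) * (∑ c, ω c)) ≤ σ * (T * T) :=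
    mul_le_mul hso hTT (mul_nonneg hsum0 hsum0) hσ0
  have e1 : ∑ a, ∑ b, ∑ c, (if a ∈ O then ω a else 0) * (ω b * ω c) =
      (∑ c, if c ∈ O then ω c else 0) * ((∑ c, ω c) * (∑ c, ω c)) := by
    simp only [← Finset.mul_sum, ← Finset.sum_mul]
  have e2 : ∑ a, ∑ b, ∑ c, (if b ∈ O then ω b else 0) * (ω a * ω c) =
      (∑ c, if c ∈ O then ω c else 0) * ((∑ c, ω c) * (∑ c, ω c)) := by
    rw [Finset.sum_comm]
    simp only [← Finset.mul_sum, ← Finset.sum_mul]
  have e3 : ∑ a, ∑ b, ∑ c, (if c ∈ O then ω c else 0) * (ω a * ω b) =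
      (∑ c, if c ∈ O then ω c else 0) * ((∑ c, ω c) * (∑ c, ω c)) := by
    simp only [← Finset.mul_sum, ← Finset.sum_mul]
  rw [e1, e2, e3]
  nlinarith

theorem det_step {D : ℕ} (hS : Cod S D) {ω : Fin k → ℝ} {O : Finset (Fin k)} {ρ σ T M : ℝ}
    (h0 : ∀ c, 0 ≤ ω c) (hO : ∀ c ∉ O, ω c ≤ ρ) (hσ : ∑ c ∈ O, ω c ≤ σ)
    (hT : ∑ c, ω c ≤ T) (hρ : 0 ≤ ρ) (hσ0 : 0 ≤ σ) (hT0 : 0 ≤ T) (hM : 0 ≤ M) (a : ℕ) (y : V)
    (hA : ∀ z, A S ω a y z ≤ M) (z : V) :
    A S ω (a + 3) y z ≤ D * ρ ^ 3 * T ^ a + 3 * σ * T ^ 2 * M := by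
  classical
  have hF : A S ω (a + 3) y z = ∑ u ∈ nd (∅ : Finset (Fin k)) (a + 3),
      (if S.ep u y = z then (u.map ω).prod else 0) := by
    unfold A
    rw [Finset.sum_filter]
  rw [hF]
  refine (det_split a (f := fun u => if S.ep u y = z then (u.map ω).prod else 0)
    fun l => ?_).trans ?_
  · split_ifs
    · exact det_prod_nonneg h0 l
    · exact le_rfl
  have h1 : ∀ w ∈ nd (∅ : Finset (Fin k)) 3, ∀ v ∈ nd (∅ : Finset (Fin k)) a,
      (if S.ep (w ++ v) y = z then ((w ++ v).map ω).prod else 0) ≤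
      (if S.ep w (S.ep v y) = z then ρ ^ 3 * (v.map ω).prod else 0) +
        (if ∃ d ∈ w, d ∈ O then (w.map ω).prod else 0) *
          (if S.ep w (S.ep v y) = z then (v.map ω).prod else 0) := by
    intro w hw v _
    have hv0 := det_prod_nonneg h0 v
    rw [ep_append, List.map_append, List.prod_append]
    by_cases hz : S.ep w (S.ep v y) = z
    · rw [if_pos hz, if_pos hz, if_pos hz]
      by_cases hd : ∃ d ∈ w, d ∈ O
      · rw [if_pos hd]
        have : 0 ≤ ρ ^ 3 * (v.map ω).prod := by positivity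
        linarith
      · rw [if_neg hd, zero_mul, add_zero]
        push Not at hd
        have h2 := det_small h0 hO hρ hd
        rw [(mem_nd.1 hw).1] at h2
        exact mul_le_mul_of_nonneg_right h2 hv0
    · rw [if_neg hz, if_neg hz, if_neg hz, mul_zero, add_zero]
  refine (Finset.sum_le_sum fun w hw => Finset.sum_le_sum fun v hv => h1 w hw v hv).trans ?_
  simp only [Finset.sum_add_distrib]
  refine add_le_add ?_ ?_
  · rw [Finset.sum_comm]
    have h2 : ∀ v ∈ nd (∅ : Finset (Fin k)) a, ∑ w ∈ nd (∅ : Finset (Fin k)) 3,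
        (if S.ep w (S.ep v y) = z then ρ ^ 3 * (v.map ω).prod else 0) ≤
        D * ρ ^ 3 * (v.map ω).prod := by
      intro v _
      rw [← Finset.sum_filter, Finset.sum_const, nsmul_eq_mul, mul_assoc]
      have hv0 := det_prod_nonneg h0 v
      exact mul_le_mul_of_nonneg_right (by exact_mod_cast hS _ z) (by positivity)
    refine (Finset.sum_le_sum h2).trans ?_
    rw [← Finset.mul_sum]
    exact mul_le_mul_of_nonneg_left (det_pow h0 hT hT0 a) (by positivity)
  · have h2 : ∀ w ∈ nd (∅ : Finset (Fin k)) 3, ∑ v ∈ nd (∅ : Finset (Fin k)) a,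
        (if ∃ d ∈ w, d ∈ O then (w.map ω).prod else 0) *
          (if S.ep w (S.ep v y) = z then (v.map ω).prod else 0) ≤
        (if ∃ d ∈ w, d ∈ O then (w.map ω).prod else 0) * M := by
      intro w _
      rw [← Finset.mul_sum]
      refine mul_le_mul_of_nonneg_left ?_ ?_
      · obtain ⟨z', hz'⟩ := det_inv S w z
        have h3 := hA z'
        unfold A at h3
        rw [Finset.sum_filter] at h3
        refine le_trans (le_of_eq ?_) h3
        refine Finset.sum_congr rfl fun v _ => ?_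
        exact if_congr (hz' _) rfl rfl
      · split_ifs
        · exact det_prod_nonneg h0 w
        · exact le_rfl
    refine (Finset.sum_le_sum h2).trans ?_
    rw [← Finset.sum_mul]
    refine mul_le_mul_of_nonneg_right ?_ hM
    exact det_someO h0 hσ hT hσ0 hT0 _ fun l => Iff.rfl

theorem det_long {D : ℕ} (hS : Cod S D) {ω : Fin k → ℝ} {O : Finset (Fin k)} {ρ σ μ T : ℝ}
    (h0 : ∀ c, 0 ≤ ω c) (hO : ∀ c ∉ O, ω c ≤ ρ) (hσ : ∑ c ∈ O, ω c ≤ σ) (hμ : ∀ c, ω c ≤ μ)
    (hT : ∑ c, ω c ≤ T) (hρ : 0 ≤ ρ) (hσ0 : 0 ≤ σ) (hμ0 : 0 ≤ μ) (hT1 : 1 ≤ T)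
    (hσ6 : 6 * σ ≤ 1) (hσμ : 3 * σ * T * μ ≤ 1) (g : ℕ) (y z : V) :
    A S ω (3 * g + 3) y z ≤ T ^ (3 * g + 3) * (2 * D * ρ ^ 3 + (3 * σ) ^ g) := by
  have hT0 : 0 ≤ T := by linarith
  have hD : (0 : ℝ) ≤ D * ρ ^ 3 := by positivity
  induction g generalizing z with
  | zero =>
    have h1 := det_three S hS h0 hO hσ hμ hT hρ hσ0 hμ0 hT0 y z
    have h2 : (1 : ℝ) ≤ T ^ 3 := one_le_pow₀ hT1
    have h3 : (2 * D * ρ ^ 3 + (3 * σ) ^ 0) ≤ T ^ 3 * (2 * D * ρ ^ 3 + (3 * σ) ^ 0) := by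
      refine le_mul_of_one_le_left ?_ h2
      rw [pow_zero]
      linarith
    rw [pow_zero] at h3
    rw [pow_zero]
    have h4 : 3 * 0 + 3 = 3 := rfl
    rw [h4]
    linarith
  | succ g ih =>
    have hM : 0 ≤ T ^ (3 * g + 3) * (2 * D * ρ ^ 3 + (3 * σ) ^ g) := by positivity
    have h1 := det_step S hS h0 hO hσ hT hρ hσ0 hT0 hM (3 * g + 3) y (fun z => ih z) z
    have h2 : 3 * (g + 1) + 3 = 3 * g + 3 + 3 := by ring
    rw [h2]
    refine h1.trans ?_
    have hP : (0 : ℝ) ≤ T ^ (3 * g + 3) := by positivity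
    have h3 : (1 : ℝ) ≤ T ^ 3 := one_le_pow₀ hT1
    have h4 : T ^ 2 ≤ T ^ 3 := pow_le_pow_right₀ hT1 (by norm_num)
    have hg : (0 : ℝ) ≤ (3 * σ) ^ g := by positivity
    have h5 : D * ρ ^ 3 * T ^ (3 * g + 3) ≤ T ^ 3 * (D * ρ ^ 3 * T ^ (3 * g + 3)) :=
      le_mul_of_one_le_left (by positivity) h3
    have h6 : 3 * σ * T ^ 2 * (T ^ (3 * g + 3) * (2 * D * ρ ^ 3 + (3 * σ) ^ g)) ≤
        3 * σ * T ^ 3 * (T ^ (3 * g + 3) * (2 * D * ρ ^ 3 + (3 * σ) ^ g)) := by
      refine mul_le_mul_of_nonneg_right ?_ hM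
      exact mul_le_mul_of_nonneg_left h4 (by positivity)
    have h7 : T ^ (3 * g + 3 + 3) * (2 * D * ρ ^ 3 + (3 * σ) ^ (g + 1)) -
        (T ^ 3 * (D * ρ ^ 3 * T ^ (3 * g + 3)) +
          3 * σ * T ^ 3 * (T ^ (3 * g + 3) * (2 * D * ρ ^ 3 + (3 * σ) ^ g))) =
        T ^ (3 * g + 3) * T ^ 3 * ((D * ρ ^ 3) * (1 - 6 * σ)) := by
      ring
    have h8 : 0 ≤ T ^ (3 * g + 3) * T ^ 3 * ((D * ρ ^ 3) * (1 - 6 * σ)) := by
      have : 0 ≤ 1 - 6 * σ := by linarith
      positivity
    linarith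

end RP60
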