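import Pool.Agent.RP60.Mom

/-!
The families of weights and the passage from one level to the next smaller pool.
-/

namespace RP60

open Finset RP97

variable {V : Type*} {k : ℕ} (S : Sys V k) [DecidableEq V]

private lemma fam_small (w : ℕ) :
    (univ.filter (fun W : Finset (Fin k) => W.card ≤ w)).card ≤ (k + 1) ^ w := by
  induction w with
  | zero =>
    have h1 : (univ.filter (fun W : Finset (Fin k) => W.card ≤ 0)) ⊆ {∅} := by
      intro W hW
      rw [mem_filter] at hW
      rw [mem_singleton]
      exact Finset.card_eq_zero.1 (Nat.le_zero.1 hW.2)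
    exact (card_le_card h1).trans (by simp)
  | succ w ih =>
    have h1 : (univ.filter (fun W : Finset (Fin k) => W.card ≤ w + 1)) ⊆
        ((univ : Finset (Option (Fin k))) ×ˢ
          (univ.filter (fun W : Finset (Fin k) => W.card ≤ w))).image
          (fun p => match p.1 with
            | none => p.2
            | some c => insert c p.2) := by
      intro W hW
      rw [mem_filter] at hW
      rw [mem_image]
      rcases W.eq_empty_or_nonempty with h | ⟨c, hc⟩
      · refine ⟨(none, W), ?_, rfl⟩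
        rw [mem_product, mem_filter]
        refine ⟨mem_univ _, mem_univ _, ?_⟩
        rw [h]
        exact Nat.zero_le _
      · refine ⟨(some c, W.erase c), ?_, ?_⟩
        · rw [mem_product, mem_filter]
          refine ⟨mem_univ _, mem_univ _, ?_⟩
          have h2 := Finset.card_erase_of_mem hc
          have h3 := hW.2
          have h4 : (W.erase c).card ≤ w := by omega
          exact h4
        · exact insert_erase hc
    refine (card_le_card h1).trans (card_image_le.trans ?_)
    rw [card_product, Finset.card_univ, Fintype.card_option, Fintype.card_fin, pow_succ, mul_comm]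
    exact Nat.mul_le_mul_right _ ih

theorem card_Hf (w r : ℕ → ℕ) (i : ℕ) :
    (Hf k w r i).card ≤ (k + 1) ^ (∑ j ∈ range i, w j) := by
  induction i with
  | zero => simp [Hf]
  | succ i ih =>
    rw [Hf, sum_range_succ, pow_add]
    refine card_image_le.trans ?_
    rw [card_product]
    exact Nat.mul_le_mul ih (fam_small (w i))

theorem Hf_prop (w r : ℕ → ℕ) (i : ℕ) {η : Fin k → ℝ} (hη : η ∈ Hf k w r i) :
    (∀ c, 0 ≤ η c) ∧ (∑ c, η c ≤ ∑ j ∈ range i, (w j : ℝ) / (r j : ℝ)) ∧
      (∀ c, η c ≤ ∑ j ∈ range i, 1 / (r j : ℝ)) ∧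
      ∃ O : Finset (Fin k), O.card ≤ ∑ j ∈ range i, w j ∧ ∀ c ∉ O, η c = 0 := by
  induction i generalizing η with
  | zero =>
    simp only [Hf, mem_singleton] at hη
    subst hη
    exact ⟨fun c => le_refl 0, by simp, fun c => by simp, ∅, by simp, fun c _ => rfl⟩
  | succ i ih =>
    rw [Hf, mem_image] at hη
    obtain ⟨⟨η', W⟩, hp, rfl⟩ := hη
    rw [mem_product, mem_filter] at hp
    obtain ⟨h1, -, h2⟩ := hp
    simp only at h1 h2
    obtain ⟨a1, a2, a3, O, a4, a5⟩ := ih h1
    have hr0 : (0 : ℝ) ≤ 1 / (r i : ℝ) := by positivity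
    refine ⟨?_, ?_, ?_, O ∪ W, ?_, ?_⟩
    · intro c
      simp only
      have h3 := a1 c
      split_ifs
      · linarith
      · linarith
    · simp only
      rw [sum_add_distrib, sum_range_succ]
      refine add_le_add a2 ?_
      rw [← sum_filter, sum_const, nsmul_eq_mul]
      have h3 : (univ.filter (fun c => c ∈ W)) = W := by
        ext c
        simp
      rw [h3, div_eq_mul_one_div (w i : ℝ)]
      exact mul_le_mul_of_nonneg_right (by exact_mod_cast h2) hr0
    · intro c
      simp only
      rw [sum_range_succ]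
      refine add_le_add (a3 c) ?_
      split_ifs
      · exact le_refl _
      · exact hr0
    · rw [sum_range_succ]
      exact (card_union_le _ _).trans (add_le_add a4 h2)
    · intro c hc
      rw [mem_union, not_or] at hc
      simp only
      rw [a5 c hc.1, if_neg hc.2, add_zero]

/-- If the pool of the colours not in `U` is regular at level `i + 1` then most of its subpools
are regular at level `i`. -/
theorem trans {w r : ℕ → ℕ} {K : ℕ → ℝ} {h i p t : ℕ} {y : V} {U : Finset (Fin k)}
    (hU : U.card + r (i + 1) = k) (ht : r i + t = r (i + 1)) (hr0 : 0 < r i) (hp : p * h ≤ w i)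
    (hKi : 0 < K i) (hKi1 : 0 ≤ K (i + 1)) (hreg : Reg S w r K h (i + 1) y U)
    [DecidablePred (fun v : List (Fin k) => ¬ Reg S w r K h i y (U ∪ v.toFinset))] :
    (((nd U t).filter (fun v => ¬ Reg S w r K h i y (U ∪ v.toFinset))).card : ℝ) ≤
      ((Hf k w r i).card * k ^ h * (K (i + 1) / K i) ^ p) *
        ((r (i + 1)).descFactorial t : ℝ) := by
  set Z : Finset V := (nd (∅ : Finset (Fin k)) h).image (fun u => S.ep u y) with hZ
  have hZc : Z.card ≤ k ^ h := by
    refine card_image_le.trans ?_
    rw [card_nd, card_empty, Nat.sub_zero]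
    exact Nat.descFactorial_le_pow k h
  have hsub : (nd U t).filter (fun v => ¬ Reg S w r K h i y (U ∪ v.toFinset)) ⊆
      ((Hf k w r i) ×ˢ Z).biUnion (fun q => (nd U t).filter (fun v =>
        K i < A S (fun c => q.1 c + if c ∈ U ∪ v.toFinset then 0 else 1 / (r i : ℝ)) h y q.2)) := by
    intro v hv
    rw [mem_filter] at hv
    obtain ⟨hv1, hv2⟩ := hv
    unfold Reg at hv2
    push Not at hv2
    obtain ⟨η, hη, z, hz⟩ := hv2
    rw [mem_biUnion]
    refine ⟨(η, z), ?_, ?_⟩
    · rw [mem_product]
      refine ⟨hη, ?_⟩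
      by_contra hcon
      rw [A_eq_zero S hcon] at hz
      exact absurd hKi (not_lt.2 hz.le)
    · rw [mem_filter]
      exact ⟨hv1, hz⟩
  have hM0 : (0 : ℝ) ≤ (K (i + 1) / K i) ^ p := pow_nonneg (div_nonneg hKi1 hKi.le) p
  have hb : ∀ q ∈ (Hf k w r i) ×ˢ Z, (((nd U t).filter (fun v =>
        K i < A S (fun c => q.1 c + if c ∈ U ∪ v.toFinset then 0 else 1 / (r i : ℝ))
          h y q.2)).card : ℝ) ≤
      ((r (i + 1)).descFactorial t : ℝ) * (K (i + 1) / K i) ^ p := by
    intro q hq
    rw [mem_product] at hq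
    refine markov S (Hf_prop w r i hq.1).1 hKi1 hKi y q.2 hU ht hr0 hp ?_
    intro W hW
    refine hreg (fun c => q.1 c + if c ∈ W then 1 / (r i : ℝ) else 0) ?_ q.2
    rw [Hf, mem_image]
    refine ⟨(q.1, W), ?_, rfl⟩
    rw [mem_product, mem_filter]
    exact ⟨hq.1, mem_univ _, hW⟩
  calc (((nd U t).filter (fun v => ¬ Reg S w r K h i y (U ∪ v.toFinset))).card : ℝ)
      ≤ ((((Hf k w r i) ×ˢ Z).biUnion (fun q => (nd U t).filter (fun v =>
        K i < A S (fun c => q.1 c + if c ∈ U ∪ v.toFinset then 0 else 1 / (r i : ℝ))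
          h y q.2))).card : ℝ) := by exact_mod_cast card_le_card hsub
    _ ≤ ∑ q ∈ (Hf k w r i) ×ˢ Z, (((nd U t).filter (fun v =>
        K i < A S (fun c => q.1 c + if c ∈ U ∪ v.toFinset then 0 else 1 / (r i : ℝ))
          h y q.2)).card : ℝ) := by exact_mod_cast card_biUnion_le
    _ ≤ ∑ _q ∈ (Hf k w r i) ×ˢ Z,
        ((r (i + 1)).descFactorial t : ℝ) * (K (i + 1) / K i) ^ p := sum_le_sum hb
    _ = (((Hf k w r i).card : ℝ) * (Z.card : ℝ)) *
        (((r (i + 1)).descFactorial t : ℝ) * (K (i + 1) / K i) ^ p) := by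
      rw [sum_const, nsmul_eq_mul, card_product, Nat.cast_mul]
    _ ≤ (((Hf k w r i).card : ℝ) * (k : ℝ) ^ h) *
        (((r (i + 1)).descFactorial t : ℝ) * (K (i + 1) / K i) ^ p) := by
      refine mul_le_mul_of_nonneg_right (mul_le_mul_of_nonneg_left ?_ (Nat.cast_nonneg _))
        (mul_nonneg (Nat.cast_nonneg _) hM0)
      exact_mod_cast hZc
    _ = ((Hf k w r i).card * k ^ h * (K (i + 1) / K i) ^ p) *
        ((r (i + 1)).descFactorial t : ℝ) := by ring

end RP60
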