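import Pool.Agent.RP60.Def

/-!
Words using nearly all colours of a pool: they seldom lead to a given vertex.
-/

namespace RP60

open Finset RP97

variable {V : Type*} {k : ℕ} (S : Sys V k) [DecidableEq V]

private lemma mem_nd_insert {U : Finset (Fin k)} {ℓ : ℕ} {c : Fin k} {u : List (Fin k)} :
    u ∈ nd (insert c U) ℓ ↔ u ∈ nd U ℓ ∧ c ∉ u := by
  simp only [mem_nd, mem_insert, not_or]
  constructor
  · rintro ⟨h1, h2, h3⟩
    exact ⟨⟨h1, h2, fun d hd => (h3 d hd).2⟩, fun hc => (h3 c hc).1 rfl⟩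
  · rintro ⟨⟨h1, h2, h3⟩, h4⟩
    exact ⟨h1, h2, fun d hd => ⟨fun h => h4 (h ▸ hd), h3 d hd⟩⟩

private lemma cons_mem_nd {U : Finset (Fin k)} {ℓ : ℕ} {c : Fin k} {u : List (Fin k)} :
    c :: u ∈ nd U (ℓ + 1) ↔ c ∉ U ∧ u ∈ nd (insert c U) ℓ := by
  rw [mem_nd_insert]
  simp only [mem_nd, List.length_cons, List.nodup_cons, List.mem_cons, forall_eq_or_imp,
    add_left_inj]
  tauto

private lemma sum_nd_succ {M : Type*} [AddCommMonoid M] (U : Finset (Fin k)) (ℓ : ℕ)
    (f : List (Fin k) → M) :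
    ∑ u ∈ nd U (ℓ + 1), f u = ∑ c ∈ Uᶜ, ∑ u ∈ nd (insert c U) ℓ, f (c :: u) := by
  rw [Finset.sum_sigma']
  symm
  apply Finset.sum_bij (fun (p : Σ _ : Fin k, List (Fin k)) _ => p.1 :: p.2)
  · rintro ⟨c, u⟩ h
    simp only [mem_sigma, mem_compl] at h
    exact cons_mem_nd.2 h
  · rintro ⟨c, u⟩ _ ⟨c', u'⟩ _ h
    simp only [List.cons.injEq] at h
    obtain ⟨rfl, rfl⟩ := h
    rfl
  · intro u hu
    match u, hu with
    | [], hu => exact absurd (mem_nd.1 hu).1 (by simp)
    | c :: u', hu =>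
      exact ⟨⟨c, u'⟩, by simpa using cons_mem_nd.1 hu, rfl⟩
  · rintro ⟨c, u⟩ _
    rfl

private lemma sum_nd_append {M : Type*} [AddCommMonoid M] (U : Finset (Fin k)) (a b : ℕ)
    (f : List (Fin k) → M) :
    ∑ w ∈ nd U (a + b), f w = ∑ v ∈ nd U b, ∑ u ∈ nd (U ∪ v.toFinset) a, f (u ++ v) := by
  rw [Finset.sum_sigma']
  symm
  apply Finset.sum_bij (fun (p : Σ _ : List (Fin k), List (Fin k)) _ => p.2 ++ p.1)
  · rintro ⟨v, u⟩ h
    simp only [mem_sigma, mem_nd, mem_union, List.mem_toFinset, not_or] at h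
    obtain ⟨⟨h1, h2, h3⟩, h4, h5, h6⟩ := h
    refine mem_nd.2 ⟨by simp [h1, h4], List.nodup_append.2 ⟨h5, h2, ?_⟩, ?_⟩
    · intro c hc d hd hcd
      exact (h6 c hc).2 (hcd ▸ hd)
    · intro c hc
      rcases List.mem_append.1 hc with hc | hc
      · exact (h6 c hc).1
      · exact h3 c hc
  · rintro ⟨v, u⟩ h ⟨v', u'⟩ h' he
    simp only [mem_sigma, mem_nd] at h h'
    obtain ⟨e1, e2⟩ := List.append_inj he (by rw [h.2.1, h'.2.1])
    simp only at e1 e2
    subst e1 e2
    rfl
  · intro w hw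
    obtain ⟨h1, h2, h3⟩ := mem_nd.1 hw
    refine ⟨⟨w.drop a, w.take a⟩, ?_, List.take_append_drop a w⟩
    simp only [mem_sigma, mem_nd, mem_union, List.mem_toFinset, not_or]
    have h4 : (w.take a ++ w.drop a).Nodup := by rwa [List.take_append_drop]
    have h5 := (List.nodup_append.1 h4).2.2
    refine ⟨⟨?_, h2.sublist (List.drop_sublist _ _), ?_⟩, ?_, h2.sublist (List.take_sublist _ _), ?_⟩
    · rw [List.length_drop]; omega
    · intro c hc
      exact h3 c ((List.drop_sublist _ _).subset hc)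
    · rw [List.length_take]; omega
    · intro c hc
      exact ⟨h3 c ((List.take_sublist _ _).subset hc), fun hd => h5 c hc c hd rfl⟩
  · rintro ⟨v, u⟩ _
    rfl

/-- Words from `x` to `y` not contained in `W`, weighted by the number of lists of length `τ`
which avoid them and `W`. -/
theorem typ_new (τ ℓ : ℕ) (U W : Finset (Fin k)) (x y : V) :
    τ * ∑ u ∈ (nd U ℓ).filter (fun u => S.ep u x = y ∧ ¬ u.toFinset ⊆ W),
        (nd (U ∪ W ∪ u.toFinset) τ).card ≤ ∑ u ∈ nd U ℓ, (nd (U ∪ W ∪ u.toFinset) τ).card := by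
  induction ℓ generalizing U W y with
  | zero =>
    have h : (nd U 0).filter (fun u => S.ep u x = y ∧ ¬ u.toFinset ⊆ W) = ∅ := by
      apply Finset.filter_eq_empty_iff.2
      intro u hu
      simp only [nd, mem_singleton] at hu
      subst hu
      simp
    rw [h]
    simp
  | succ ℓ ih =>
    rw [Finset.sum_filter, sum_nd_succ, sum_nd_succ]
    rw [← Finset.sum_filter_add_sum_filter_not Uᶜ (fun c => c ∈ W),
      ← Finset.sum_filter_add_sum_filter_not Uᶜ (fun c => c ∈ W) (fun c =>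
        ∑ u ∈ nd (insert c U) ℓ, (nd (U ∪ W ∪ (c :: u).toFinset) τ).card), mul_add]
    apply Nat.add_le_add
    · rw [Finset.mul_sum]
      apply Finset.sum_le_sum
      intro c hc
      simp only [mem_filter, mem_compl] at hc
      have hU : ∀ u : List (Fin k), U ∪ W ∪ (c :: u).toFinset = insert c U ∪ W ∪ u.toFinset := by
        intro u
        ext d
        simp only [mem_union, List.toFinset_cons, mem_insert]
        tauto
      have hP : ∀ u : List (Fin k), (S.ep (c :: u) x = y ∧ ¬ (c :: u).toFinset ⊆ W) ↔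
          (S.ep u x = S.nb c y ∧ ¬ u.toFinset ⊆ W) := by
        intro u
        have h1 : S.ep (c :: u) x = y ↔ S.ep u x = S.nb c y := by
          rw [ep_cons]
          constructor
          · intro h
            rw [← h, S.invol]
          · intro h
            rw [h, S.invol]
        have h2 : (c :: u).toFinset ⊆ W ↔ u.toFinset ⊆ W := by
          rw [List.toFinset_cons, Finset.insert_subset_iff]
          exact ⟨fun h => h.2, fun h => ⟨hc.2, h⟩⟩
        rw [h1, h2]
      have := ih (insert c U) W (S.nb c y)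
      rw [Finset.sum_filter] at this
      simp only [hU, hP]
      exact this
    · have hsw : ∀ F : Fin k → List (Fin k) → ℕ,
          (∑ c ∈ Uᶜ.filter (fun c => ¬ c ∈ W), ∑ u ∈ nd (insert c U) ℓ, F c u) =
            ∑ u ∈ nd U ℓ, ∑ c ∈ (U ∪ W ∪ u.toFinset)ᶜ, F c u := by
        intro F
        apply Finset.sum_comm'
        intro c u
        simp only [mem_filter, mem_compl, mem_nd_insert, mem_union, List.mem_toFinset, not_or]
        tauto
      rw [hsw, hsw, Finset.mul_sum]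
      apply Finset.sum_le_sum
      intro u hu
      have hN : ∀ c ∈ (U ∪ W ∪ u.toFinset)ᶜ, (nd (U ∪ W ∪ (c :: u).toFinset) τ).card =
          (k - (U ∪ W ∪ u.toFinset).card - 1).descFactorial τ := by
        intro c hc
        rw [mem_compl] at hc
        have h1 : U ∪ W ∪ (c :: u).toFinset = insert c (U ∪ W ∪ u.toFinset) := by
          ext d
          simp only [mem_union, List.toFinset_cons, mem_insert]
          tauto
        rw [card_nd, h1, Finset.card_insert_of_notMem hc]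
        congr 1
      set M := k - (U ∪ W ∪ u.toFinset).card with hM
      have hMc : ((U ∪ W ∪ u.toFinset)ᶜ).card = M := by
        rw [card_compl, Fintype.card_fin]
      have hR : ∑ c ∈ (U ∪ W ∪ u.toFinset)ᶜ, (nd (U ∪ W ∪ (c :: u).toFinset) τ).card =
          M * (M - 1).descFactorial τ := by
        rw [Finset.sum_congr rfl hN, Finset.sum_const, hMc, smul_eq_mul]
      have hL : (∑ c ∈ (U ∪ W ∪ u.toFinset)ᶜ, if S.ep (c :: u) x = y ∧ ¬ (c :: u).toFinset ⊆ W
          then (nd (U ∪ W ∪ (c :: u).toFinset) τ).card else 0) ≤ (M - 1).descFactorial τ := by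
        rw [← Finset.sum_filter]
        have h1 : ((U ∪ W ∪ u.toFinset)ᶜ.filter (fun c =>
            S.ep (c :: u) x = y ∧ ¬ (c :: u).toFinset ⊆ W)).card ≤ 1 := by
          rw [Finset.card_le_one]
          intro c hc d hd
          have hc' := (Finset.mem_filter.1 hc).2.1
          have hd' := (Finset.mem_filter.1 hd).2.1
          rw [ep_cons] at hc' hd'
          exact S.inj _ _ _ (hc'.trans hd'.symm)
        calc _ ≤ ∑ c ∈ ((U ∪ W ∪ u.toFinset)ᶜ.filter (fun c =>
            S.ep (c :: u) x = y ∧ ¬ (c :: u).toFinset ⊆ W)), (M - 1).descFactorial τ := by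
              apply Finset.sum_le_sum
              intro c hc
              rw [hN c (mem_filter.1 hc).1]
          _ ≤ _ := by
              rw [Finset.sum_const, smul_eq_mul]
              exact (Nat.mul_le_mul_right _ h1).trans (by simp)
      rw [hR]
      rcases Nat.lt_or_ge M τ with hlt | hge
      · have h0 : (M - 1).descFactorial τ = 0 := by
          rw [Nat.descFactorial_eq_zero_iff_lt]
          omega
        rw [h0] at hL
        rw [Nat.le_zero.1 hL]
        simp
      · exact Nat.mul_le_mul hge hL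

omit [DecidableEq V] in
private lemma ep_rev (l : List (Fin k)) (x : V) : S.ep l.reverse (S.ep l x) = x := by
  induction l generalizing x with
  | nil => rfl
  | cons c l ih =>
    rw [List.reverse_cons, ep_append, ep_cons, ep_nil, ep_cons, S.invol, ih]

private lemma mem_nd_union {U : Finset (Fin k)} {a : ℕ} {l m : List (Fin k)} :
    l ∈ nd (U ∪ m.toFinset) a ↔ l ∈ nd U a ∧ ∀ c ∈ l, c ∉ m := by
  simp only [mem_nd, mem_union, List.mem_toFinset, not_or]
  constructor
  · rintro ⟨h1, h2, h3⟩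
    exact ⟨⟨h1, h2, fun c hc => (h3 c hc).1⟩, fun c hc => (h3 c hc).2⟩
  · rintro ⟨⟨h1, h2, h3⟩, h4⟩
    exact ⟨h1, h2, fun c hc => ⟨h3 c hc, h4 c hc⟩⟩

private lemma nd_swap (U : Finset (Fin k)) (a b : ℕ) (f : List (Fin k) → List (Fin k) → ℕ) :
    ∑ v ∈ nd U b, ∑ u ∈ nd (U ∪ v.toFinset) a, f v u =
      ∑ u ∈ nd U a, ∑ v ∈ nd (U ∪ u.toFinset) b, f v u := by
  apply Finset.sum_comm'
  intro v u
  rw [mem_nd_union, mem_nd_union]
  constructor
  · rintro ⟨h1, h2, h3⟩
    exact ⟨⟨h1, fun c hc hd => h3 c hd hc⟩, h2⟩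
  · rintro ⟨⟨h1, h3⟩, h2⟩
    exact ⟨h1, h2, fun c hc hd => h3 c hd hc⟩

private lemma nd_reverse {U : Finset (Fin k)} {a : ℕ} {l : List (Fin k)} (h : l ∈ nd U a) :
    l.reverse ∈ nd U a := by
  obtain ⟨h1, h2, h3⟩ := mem_nd.1 h
  exact mem_nd.2 ⟨by simpa using h1, List.nodup_reverse.2 h2, fun c hc => h3 c (by simpa using hc)⟩

private lemma card_union_nd {U : Finset (Fin k)} {a : ℕ} {l : List (Fin k)} (h : l ∈ nd U a) :
    (U ∪ l.toFinset).card = U.card + a := by
  obtain ⟨h1, h2, h3⟩ := mem_nd.1 h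
  rw [card_union_of_disjoint, List.toFinset_card_of_nodup h2, h1]
  rw [Finset.disjoint_left]
  intro c hc hc'
  exact h3 c (by simpa using hc') hc

private lemma choose_ge {q ℓ : ℕ} (h1 : 1 ≤ ℓ) (h2 : ℓ + 1 ≤ q) : q ≤ q.choose ℓ := by
  induction q generalizing ℓ with
  | zero => omega
  | succ q ih =>
    rcases Nat.lt_or_ge ℓ q with h | h
    · obtain ⟨m, rfl⟩ : ∃ m, ℓ = m + 1 := ⟨ℓ - 1, by omega⟩
      rw [Nat.choose_succ_succ']
      have h3 := ih (ℓ := m + 1) (by omega) (by omega)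
      have h4 : 0 < q.choose m := Nat.choose_pos (by omega)
      omega
    · have : ℓ = q := by omega
      subst this
      rw [Nat.choose_succ_self_right]

private lemma fact_le {q ℓ : ℕ} (h1 : 1 ≤ ℓ) (h2 : ℓ + 1 ≤ q) :
    q * ℓ.factorial ≤ q.descFactorial ℓ := by
  rw [Nat.descFactorial_eq_factorial_mul_choose, mul_comm]
  exact Nat.mul_le_mul_left _ (choose_ge h1 h2)

private lemma typ_pairs {q t ℓ : ℕ} (ht : 1 ≤ t) (hℓ : 1 ≤ ℓ) (hq : q = ℓ + t)
    {U : Finset (Fin k)} (hU : U.card + 2 * q = k) (z : V) {γ : List (Fin k)} (hγ : γ ∈ nd U ℓ) :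
    q * ∑ u ∈ nd U ℓ, (if S.ep u z = S.ep γ z then (nd (U ∪ γ.toFinset ∪ u.toFinset) q).card else 0)
      ≤ 2 * ((q + t).descFactorial q * q.descFactorial ℓ) := by
  have hcγ := card_union_nd hγ
  have htot : ∑ u ∈ nd U ℓ, (nd (U ∪ γ.toFinset ∪ u.toFinset) q).card =
      (q + t).descFactorial q * q.descFactorial ℓ := by
    have h1 : ∀ u ∈ nd U ℓ, (nd (U ∪ γ.toFinset ∪ u.toFinset) q).card =
        ∑ v ∈ nd (U ∪ u.toFinset) q, if v ∈ nd (U ∪ γ.toFinset) q then 1 else 0 := by
      intro u hu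
      rw [← Finset.card_filter]
      congr 1
      ext v
      rw [Finset.mem_filter, mem_nd_union, mem_nd_union, mem_nd_union]
      tauto
    rw [Finset.sum_congr rfl h1, ← nd_swap U ℓ q
      (fun v u => if v ∈ nd (U ∪ γ.toFinset) q then 1 else 0)]
    have h2 : ∀ v ∈ nd U q, (∑ u ∈ nd (U ∪ v.toFinset) ℓ,
        if v ∈ nd (U ∪ γ.toFinset) q then 1 else 0) =
        (if v ∈ nd (U ∪ γ.toFinset) q then 1 else 0) * q.descFactorial ℓ := by
      intro v hv
      rw [Finset.sum_const, card_nd, card_union_nd hv, smul_eq_mul, mul_comm]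
      congr 2
      omega
    rw [Finset.sum_congr rfl h2, ← Finset.sum_mul, ← Finset.card_filter]
    congr 1
    have h3 : (nd U q).filter (fun v => v ∈ nd (U ∪ γ.toFinset) q) = nd (U ∪ γ.toFinset) q := by
      ext v
      rw [Finset.mem_filter, mem_nd_union]
      tauto
    rw [h3, card_nd, hcγ]
    congr 1
    omega
  have hnew := typ_new S q ℓ U γ.toFinset z (S.ep γ z)
  rw [htot] at hnew
  have hold : q * ∑ u ∈ (nd U ℓ).filter (fun u => S.ep u z = S.ep γ z ∧ u.toFinset ⊆ γ.toFinset),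
      (nd (U ∪ γ.toFinset ∪ u.toFinset) q).card ≤ (q + t).descFactorial q * q.descFactorial ℓ := by
    have h1 : ∑ u ∈ (nd U ℓ).filter (fun u => S.ep u z = S.ep γ z ∧ u.toFinset ⊆ γ.toFinset),
        (nd (U ∪ γ.toFinset ∪ u.toFinset) q).card ≤ ℓ.factorial * (q + t).descFactorial q := by
      have h2 : ∀ u ∈ (nd U ℓ).filter (fun u => S.ep u z = S.ep γ z ∧ u.toFinset ⊆ γ.toFinset),
          (nd (U ∪ γ.toFinset ∪ u.toFinset) q).card ≤ (q + t).descFactorial q := by
        intro u hu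
        rw [Finset.mem_filter] at hu
        rw [Finset.union_assoc, Finset.union_eq_left.2 hu.2.2, card_nd, hcγ]
        apply le_of_eq
        congr 1
        omega
      refine (Finset.sum_le_card_nsmul _ _ _ h2).trans ?_
      rw [smul_eq_mul]
      apply Nat.mul_le_mul_right
      have h4 : (nd (γ.toFinset)ᶜ ℓ).card = ℓ.factorial := by
        rw [card_nd, card_compl, Fintype.card_fin]
        obtain ⟨g1, g2, g3⟩ := mem_nd.1 hγ
        rw [List.toFinset_card_of_nodup g2, g1, ← Nat.descFactorial_self ℓ]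
        congr 1
        omega
      rw [← h4]
      apply Finset.card_le_card
      intro u hu
      rw [Finset.mem_filter] at hu
      obtain ⟨g1, g2, g3⟩ := mem_nd.1 hu.1
      refine mem_nd.2 ⟨g1, g2, ?_⟩
      intro c hc
      rw [mem_compl, not_not]
      exact hu.2.2 (List.mem_toFinset.2 hc)
    calc q * _ ≤ q * (ℓ.factorial * (q + t).descFactorial q) := Nat.mul_le_mul_left _ h1
      _ = (q + t).descFactorial q * (q * ℓ.factorial) := by ring
      _ ≤ _ := Nat.mul_le_mul_left _ (fact_le hℓ (by omega))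
  rw [← Finset.sum_filter, ← Finset.sum_filter_add_sum_filter_not
    ((nd U ℓ).filter (fun u => S.ep u z = S.ep γ z)) (fun u => u.toFinset ⊆ γ.toFinset),
    Finset.filter_filter, Finset.filter_filter, mul_add, two_mul]
  exact Nat.add_le_add hold hnew

private lemma typ_sq {q t ℓ : ℕ} (ht : 1 ≤ t) (hℓ : 1 ≤ ℓ) (hq : q = ℓ + t)
    {U : Finset (Fin k)} (hU : U.card + 2 * q = k) (y z : V) :
    q * ((nd U (ℓ + q)).filter (fun w => S.ep w y = z)).card ^ 2 ≤
      2 * ((2 * q).descFactorial (ℓ + q)) ^ 2 := by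
  set g : List (Fin k) → ℕ := fun v =>
    ((nd (U ∪ v.toFinset) ℓ).filter (fun u => S.ep u (S.ep v y) = z)).card with hg
  have h0 : ((nd U (ℓ + q)).filter (fun w => S.ep w y = z)).card = ∑ v ∈ nd U q, g v := by
    rw [Finset.card_filter, sum_nd_append]
    apply Finset.sum_congr rfl
    intro v _
    simp only [hg]
    rw [Finset.card_filter]
    apply Finset.sum_congr rfl
    intro u _
    rw [ep_append]
  have h1 : ∀ v ∈ nd U q, g v ^ 2 ≤ ∑ γ ∈ nd (U ∪ v.toFinset) ℓ, ∑ u ∈ nd (U ∪ v.toFinset) ℓ,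
      if S.ep u z = S.ep γ z then 1 else 0 := by
    intro v _
    rw [← Finset.sum_product', ← Finset.card_filter, hg, pow_two]
    simp only
    rw [← Finset.card_product]
    apply Finset.card_le_card_of_injOn (fun p : List (Fin k) × List (Fin k) =>
      (p.1.reverse, p.2.reverse))
    · rintro ⟨u, u'⟩ hp
      simp only [coe_product, coe_filter, Set.mem_prod, Set.mem_ofPred_eq] at hp
      simp only [coe_filter, mem_product, Set.mem_ofPred_eq]
      refine ⟨⟨nd_reverse hp.1.1, nd_reverse hp.2.1⟩, ?_⟩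
      have e1 := ep_rev S u (S.ep v y)
      have e2 := ep_rev S u' (S.ep v y)
      rw [hp.1.2] at e1
      rw [hp.2.2] at e2
      rw [e1, e2]
    · rintro ⟨u, u'⟩ _ ⟨w, w'⟩ _ h
      simp only [Prod.mk.injEq, List.reverse_inj] at h
      rw [h.1, h.2]
  have h2 : ∑ v ∈ nd U q, (∑ γ ∈ nd (U ∪ v.toFinset) ℓ, ∑ u ∈ nd (U ∪ v.toFinset) ℓ,
      if S.ep u z = S.ep γ z then 1 else 0) =
      ∑ γ ∈ nd U ℓ, ∑ u ∈ nd U ℓ,
        (if S.ep u z = S.ep γ z then (nd (U ∪ γ.toFinset ∪ u.toFinset) q).card else 0) := by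
    rw [nd_swap U ℓ q (fun v γ => ∑ u ∈ nd (U ∪ v.toFinset) ℓ,
      if S.ep u z = S.ep γ z then 1 else 0)]
    apply Finset.sum_congr rfl
    intro γ _
    have h4 : ∑ v ∈ nd (U ∪ γ.toFinset) q, (∑ u ∈ nd (U ∪ v.toFinset) ℓ,
        if S.ep u z = S.ep γ z then 1 else 0) = ∑ u ∈ nd U ℓ,
        ∑ v ∈ nd (U ∪ γ.toFinset ∪ u.toFinset) q, if S.ep u z = S.ep γ z then 1 else 0 := by
      apply Finset.sum_comm'
      intro v u
      rw [mem_nd_union, mem_nd_union, mem_nd_union, mem_nd_union]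
      constructor
      · rintro ⟨⟨h1, h2⟩, h3, h4⟩
        exact ⟨⟨⟨h1, h2⟩, fun c hc hd => h4 c hd hc⟩, h3⟩
      · rintro ⟨⟨⟨h1, h2⟩, h3⟩, h4⟩
        exact ⟨⟨h1, h2⟩, h4, fun c hc hd => h3 c hd hc⟩
    rw [h4]
    apply Finset.sum_congr rfl
    intro u _
    rw [Finset.sum_const, smul_eq_mul]
    split_ifs <;> simp
  have h5 : (∑ v ∈ nd U q, g v) ^ 2 ≤ (nd U q).card * ∑ v ∈ nd U q, g v ^ 2 :=
    sq_sum_le_card_mul_sum_sq
  have hcard : (nd U q).card = (2 * q).descFactorial q := by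
    rw [card_nd]
    congr 1
    omega
  have hcard' : (nd U ℓ).card = (2 * q).descFactorial ℓ := by
    rw [card_nd]
    congr 1
    omega
  have e1 : (2 * q).descFactorial (ℓ + q) = (2 * q).descFactorial q * q.descFactorial ℓ := by
    have h6 := Nat.descFactorial_mul_descFactorial (n := 2 * q) (k := q) (m := ℓ + q) (by omega)
    have h7 : 2 * q - q = q := by omega
    have h8 : ℓ + q - q = ℓ := by omega
    rw [h7, h8] at h6
    rw [← h6, mul_comm]
  have e2 : (2 * q).descFactorial (ℓ + q) = (2 * q).descFactorial ℓ * (q + t).descFactorial q := by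
    have h6 := Nat.descFactorial_mul_descFactorial (n := 2 * q) (k := ℓ) (m := ℓ + q) (by omega)
    have h7 : 2 * q - ℓ = q + t := by omega
    have h8 : ℓ + q - ℓ = q := by omega
    rw [h7, h8] at h6
    rw [← h6, mul_comm]
  rw [h0]
  calc q * (∑ v ∈ nd U q, g v) ^ 2 ≤ q * ((nd U q).card * ∑ v ∈ nd U q, g v ^ 2) :=
        Nat.mul_le_mul_left _ h5
    _ ≤ q * ((nd U q).card * ∑ v ∈ nd U q, (∑ γ ∈ nd (U ∪ v.toFinset) ℓ,
        ∑ u ∈ nd (U ∪ v.toFinset) ℓ, if S.ep u z = S.ep γ z then 1 else 0)) := by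
        apply Nat.mul_le_mul_left
        apply Nat.mul_le_mul_left
        exact Finset.sum_le_sum h1
    _ = (nd U q).card * ∑ γ ∈ nd U ℓ, (q * ∑ u ∈ nd U ℓ,
        (if S.ep u z = S.ep γ z then (nd (U ∪ γ.toFinset ∪ u.toFinset) q).card else 0)) := by
        rw [h2, ← Finset.mul_sum]
        ring
    _ ≤ (nd U q).card * ∑ γ ∈ nd U ℓ, 2 * ((q + t).descFactorial q * q.descFactorial ℓ) := by
        apply Nat.mul_le_mul_left
        apply Finset.sum_le_sum
        intro γ hγ
        exact typ_pairs S ht hℓ hq hU z hγ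
    _ = 2 * ((2 * q).descFactorial (ℓ + q)) ^ 2 := by
        rw [Finset.sum_const, smul_eq_mul, hcard, hcard', pow_two]
        nth_rewrite 1 [e1]
        rw [e2]
        ring

/-- Words using all but `t` colours of a pool of `2 q` colours. -/
theorem typ {q t : ℕ} (ht : 1 ≤ t) (htq : t + 1 ≤ q) {U : Finset (Fin k)} (hU : U.card + 2 * q = k)
    (y z : V) :
    (((nd U (2 * q - t)).filter (fun w => S.ep w y = z)).card : ℝ) ≤
      √(2 / (q : ℝ)) * ((2 * q).descFactorial (2 * q - t) : ℝ) := by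
  have h1 := typ_sq S (q := q) (t := t) (ℓ := q - t) ht (by omega) (by omega) hU y z
  have h2 : q - t + q = 2 * q - t := by omega
  rw [h2] at h1
  have hq : (0 : ℝ) < q := by
    have : 0 < q := by omega
    exact_mod_cast this
  have h3 : (q : ℝ) * (((nd U (2 * q - t)).filter (fun w => S.ep w y = z)).card : ℝ) ^ 2 ≤
      2 * ((2 * q).descFactorial (2 * q - t) : ℝ) ^ 2 := by
    exact_mod_cast h1
  have h4 : √(2 / (q : ℝ)) * ((2 * q).descFactorial (2 * q - t) : ℝ) =
      √(2 / (q : ℝ) * ((2 * q).descFactorial (2 * q - t) : ℝ) ^ 2) := by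
    rw [Real.sqrt_mul (by positivity), Real.sqrt_sq (by positivity)]
  rw [h4]
  apply Real.le_sqrt_of_sq_le
  rw [div_mul_eq_mul_div, le_div_iff₀ hq]
  linarith

end RP60
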