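import Pool.Agent.RP60.Rec
import Pool.Agent.RP60.Typ

/-!
Two-sided extension: a rainbow walk of length `k - 1` without repeated vertex.
-/

namespace RP60

open Finset RP97

variable {V : Type*} {k : ℕ} (S : Sys V k)

section


theorem fin_verts_cons_nodup {c : Fin k} {l : List (Fin k)} {x : V}
    (h : (S.verts (c :: l) x).Nodup) : (S.verts l x).Nodup := by
  rw [Sys.verts, List.nodup_cons] at h
  exact h.2

theorem fin_En_cons {m : ℕ} {c : Fin k} {l : List (Fin k)} {x : V} (h : En S m x (c :: l)) :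
    En S m x l := by
  unfold En at h ⊢
  rcases Nat.lt_or_ge l.length m with hm | hm
  · have e1 : (c :: l).length - m = 0 := by rw [List.length_cons]; omega
    have e2 : l.length - m = 0 := by omega
    rw [e1] at h
    rw [e2]
    exact fin_verts_cons_nodup S h
  · have e1 : (c :: l).length - m = (l.length - m) + 1 := by rw [List.length_cons]; omega
    rw [e1, List.drop_succ_cons] at h
    exact h

theorem fin_En_drop {m : ℕ} (j : ℕ) {l : List (Fin k)} {x : V} (h : En S m x l) :
    En S m x (l.drop j) := by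
  induction j generalizing l with
  | zero => simpa using h
  | succ j ih =>
    match l, h with
    | [], h => simpa using h
    | c :: l, h =>
      rw [List.drop_succ_cons]
      exact ih (fin_En_cons S h)

variable [Fintype V]

theorem fin_Pr_En {m T : ℕ} (hT : T ≤ k) : Pr (En S m) T = sa S (min m T) := by
  rcases Nat.lt_or_ge m T with hm | hm
  · obtain ⟨j, rfl⟩ : ∃ j, T = m + j := ⟨T - m, by omega⟩
    rw [Nat.min_eq_left hm.le]
    have h1 := Pr_drop (V := V) (k := k) (fun x l => (S.verts l x).Nodup) hT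
    unfold sa
    rw [← h1]
    apply le_antisymm
    · refine Pr_mono fun x l hl h => ?_
      have e : l.length - m = j := by rw [(mem_nd.1 hl).1]; omega
      unfold En at h
      rwa [e] at h
    · refine Pr_mono fun x l hl h => ?_
      have e : l.length - m = j := by rw [(mem_nd.1 hl).1]; omega
      unfold En
      rwa [e]
  · rw [Nat.min_eq_right hm]
    unfold sa
    apply le_antisymm
    · refine Pr_mono fun x l hl h => ?_
      have e : l.length - m = 0 := by rw [(mem_nd.1 hl).1]; omega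
      unfold En at h
      rwa [e, List.drop_zero] at h
    · refine Pr_mono fun x l hl h => ?_
      have e : l.length - m = 0 := by rw [(mem_nd.1 hl).1]; omega
      unfold En
      rwa [e, List.drop_zero]

end

section

variable [Fintype V] [DecidableEq V]

/-- Simple consequences. -/
theorem fin_par {D n b B q t : ℕ} (P : Par k D n b B q t) :
    3 * n + 6 ≤ t ∧ 2 ≤ t ∧ t + 1 ≤ q ∧ 1 ≤ q ∧ 1 ≤ k ∧ 4 * q ≤ k ∧ 3 * n + 6 + q ≤ k := by
  have h1 := P.ht2
  have h2 := P.hq1
  have h3 := P.hq3
  have h4 : 3 * n + 6 ≤ 2 * (3 * n + 6) ^ 2 := by nlinarith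
  have h5 : 2 ≤ t := by omega
  have h6 : t ≤ t ^ 4 := by
    calc t = t ^ 1 := (pow_one t).symm
      _ ≤ t ^ 4 := Nat.pow_le_pow_right (by omega) (by norm_num)
  refine ⟨by omega, h5, by omega, by omega, by omega, by omega, by omega⟩

/-- Closed walks of length `k - s` with `s` not very small. -/
theorem closed_long {D n b B q t : ℕ} (P : Par k D n b B q t) (hS : Cod S D) [Nonempty V] {s : ℕ}
    (hs : t ≤ s) (hs' : s + 2 ≤ 2 * q) :
    Pr (fun x l => En S (k - 2 * q) x l ∧ S.ep l x = x) (k - s) ≤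
      (72 * D / (k : ℝ) ^ 3 + 1 / (k : ℝ) ^ 2) * sa S (k - 2 * q) := by
  obtain ⟨p1, p2, p3, p4, p5, p6, p7⟩ := fin_par P
  have hk0 : (0 : ℝ) < k := by exact_mod_cast p5
  set m := k - 2 * q with hm
  set τ := k - s - (3 * n + 6) with hτ
  have e1 : k - s = τ + (3 * n + 6) := by omega
  have e2 : τ + (s + (3 * n + 6)) = k := by omega
  have hmt : m + t ≤ k := by omega
  have hsa0 : 0 ≤ sa S m := Pr_nonneg _ _
  have h1 : Pr (fun x l => En S m x l ∧ S.ep l x = x) (k - s) ≤
      Pr (fun x l => En S m x (l.drop (3 * n + 6)) ∧ S.ep l x = x) (τ + (3 * n + 6)) := by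
    rw [e1]
    exact Pr_mono fun x l _ h => ⟨fin_En_drop S _ h.1, h.2⟩
  have hr2 : 2 * (3 * n + 6) ^ 2 ≤ s + (3 * n + 6) := by
    have := P.ht2
    omega
  have h2 := clo_closed S (E := En S m) (h := 3 * n + 6) (r := s + (3 * n + 6)) (τ := τ)
    (K := 18 * D / (k : ℝ) ^ 3) (by positivity) e2 (by omega) hr2 (by omega)
  -- irregular pools
  have h3 : Pr (fun x l => En S m x l ∧
      ¬ Good S (18 * D / (k : ℝ) ^ 3) (3 * n + 6) (s + (3 * n + 6)) x l.toFinset) τ ≤
      sa S m / (k : ℝ) ^ 2 := by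
    have h4 := irr_long S P hS (E := En S m) (fun x c l h => fin_En_cons S h)
      (r := s + (3 * n + 6)) (by omega) (by omega) (α := sa S m) hsa0 ?_
    · have e3 : k - (s + (3 * n + 6)) = τ := by omega
      rwa [e3] at h4
    · intro r' hr' hrk'
      rw [fin_Pr_En S (by omega)]
      have hX : (0 : ℝ) ≤ 200 * D / (k : ℝ) ^ 2 := by positivity
      rcases Nat.lt_or_ge m (k - r') with hc | hc
      · rw [Nat.min_eq_left hc.le]
        have h5 : (1 : ℝ) ≤ Real.exp (200 * D / (k : ℝ) ^ 2 * r' + 1) :=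
          Real.one_le_exp (by positivity)
        nlinarith
      · rw [Nat.min_eq_right hc]
        refine (sa_ratio' S P hS hc hmt).trans (mul_le_mul_of_nonneg_left ?_ hsa0)
        apply Real.exp_le_exp.2
        have h6 : ((m : ℕ) : ℝ) - ((k - r' : ℕ) : ℝ) ≤ r' := by
          have h7 : m ≤ (k - r') + r' := by omega
          have h8 : ((m : ℕ) : ℝ) ≤ ((k - r' : ℕ) : ℝ) + r' := by exact_mod_cast h7
          linarith
        have h9 := mul_le_mul_of_nonneg_left h6 hX
        linarith
  -- survival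
  have h4 : Pr (En S m) τ ≤ 2 * sa S m := by
    rw [fin_Pr_En S (by omega)]
    have hc : min m τ ≤ m := Nat.min_le_left _ _
    refine (sa_ratio' S P hS hc hmt).trans ?_
    have h5 : 200 * D / (k : ℝ) ^ 2 * (((m : ℕ) : ℝ) - ((min m τ : ℕ) : ℝ)) + 1 / 4 ≤ 1 / 2 := by
      have h6 : ((m : ℕ) : ℝ) - ((min m τ : ℕ) : ℝ) ≤ q := by
        have h7 : m ≤ min m τ + q := by
          have : min m τ = m ∨ min m τ = τ := by omega
          omega
        have h8 : ((m : ℕ) : ℝ) ≤ ((min m τ : ℕ) : ℝ) + q := by exact_mod_cast h7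
        linarith
      have h9 : 200 * D / (k : ℝ) ^ 2 * (q : ℝ) ≤ 1 / 16 := by
        have h10 : ((3200 * D * q : ℕ) : ℝ) ≤ ((k ^ 2 : ℕ) : ℝ) := by exact_mod_cast P.hq2
        push_cast at h10
        rw [div_mul_eq_mul_div, div_le_iff₀ (by positivity)]
        linarith
      have h10 : 200 * D / (k : ℝ) ^ 2 * (((m : ℕ) : ℝ) - ((min m τ : ℕ) : ℝ)) ≤
          200 * D / (k : ℝ) ^ 2 * (q : ℝ) := mul_le_mul_of_nonneg_left h6 (by positivity)
      linarith
    have h6 : Real.exp (200 * D / (k : ℝ) ^ 2 * (((m : ℕ) : ℝ) - ((min m τ : ℕ) : ℝ)) + 1 / 4) ≤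
        2 := by
      refine (Real.exp_le_exp.2 h5).trans ?_
      have h7 : Real.exp (1 / 2) ^ 2 = Real.exp 1 := by
        rw [← Real.exp_nat_mul]
        norm_num
      have h8 := Real.exp_one_lt_d9
      nlinarith [Real.exp_pos (1 / 2)]
    nlinarith
  refine h1.trans (h2.trans ?_)
  have h5 : 2 * (18 * D / (k : ℝ) ^ 3) * Pr (En S m) τ ≤
      2 * (18 * D / (k : ℝ) ^ 3) * (2 * sa S m) := mul_le_mul_of_nonneg_left h4 (by positivity)
  calc _ ≤ 2 * (18 * D / (k : ℝ) ^ 3) * (2 * sa S m) + sa S m / (k : ℝ) ^ 2 := add_le_add h5 h3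
    _ = _ := by ring

/-- Closed walks using nearly all colours. -/
theorem closed_short {D n b B q t : ℕ} (P : Par k D n b B q t) [Nonempty V] {s : ℕ}
    (hs : 1 ≤ s) (hs' : s ≤ t) :
    Pr (fun x l => En S (k - 2 * q) x l ∧ S.ep l x = x) (k - s) ≤
      √(2 / (q : ℝ)) * sa S (k - 2 * q) := by
  obtain ⟨p1, p2, p3, p4, p5, p6, p7⟩ := fin_par P
  set m := k - 2 * q with hm
  have e1 : k - s = m + (2 * q - s) := by omega
  have e2 : k - m = 2 * q := by omega
  have h1 := Pr_step (V := V) (k := k) (P := fun x l => (S.verts l x).Nodup)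
    (Q := fun x u l => S.ep u (S.ep l x) = x) (t := m) (j := 2 * q - s) (by omega)
    (β := √(2 / (q : ℝ))) (Real.sqrt_nonneg _) ?_
  · rw [e1]
    refine le_trans (Pr_mono fun x l hl h => ?_) h1
    have e3 : l.length - m = 2 * q - s := by rw [(mem_nd.1 hl).1]; omega
    obtain ⟨h2, h3⟩ := h
    unfold En at h2
    rw [e3] at h2
    refine ⟨h2, ?_⟩
    rw [← ep_append, List.take_append_drop]
    exact h3
  · intro x l hl _ F hF
    have hcard : l.toFinset.card + 2 * q = k := by
      rw [List.toFinset_card_of_nodup (mem_nd.1 hl).2.1, (mem_nd.1 hl).1]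
      omega
    rw [e2]
    refine le_trans ?_ (typ S hs (by omega : s + 1 ≤ q) hcard (S.ep l x) x)
    have : F ⊆ (nd l.toFinset (2 * q - s)).filter (fun w => S.ep w (S.ep l x) = x) := by
      intro u hu
      exact mem_filter.2 (hF u hu)
    exact_mod_cast card_le_card this

end

section


theorem fin_piece (l : List (Fin k)) (a b : ℕ) :
    (l.drop a).take b ++ l.drop (a + b) = l.drop a := by
  have e1 := List.take_append_drop b (l.drop a)
  rwa [List.drop_drop] at e1

/-- The list with its blocks rearranged. -/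
def fin_rot (k q i j : ℕ) (l : List (Fin k)) : List (Fin k) :=
  l.drop (k - 1 - i) ++ (l.take (k - 1 - j) ++ ((l.drop (k - q)).take (q - 1 - i) ++
    ((l.drop (k - 1 - j)).take (j - (k - 1 - q)) ++ (l.drop q).take (k - 2 * q))))

theorem fin_dec {q i j : ℕ} (hq : 2 * q ≤ k) (hi : i + 1 < q) (hj : k ≤ j + q) (hj' : j + 1 ≤ k)
    (l : List (Fin k)) :
    l = l.take (k - 1 - j) ++ ((l.drop (k - 1 - j)).take (j - (k - 1 - q)) ++
      ((l.drop q).take (k - 2 * q) ++ ((l.drop (k - q)).take (q - 1 - i) ++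
        l.drop (k - 1 - i)))) := by
  have e1 := fin_piece l (k - q) (q - 1 - i)
  have e2 := fin_piece l q (k - 2 * q)
  have e3 := fin_piece l (k - 1 - j) (j - (k - 1 - q))
  have n1 : k - q + (q - 1 - i) = k - 1 - i := by omega
  have n2 : q + (k - 2 * q) = k - q := by omega
  have n3 : k - 1 - j + (j - (k - 1 - q)) = q := by omega
  rw [n1] at e1
  rw [n2] at e2
  rw [n3] at e3
  rw [e1, e2, e3, List.take_append_drop]

theorem fin_rot_nd {q i j : ℕ} (hq : 2 * q ≤ k) (hi : i + 1 < q) (hj : k ≤ j + q)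
    (hj' : j + 1 ≤ k) {l : List (Fin k)} (hl : l ∈ nd (∅ : Finset (Fin k)) (k - 1)) :
    fin_rot k q i j l ∈ nd (∅ : Finset (Fin k)) (k - 1) := by
  obtain ⟨h1, h2, -⟩ := mem_nd.1 hl
  have hp : (fin_rot k q i j l).Perm l := by
    rw [List.perm_iff_count]
    intro c
    have e := congrArg (List.count c) (fin_dec hq hi hj hj' l)
    rw [fin_rot]
    simp only [List.count_append] at e ⊢
    omega
  exact mem_nd.2 ⟨by rw [hp.length_eq, h1], hp.nodup_iff.2 h2, by simp⟩

theorem fin_rot_inj {q i j : ℕ} (hq : 2 * q ≤ k) (hi : i + 1 < q) (hj : k ≤ j + q)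
    (hj' : j + 1 ≤ k) {l l' : List (Fin k)} (hl : l.length = k - 1) (hl' : l'.length = k - 1)
    (h : fin_rot k q i j l = fin_rot k q i j l') : l = l' := by
  unfold fin_rot at h
  obtain ⟨h1, h⟩ := List.append_inj h (by simp only [List.length_drop]; omega)
  obtain ⟨h2, h⟩ := List.append_inj h (by simp only [List.length_take]; omega)
  obtain ⟨h3, h⟩ := List.append_inj h (by simp only [List.length_take, List.length_drop]; omega)
  obtain ⟨h4, h5⟩ := List.append_inj h (by simp only [List.length_take, List.length_drop]; omega)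
  rw [fin_dec hq hi hj hj' l, fin_dec hq hi hj hj' l', h1, h2, h3, h4, h5]

/-- Rotation of a closed part of the walk. -/
theorem rotate [Fintype V] [DecidableEq V] {q i j : ℕ} (hq : 2 * q ≤ k) (hi : i + 1 < q)
    (hj : k ≤ j + q) (hj' : j + 1 ≤ k) :
    Pr (fun x l => (S.verts ((l.drop q).take (k - 2 * q)) (S.ep (l.drop (k - q)) x)).Nodup ∧
        S.ep (l.drop (k - 1 - i)) x = S.ep (l.drop (k - 1 - j)) x) (k - 1) ≤
      Pr (fun x l => En S (k - 2 * q) x l ∧ S.ep l x = x) (j - i) := by
  have hlen : k - 1 = (j - i) + (k - 1 - j + i) := by omega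
  have h1 := Pr_drop (V := V) (k := k) (fun x l => En S (k - 2 * q) x l ∧ S.ep l x = x)
    (t := j - i) (j := k - 1 - j + i) (by omega)
  rw [← h1, ← hlen]
  refine Pr_inj (fun p => (S.ep (p.2.drop (k - q)) p.1, fin_rot k q i j p.2)) ?_ ?_
  · rintro x l hl ⟨h2, h3⟩
    have hL := (mem_nd.1 hl).1
    refine ⟨fin_rot_nd hq hi hj hj' hl, ?_⟩
    set f1 := l.drop (k - 1 - i) with hf1
    set f2 := (l.drop (k - q)).take (q - 1 - i) with hf2
    set f3 := (l.drop q).take (k - 2 * q) with hf3
    set f4 := (l.drop (k - 1 - j)).take (j - (k - 1 - q)) with hf4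
    set f5 := l.take (k - 1 - j) with hf5
    have e0 : (fin_rot k q i j l).drop (k - 1 - j + i) = f2 ++ (f4 ++ f3) := by
      have : fin_rot k q i j l = (f1 ++ f5) ++ (f2 ++ (f4 ++ f3)) := by
        rw [fin_rot, List.append_assoc]
      rw [this]
      have hl1 : (f1 ++ f5).length = k - 1 - j + i := by
        rw [List.length_append, hf1, hf5, List.length_drop, List.length_take]
        omega
      rw [← hl1, List.drop_left]
    have n1 : k - q + (q - 1 - i) = k - 1 - i := by omega
    have n2 : q + (k - 2 * q) = k - q := by omega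
    have n3 : k - 1 - j + (j - (k - 1 - q)) = q := by omega
    have e1 : f2 ++ f1 = l.drop (k - q) := by
      have := fin_piece l (k - q) (q - 1 - i)
      rwa [n1] at this
    have e2 : f3 ++ l.drop (k - q) = l.drop q := by
      have := fin_piece l q (k - 2 * q)
      rwa [n2] at this
    have e3 : f4 ++ l.drop q = l.drop (k - 1 - j) := by
      have := fin_piece l (k - 1 - j) (j - (k - 1 - q))
      rwa [n3] at this
    show En S (k - 2 * q) (S.ep (l.drop (k - q)) x) ((fin_rot k q i j l).drop (k - 1 - j + i)) ∧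
      S.ep ((fin_rot k q i j l).drop (k - 1 - j + i)) (S.ep (l.drop (k - q)) x) =
        S.ep (l.drop (k - q)) x
    rw [e0]
    constructor
    · unfold En
      have e4 : (f2 ++ (f4 ++ f3)).drop ((f2 ++ (f4 ++ f3)).length - (k - 2 * q)) = f3 := by
        have hl3 : f3.length = k - 2 * q := by
          rw [hf3, List.length_take, List.length_drop]
          omega
        have : (f2 ++ (f4 ++ f3)).length - (k - 2 * q) = (f2 ++ f4).length := by
          simp only [List.length_append]
          omega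
        rw [this, ← List.append_assoc, List.drop_left]
      rw [e4]
      exact h2
    · rw [ep_append, ep_append]
      have e5 : S.ep f4 (S.ep f3 (S.ep (l.drop (k - q)) x)) = S.ep f1 x := by
        rw [← ep_append S f3, e2, ← ep_append S f4, e3]
        exact h3.symm
      rw [e5, ← ep_append, e1]
  · rintro ⟨x, l⟩ ⟨x', l'⟩ hl hl' he
    simp only [Prod.mk.injEq] at he
    have e1 := fin_rot_inj hq hi hj hj' (mem_nd.1 hl).1 (mem_nd.1 hl').1 he.2
    subst e1
    rw [ep_injective S _ he.1]

end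

section


theorem fin_verts_append (u w : List (Fin k)) (x : V) :
    (S.verts u (S.ep w x)) <+: (S.verts (u ++ w) x) := by
  induction u with
  | nil =>
    cases w with
    | nil => exact List.prefix_refl _
    | cons c w =>
      show [S.nb c (S.ep w x)] <+: S.nb c (S.ep w x) :: S.verts w x
      exact ⟨_, rfl⟩
  | cons c u ih =>
    show S.nb c (S.ep u (S.ep w x)) :: S.verts u (S.ep w x) <+:
      S.nb c (S.ep (u ++ w) x) :: S.verts (u ++ w) x
    rw [ep_append]
    exact List.prefix_cons_inj _ |>.2 ih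

theorem fin_nodup_left {u w : List (Fin k)} {x : V} (h : (S.verts (u ++ w) x).Nodup) :
    (S.verts u (S.ep w x)).Nodup :=
  h.sublist (fin_verts_append S u w x).sublist

theorem fin_nodup_right {u w : List (Fin k)} {x : V} (h : (S.verts (u ++ w) x).Nodup) :
    (S.verts w x).Nodup := by
  induction u with
  | nil => exact h
  | cons c u ih => exact ih (fin_verts_cons_nodup S h)

theorem fin_ne_of_nodup {l : List (Fin k)} {x : V} (h : (S.verts l x).Nodup) {a ℓ : ℕ}
    (hℓ : 1 ≤ ℓ) (ha : a + ℓ ≤ l.length) : S.ep (l.drop a) x ≠ S.ep (l.drop (a + ℓ)) x := by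
  rw [verts_eq] at h
  intro he
  have h1 : a < (l.tails.map (fun m => S.ep m x)).length := by
    rw [List.length_map, List.length_tails]; omega
  have h2 : a + ℓ < (l.tails.map (fun m => S.ep m x)).length := by
    rw [List.length_map, List.length_tails]; omega
  have := (h.getElem_inj_iff (hi := h1) (hj := h2)).1 (by simpa using he)
  omega

/-- The two-sided extension. -/
theorem full_ge [Fintype V] [DecidableEq V] {q : ℕ} (hq : 2 * q + 1 ≤ k) (hq1 : 1 ≤ q) :
    sa S (k - 1 - q) + sa S (k - q) ≤ sa S (k - 1) + sa S (k - 2 * q) +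
      ∑ i ∈ range (q - 1), ∑ j ∈ Ico (k - q) k,
        Pr (fun x l => En S (k - 2 * q) x l ∧ S.ep l x = x) (j - i) := by
  set m := k - 2 * q with hm
  set E1 : V → List (Fin k) → Prop := fun x l => (S.verts (l.drop q) x).Nodup with hE1
  set E2 : V → List (Fin k) → Prop := fun x l =>
    (S.verts (l.take (k - q)) (S.ep (l.drop (k - q)) x)).Nodup with hE2
  set EM : V → List (Fin k) → Prop := fun x l =>
    (S.verts ((l.drop q).take m) (S.ep (l.drop (k - q)) x)).Nodup with hEM
  have n2 : q + m = k - q := by omega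
  -- probabilities
  have p1 : Pr E1 (k - 1) = sa S (k - 1 - q) := by
    have := Pr_drop (V := V) (k := k) (fun x l => (S.verts l x).Nodup) (t := k - 1 - q) (j := q)
      (by omega)
    rw [show k - 1 - q + q = k - 1 by omega] at this
    exact this
  have p2 : Pr E2 (k - 1) = sa S (k - q) := by
    have := Pr_shift (V := V) (k := k) S (fun x l => (S.verts l x).Nodup) (t := q - 1) (j := k - q)
      (by omega)
    rw [show q - 1 + (k - q) = k - 1 by omega] at this
    exact this
  have pM : Pr EM (k - 1) = sa S m := by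
    have h1 := Pr_shift (V := V) (k := k) S (fun x l => (S.verts l x).Nodup) (t := q - 1) (j := m)
      (by omega)
    have h2 := Pr_drop (V := V) (k := k)
      (fun x l => (S.verts (l.take m) (S.ep (l.drop m) x)).Nodup) (t := q - 1 + m) (j := q)
      (by omega)
    rw [h1, show q - 1 + m + q = k - 1 by omega] at h2
    rw [sa, ← h2]
    congr 1
    funext x l
    simp only [hEM, List.drop_drop, n2]
  -- inclusion
  have i1 : ∀ x, ∀ l ∈ nd (∅ : Finset (Fin k)) (k - 1), E1 x l → EM x l := by
    intro x l hl h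
    have e := fin_piece l q m
    rw [n2] at e
    simp only [hE1] at h
    rw [← e] at h
    exact fin_nodup_left S h
  have i2 : ∀ x, ∀ l ∈ nd (∅ : Finset (Fin k)) (k - 1), E2 x l → EM x l := by
    intro x l hl h
    have e : l.take (k - q) = l.take q ++ (l.drop q).take m := by
      rw [← n2, List.take_add]
    simp only [hE2] at h
    rw [e] at h
    exact fin_nodup_right S h
  have h1 := Pr_and_or (V := V) (k := k) E1 E2 (k - 1)
  have h2 : Pr (fun x l => E1 x l ∨ E2 x l) (k - 1) ≤ Pr EM (k - 1) :=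
    Pr_mono fun x l hl h => h.elim (i1 x l hl) (i2 x l hl)
  have h3 : Pr (fun x l => E1 x l ∧ E2 x l) (k - 1) ≤
      Pr (fun x l => (S.verts l x).Nodup ∨ ∃ i ∈ range (q - 1), ∃ j ∈ Ico (k - q) k,
        EM x l ∧ S.ep (l.drop (k - 1 - i)) x = S.ep (l.drop (k - 1 - j)) x) (k - 1) := by
    refine Pr_mono fun x l hl h => ?_
    by_cases hn : (S.verts l x).Nodup
    · exact Or.inl hn
    right
    have hL := (mem_nd.1 hl).1
    obtain ⟨a, ℓ, hℓ, haℓ, he⟩ := not_nodup_verts S hn
    rw [← ep_append, fin_piece] at he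
    rw [hL] at haℓ
    have ha : a < q := by
      by_contra hc
      push Not at hc
      obtain ⟨a', rfl⟩ : ∃ a', a = q + a' := ⟨a - q, by omega⟩
      have := fin_ne_of_nodup S h.1 hℓ (a := a') (by rw [List.length_drop]; omega)
      rw [List.drop_drop, List.drop_drop, ← Nat.add_assoc] at this
      exact this he
    have haℓ' : k - q < a + ℓ := by
      by_contra hc
      push Not at hc
      have := fin_ne_of_nodup S h.2 hℓ (a := a) (by rw [List.length_take]; omega)
      rw [← ep_append, ← ep_append] at this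
      have e1 : ∀ c, c ≤ k - q → (l.take (k - q)).drop c ++ l.drop (k - q) = l.drop c := by
        intro c hc
        have h5 := List.take_append_drop (k - q) l
        have h6 : (l.take (k - q) ++ l.drop (k - q)).drop c =
            (l.take (k - q)).drop c ++ l.drop (k - q) := by
          rw [List.drop_append_of_le_length]
          rw [List.length_take]; omega
        rw [← h6, h5]
      rw [e1 a (by omega), e1 (a + ℓ) hc] at this
      exact this he
    refine ⟨k - 1 - (a + ℓ), by rw [mem_range]; omega, k - 1 - a, by rw [mem_Ico]; omega,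
      i1 x l hl h.1, ?_⟩
    rw [show k - 1 - (k - 1 - (a + ℓ)) = a + ℓ by omega,
      show k - 1 - (k - 1 - a) = a by omega]
    exact he.symm
  have h4 := Pr_or (V := V) (k := k) (fun x l => (S.verts l x).Nodup) (fun x l =>
    ∃ i ∈ range (q - 1), ∃ j ∈ Ico (k - q) k,
        EM x l ∧ S.ep (l.drop (k - 1 - i)) x = S.ep (l.drop (k - 1 - j)) x) (k - 1)
  have h5 : Pr (fun x l => ∃ i ∈ range (q - 1), ∃ j ∈ Ico (k - q) k,
        EM x l ∧ S.ep (l.drop (k - 1 - i)) x = S.ep (l.drop (k - 1 - j)) x) (k - 1) ≤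
      ∑ i ∈ range (q - 1), ∑ j ∈ Ico (k - q) k,
        Pr (fun x l => En S m x l ∧ S.ep l x = x) (j - i) := by
    refine (Pr_exists (range (q - 1)) _ (k - 1)).trans (Finset.sum_le_sum fun i hi => ?_)
    refine (Pr_exists (Ico (k - q) k) _ (k - 1)).trans (Finset.sum_le_sum fun j hj => ?_)
    rw [mem_range] at hi
    rw [mem_Ico] at hj
    exact rotate S (by omega) (by omega) (by omega) (by omega)
  have h6 : sa S (k - 1) = Pr (fun x l => (S.verts l x).Nodup) (k - 1) := rfl
  rw [← p1, ← p2, ← pM, h6]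
  linarith

end

section

variable [Fintype V] [DecidableEq V]

theorem exists_path {D n b B q t : ℕ} (P : Par k D n b B q t) (hS : Cod S D) [Nonempty V] :
    ∃ x, ∃ l ∈ nd (∅ : Finset (Fin k)) (k - 1), (S.verts l x).Nodup := by
  obtain ⟨p1, p2, p3, p4, p5, p6, p7⟩ := fin_par P
  have hk0 : (0 : ℝ) < k := by exact_mod_cast p5
  have hq0 : (0 : ℝ) < q := by exact_mod_cast p4
  set m := k - 2 * q with hm
  have ha := (sa_ratio S P hS (j := m) (by omega)).1
  have h1 := full_ge S (q := q) (by omega) p4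
  have h2 := sa_last S P hS (j := k - 1 - q) (by omega) (by omega)
  have h3 := sa_last S P hS (j := k - q) (by omega) (by omega)
  rw [← hm] at h1 h2 h3
  set c1 : ℝ := 72 * D / (k : ℝ) ^ 3 + 1 / (k : ℝ) ^ 2 with hc1
  set c2 : ℝ := √(2 / (q : ℝ)) with hc2
  have hc1' : 0 ≤ c1 := by positivity
  have hc2' : 0 ≤ c2 := Real.sqrt_nonneg _
  -- the sum
  have h4 : ∑ i ∈ range (q - 1), ∑ j ∈ Ico (k - q) k,
        Pr (fun x l => En S m x l ∧ S.ep l x = x) (j - i) ≤
      (((q : ℝ) ^ 2) * c1 + (t : ℝ) ^ 2 * c2) * sa S m := by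
    rw [← Finset.sum_product']
    have h5 : ∀ p ∈ range (q - 1) ×ˢ Ico (k - q) k,
        Pr (fun x l => En S m x l ∧ S.ep l x = x) (p.2 - p.1) ≤
          c1 * sa S m + (if k - p.2 + p.1 < t then c2 * sa S m else 0) := by
      rintro ⟨i, j⟩ hp
      simp only [mem_product, mem_range, mem_Ico] at hp
      obtain ⟨hi, hj1, hj2⟩ := hp
      simp only
      obtain ⟨s, hs⟩ : ∃ s, s = k - j + i := ⟨_, rfl⟩
      have e1 : j - i = k - s := by omega
      rw [e1, ← hs]
      by_cases hst : s < t
      · rw [if_pos hst]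
        have := closed_short S P (s := s) (by omega) hst.le
        have h6 : 0 ≤ c1 * sa S m := by positivity
        linarith
      · rw [if_neg hst, add_zero]
        exact closed_long S P hS (s := s) (by omega) (by omega)
    refine (Finset.sum_le_sum h5).trans ?_
    rw [Finset.sum_add_distrib, Finset.sum_const, ← Finset.sum_filter, Finset.sum_const]
    have h7 : ((range (q - 1) ×ˢ Ico (k - q) k).card : ℝ) ≤ (q : ℝ) ^ 2 := by
      rw [card_product, card_range, Nat.card_Ico]
      have : (q - 1) * (k - (k - q)) ≤ q ^ 2 := by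
        rw [pow_two]
        exact Nat.mul_le_mul (by omega) (by omega)
      exact_mod_cast this
    have h8 : (((range (q - 1) ×ˢ Ico (k - q) k).filter
        (fun p : ℕ × ℕ => k - p.2 + p.1 < t)).card : ℝ) ≤ (t : ℝ) ^ 2 := by
      have h9 : ((range (q - 1) ×ˢ Ico (k - q) k).filter
        (fun p : ℕ × ℕ => k - p.2 + p.1 < t)).card ≤ (range t ×ˢ range t).card := by
        apply Finset.card_le_card_of_injOn (fun p => (p.1, k - p.2))
        · rintro ⟨i, j⟩ hp
          simp only [coe_filter, mem_product, mem_range, mem_Ico, Set.mem_ofPred_eq] at hp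
          simp only [coe_product, Set.mem_prod, mem_coe, mem_range]
          omega
        · rintro ⟨i, j⟩ hp ⟨i', j'⟩ hp' he
          simp only [coe_filter, mem_product, mem_range, mem_Ico, Set.mem_ofPred_eq] at hp hp'
          simp only [Prod.mk.injEq] at he
          simp only [Prod.mk.injEq]
          omega
      rw [card_product, card_range, ← pow_two] at h9
      exact_mod_cast h9
    rw [nsmul_eq_mul, nsmul_eq_mul]
    have h10 : 0 ≤ c1 * sa S m := by positivity
    have h11 : 0 ≤ c2 * sa S m := by positivity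
    calc _ ≤ (q : ℝ) ^ 2 * (c1 * sa S m) + (t : ℝ) ^ 2 * (c2 * sa S m) :=
          add_le_add (mul_le_mul_of_nonneg_right h7 h10) (mul_le_mul_of_nonneg_right h8 h11)
      _ = _ := by ring
  -- the constants
  have h5 : (q : ℝ) ^ 2 * c1 ≤ 1 / 8 := by
    have e1 : ((3200 * D * q : ℕ) : ℝ) ≤ ((k ^ 2 : ℕ) : ℝ) := by exact_mod_cast P.hq2
    have e2 : ((64 * q : ℕ) : ℝ) ≤ (k : ℝ) := by exact_mod_cast P.hq3
    push_cast at e1 e2
    have e3 : (q : ℝ) / k ≤ 1 / 64 := by rw [div_le_iff₀ hk0]; linarith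
    have e4 : (D : ℝ) * q / (k : ℝ) ^ 2 ≤ 1 / 3200 := by
      rw [div_le_iff₀ (by positivity)]; linarith
    have e5 : 0 ≤ (q : ℝ) / k := by positivity
    have e6 : 0 ≤ (D : ℝ) * q / (k : ℝ) ^ 2 := by positivity
    have e7 : (q : ℝ) ^ 2 * c1 = 72 * ((D : ℝ) * q / (k : ℝ) ^ 2) * ((q : ℝ) / k) +
        ((q : ℝ) / k) * ((q : ℝ) / k) := by
      rw [hc1]
      field_simp
    rw [e7]
    nlinarith
  have h6 : (t : ℝ) ^ 2 * c2 ≤ 1 / 32 := by
    have e1 : ((2048 * t ^ 4 : ℕ) : ℝ) ≤ (q : ℝ) := by exact_mod_cast P.hq1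
    push_cast at e1
    have ht0 : (0 : ℝ) < t := by
      have : 0 < t := by omega
      exact_mod_cast this
    have e2 : c2 ≤ 1 / (32 * (t : ℝ) ^ 2) := by
      rw [hc2]
      apply Real.sqrt_le_iff.2
      refine ⟨by positivity, ?_⟩
      rw [div_pow, one_pow, div_le_div_iff₀ hq0 (by positivity)]
      have e3 : (32 * (t : ℝ) ^ 2) ^ 2 = 1024 * (t : ℝ) ^ 4 := by ring
      rw [e3]
      linarith
    calc (t : ℝ) ^ 2 * c2 ≤ (t : ℝ) ^ 2 * (1 / (32 * (t : ℝ) ^ 2)) :=
          mul_le_mul_of_nonneg_left e2 (by positivity)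
      _ = 1 / 32 := by field_simp
  have h7 : (((q : ℝ) ^ 2) * c1 + (t : ℝ) ^ 2 * c2) * sa S m ≤ 1 / 4 * sa S m :=
    mul_le_mul_of_nonneg_right (by linarith) ha.le
  have h8 : 0 < sa S (k - 1) := by linarith
  exact exists_of_Pr_pos h8

end

end RP60
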