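import Pool.Agent.RP60.Chain

/-!
Probability of an irregular pool, with the parameters put in.
-/

namespace RP60

open Finset RP97

variable {V : Type*} {k : ℕ} (S : Sys V k) [Fintype V] [DecidableEq V]

private lemma irr_geom {b : ℕ} (hb : 2 ≤ b) (i : ℕ) :
    b * ∑ j ∈ range i, b ^ j ≤ 2 * b ^ i := by
  induction i with
  | zero => simp
  | succ i ih =>
    rw [sum_range_succ, mul_add, pow_succ]
    have h1 : 2 * b ^ i ≤ b * b ^ i := Nat.mul_le_mul_right _ hb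
    calc b * ∑ j ∈ range i, b ^ j + b * b ^ i ≤ 2 * b ^ i + b * b ^ i := by omega
      _ ≤ b * b ^ i + b * b ^ i := by omega
      _ = 2 * (b ^ i * b) := by ring

private lemma irr_geom_real {b : ℕ} (hb : 2 ≤ b) (i : ℕ) :
    ∑ j ∈ range i, 1 / (b : ℝ) ^ j ≤ 2 - 2 / (b : ℝ) ^ i := by
  have hb' : (2 : ℝ) ≤ b := by exact_mod_cast hb
  have hb0 : (0 : ℝ) < b := by linarith
  induction i with
  | zero => simp
  | succ i ih =>
    rw [sum_range_succ]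
    have hpos : (0 : ℝ) < (b : ℝ) ^ i := by positivity
    have h1 : 2 / (b : ℝ) ^ (i + 1) ≤ 1 / (b : ℝ) ^ i := by
      rw [pow_succ, div_le_div_iff₀ (by positivity) hpos]
      nlinarith
    have h2 : 2 / (b : ℝ) ^ i = 1 / (b : ℝ) ^ i + 1 / (b : ℝ) ^ i := by ring
    linarith

private lemma irr_exp_one : Real.exp 1 ≤ 3 := by
  have := Real.exp_one_lt_d9
  linarith

private lemma irr_exp_half : Real.exp (1 / 2) ≤ 2 := by
  have h1 : Real.exp (1 / 2) ^ 2 ≤ 2 ^ 2 := by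
    rw [← Real.exp_nat_mul]
    have : ((2 : ℕ) : ℝ) * (1 / 2) = 1 := by norm_num
    rw [this]
    have := irr_exp_one
    linarith
  exact le_of_sq_le_sq h1 (by norm_num)

private lemma irr_rho : (Real.exp (1 / 4) / 2) ^ 2 ≤ 1 / 2 := by
  rw [div_pow, ← Real.exp_nat_mul]
  have : ((2 : ℕ) : ℝ) * (1 / 4) = 1 / 2 := by norm_num
  rw [this]
  have := irr_exp_half
  linarith

private lemma irr_one_add {n : ℕ} (hn : 1 ≤ n) :
    (2 : ℝ) ≤ (1 + 1 / (n : ℝ)) ^ n ∧ (1 + 1 / (n : ℝ)) ^ n ≤ 3 := by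
  have hn0 : (0 : ℝ) < n := by exact_mod_cast hn
  constructor
  · have h1 := one_add_mul_le_pow (a := 1 / (n : ℝ)) (by
      have : (0 : ℝ) < 1 / (n : ℝ) := by positivity
      linarith) n
    have h2 : (n : ℝ) * (1 / (n : ℝ)) = 1 := by field_simp
    linarith
  · have h1 : (1 + 1 / (n : ℝ)) ≤ Real.exp (1 / (n : ℝ)) := by
      have := Real.add_one_le_exp (1 / (n : ℝ))
      linarith
    have h2 : (1 + 1 / (n : ℝ)) ^ n ≤ Real.exp (1 / (n : ℝ)) ^ n :=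
      pow_le_pow_left₀ (by positivity) h1 n
    have h3 : Real.exp (1 / (n : ℝ)) ^ n = Real.exp 1 := by
      rw [← Real.exp_nat_mul]
      congr 1
      field_simp
    rw [h3] at h2
    exact h2.trans irr_exp_one

private lemma irr_beta {n b s h i : ℕ} (hb : 8 * n * (n + 1) * h ≤ b) (hb2 : 2 ≤ b)
    (hs : 2 * (n + 1) * h ≤ s) :
    (n + 1) * (h + ∑ j ∈ range i, 2 * n * s * b ^ j * h) ≤ s * b ^ i := by
  have hG := irr_geom hb2 i
  set G := ∑ j ∈ range i, b ^ j with hGdef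
  have e1 : ∑ j ∈ range i, 2 * n * s * b ^ j * h = 2 * n * s * h * G := by
    rw [hGdef, mul_sum]
    exact sum_congr rfl fun j _ => by ring
  rw [e1]
  have h1 : s ≤ s * b ^ i := Nat.le_mul_of_pos_right _ (pow_pos (by omega) i)
  have h2 : 8 * n * (n + 1) * h * G ≤ 2 * b ^ i := (Nat.mul_le_mul_right G hb).trans hG
  have h3 : s * (8 * n * (n + 1) * h * G) ≤ s * (2 * b ^ i) := Nat.mul_le_mul_left s h2
  nlinarith [h1, h2, h3, hs]

private lemma irr_final {n s k : ℕ} (hk : k < 2 ^ (n + 1)) (hk0 : 0 < k)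
    (hs : 18 * (n + 1) ≤ s) {α : ℝ} (hα : 0 ≤ α) :
    (n : ℝ) * (3 * α * (Real.exp (1 / 4) / 2) ^ s) ≤ α / (k : ℝ) ^ 2 := by
  set ρ := Real.exp (1 / 4) / 2 with hρ
  have hρ0 : 0 < ρ := by positivity
  have hρ2 : ρ ^ 2 ≤ 1 / 2 := irr_rho
  have hρ1 : ρ ≤ 1 := by nlinarith
  have h1 : ρ ^ s ≤ (1 / 2) ^ (9 * (n + 1)) := by
    calc ρ ^ s ≤ ρ ^ (2 * (9 * (n + 1))) := pow_le_pow_of_le_one hρ0.le hρ1 (by omega)
      _ = (ρ ^ 2) ^ (9 * (n + 1)) := by rw [pow_mul]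
      _ ≤ _ := pow_le_pow_left₀ (by positivity) hρ2 _
  have hn2 : (n : ℝ) ≤ 2 ^ n := by exact_mod_cast (Nat.lt_two_pow_self (n := n)).le
  have hk' : (k : ℝ) ≤ 2 ^ (n + 1) := by exact_mod_cast hk.le
  have hk0' : (0 : ℝ) < k := by exact_mod_cast hk0
  have h2 : (k : ℝ) ^ 2 ≤ 2 ^ (2 * (n + 1)) := by
    calc (k : ℝ) ^ 2 ≤ (2 ^ (n + 1)) ^ 2 := pow_le_pow_left₀ hk0'.le hk' 2
      _ = 2 ^ (2 * (n + 1)) := by rw [← pow_mul, mul_comm]
  rw [le_div_iff₀ (by positivity)]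
  have h3 : (n : ℝ) * 3 * (1 / 2) ^ (9 * (n + 1)) * 2 ^ (2 * (n + 1)) ≤ 1 := by
    have e : (2 : ℝ) ^ (9 * (n + 1)) = 2 ^ n * 2 ^ (2 * (n + 1)) * 2 ^ (6 * n + 7) := by
      rw [← pow_add, ← pow_add]
      congr 1
      ring
    rw [one_div, inv_pow, e]
    have h4 : (3 : ℝ) ≤ 2 ^ (6 * n + 7) := by
      calc (3 : ℝ) ≤ 2 ^ 2 := by norm_num
        _ ≤ 2 ^ (6 * n + 7) := pow_le_pow_right₀ (by norm_num) (by omega)
    have hA : (0 : ℝ) < 2 ^ n := by positivity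
    have hB : (0 : ℝ) < 2 ^ (2 * (n + 1)) := by positivity
    have hC : (0 : ℝ) < 2 ^ (6 * n + 7) := by positivity
    rw [mul_inv, mul_inv]
    have e2 : (n : ℝ) * 3 * ((2 ^ n)⁻¹ * (2 ^ (2 * (n + 1)))⁻¹ * (2 ^ (6 * n + 7))⁻¹) *
        2 ^ (2 * (n + 1)) = ((n : ℝ) / 2 ^ n) * (3 / 2 ^ (6 * n + 7)) := by
      field_simp
    rw [e2]
    have h5 : (n : ℝ) / 2 ^ n ≤ 1 := (div_le_one hA).2 hn2
    have h6 : (3 : ℝ) / 2 ^ (6 * n + 7) ≤ 1 := (div_le_one hC).2 h4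
    have h7 : (0 : ℝ) ≤ 3 / 2 ^ (6 * n + 7) := by positivity
    have h8 : (0 : ℝ) ≤ (n : ℝ) / 2 ^ n := by positivity
    nlinarith
  have hn0 : (0 : ℝ) ≤ n := Nat.cast_nonneg n
  calc (n : ℝ) * (3 * α * ρ ^ s) * (k : ℝ) ^ 2
      = α * ((n : ℝ) * 3 * ρ ^ s * (k : ℝ) ^ 2) := by ring
    _ ≤ α * ((n : ℝ) * 3 * (1 / 2) ^ (9 * (n + 1)) * 2 ^ (2 * (n + 1))) := by
        apply mul_le_mul_of_nonneg_left _ hα
        gcongr
    _ ≤ α * 1 := mul_le_mul_of_nonneg_left h3 hα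
    _ = α := mul_one α

omit [Fintype V] in
private lemma irr_hdet {n B b s r h I : ℕ} (hb2 : 2 ≤ b) (hB0 : 0 < B) (hr0 : 0 < r)
    (hsr : 2 * B * s ≤ r) (hIn : I ≤ n) (hIlt : ∀ i < I, r * b ^ i < k) (hrk : r ≤ k)
    {rr : ℕ → ℕ} (hrr : ∀ i < I, rr i = r * b ^ i) (hrI : rr I = k) {Kd : ℝ}
    (hd : ∀ (ω : Fin k → ℝ) (O : Finset (Fin k)), (∀ c, 0 ≤ ω c) → (∀ c ∉ O, ω c ≤ 1 / (k : ℝ)) →
      (∑ c ∈ O, ω c ≤ 2 * (n : ℝ) ^ 2 * h / B) → (∀ c, ω c ≤ 3 / (r : ℝ)) →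
      (∑ c, ω c ≤ 1 + (n : ℝ) ^ 2 * h / B) → ∀ y z, A S ω h y z ≤ Kd)
    {η : Fin k → ℝ} (hη : η ∈ Hf k (fun i => 2 * n * s * b ^ i * h) rr I) (y z : V) :
    A S (fun c => η c + if c ∈ (∅ : Finset (Fin k)) then 0 else 1 / (rr I : ℝ)) h y z ≤ Kd := by
  obtain ⟨h1, h2, h3, O, hOc, hO⟩ := Hf_prop _ _ _ hη
  have hk0 : 0 < k := lt_of_lt_of_le hr0 hrk
  have hkR : (0 : ℝ) < k := by exact_mod_cast hk0
  have hrR : (0 : ℝ) < r := by exact_mod_cast hr0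
  have hbR : (2 : ℝ) ≤ b := by exact_mod_cast hb2
  have hBR : (0 : ℝ) < B := by exact_mod_cast hB0
  have hrkR : (r : ℝ) ≤ k := by exact_mod_cast hrk
  have hsrR : 2 * (B : ℝ) * s ≤ r := by exact_mod_cast hsr
  have hb0 : (0 : ℝ) < b := by linarith
  -- the quotients
  have hquot : ∀ j ∈ range I, ((2 * n * s * b ^ j * h : ℕ) : ℝ) / (rr j : ℝ) ≤
      (n : ℝ) * h / B := by
    intro j hj
    rw [hrr j (mem_range.1 hj)]
    have hbj : (0 : ℝ) < (b : ℝ) ^ j := by positivity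
    push_cast
    rw [div_le_div_iff₀ (by positivity) hBR]
    have : (n : ℝ) * h * (b : ℝ) ^ j * (2 * B * s) ≤ (n : ℝ) * h * (b : ℝ) ^ j * r :=
      mul_le_mul_of_nonneg_left hsrR (by positivity)
    nlinarith
  have hsum1 : ∑ j ∈ range I, ((2 * n * s * b ^ j * h : ℕ) : ℝ) / (rr j : ℝ) ≤
      (n : ℝ) ^ 2 * h / B := by
    calc _ ≤ ∑ _j ∈ range I, (n : ℝ) * h / B := sum_le_sum hquot
      _ = (I : ℝ) * ((n : ℝ) * h / B) := by rw [sum_const, card_range, nsmul_eq_mul]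
      _ ≤ (n : ℝ) * ((n : ℝ) * h / B) := by
          apply mul_le_mul_of_nonneg_right _ (by positivity)
          exact_mod_cast hIn
      _ = (n : ℝ) ^ 2 * h / B := by ring
  have hsum2 : ∑ j ∈ range I, 1 / (rr j : ℝ) ≤ 2 / r := by
    have e : ∑ j ∈ range I, 1 / (rr j : ℝ) = 1 / r * ∑ j ∈ range I, 1 / (b : ℝ) ^ j := by
      rw [mul_sum]
      refine sum_congr rfl fun j hj => ?_
      rw [hrr j (mem_range.1 hj)]
      push_cast
      rw [one_div_mul_one_div]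
    rw [e]
    have hg := irr_geom_real hb2 I
    have hg' : ∑ j ∈ range I, 1 / (b : ℝ) ^ j ≤ 2 := by
      have : (0 : ℝ) ≤ 2 / (b : ℝ) ^ I := by positivity
      linarith
    calc 1 / (r : ℝ) * ∑ j ∈ range I, 1 / (b : ℝ) ^ j ≤ 1 / r * 2 :=
          mul_le_mul_of_nonneg_left hg' (by positivity)
      _ = 2 / r := by ring
  have hcardO : (O.card : ℝ) / k ≤ (n : ℝ) ^ 2 * h / B := by
    have e1 : (O.card : ℝ) ≤ ∑ j ∈ range I, ((2 * n * s * b ^ j * h : ℕ) : ℝ) := by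
      exact_mod_cast hOc
    calc (O.card : ℝ) / k ≤ (∑ j ∈ range I, ((2 * n * s * b ^ j * h : ℕ) : ℝ)) / k := by gcongr
      _ = ∑ j ∈ range I, ((2 * n * s * b ^ j * h : ℕ) : ℝ) / k := by rw [sum_div]
      _ ≤ ∑ j ∈ range I, ((2 * n * s * b ^ j * h : ℕ) : ℝ) / (rr j : ℝ) := by
          refine sum_le_sum fun j hj => ?_
          have hj' := mem_range.1 hj
          have e2 : (rr j : ℝ) ≤ k := by
            rw [hrr j hj']
            exact_mod_cast (hIlt j hj').le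
          have e3 : (0 : ℝ) < (rr j : ℝ) := by
            rw [hrr j hj']
            exact_mod_cast Nat.mul_pos hr0 (pow_pos (by omega) j)
          gcongr
      _ ≤ _ := hsum1
  have hω : ∀ c, (η c + if c ∈ (∅ : Finset (Fin k)) then 0 else 1 / (rr I : ℝ)) =
      η c + 1 / (k : ℝ) := by
    intro c
    rw [hrI]
    simp
  simp only [hω]
  have hk1 : (0 : ℝ) < 1 / (k : ℝ) := by positivity
  refine hd (fun c => η c + 1 / (k : ℝ)) O ?_ ?_ ?_ ?_ ?_ y z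
  · intro c
    have := h1 c
    positivity
  · intro c hc
    simp only [hO c hc, zero_add, le_refl]
  · rw [sum_add_distrib, sum_const, nsmul_eq_mul]
    have e1 : ∑ c ∈ O, η c ≤ ∑ c, η c :=
      sum_le_sum_of_subset_of_nonneg (subset_univ _) fun c _ _ => h1 c
    have e2 : (O.card : ℝ) * (1 / (k : ℝ)) = (O.card : ℝ) / k := by ring
    rw [e2]
    calc ∑ c ∈ O, η c + (O.card : ℝ) / k ≤ (n : ℝ) ^ 2 * h / B + (n : ℝ) ^ 2 * h / B :=
          add_le_add (e1.trans (h2.trans hsum1)) hcardO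
      _ = 2 * (n : ℝ) ^ 2 * h / B := by ring
  · intro c
    have e1 : 1 / (k : ℝ) ≤ 1 / r := one_div_le_one_div_of_le hrR hrkR
    calc η c + 1 / (k : ℝ) ≤ 2 / r + 1 / r := add_le_add ((h3 c).trans hsum2) e1
      _ = 3 / r := by ring
  · rw [sum_add_distrib, sum_const, nsmul_eq_mul, card_univ, Fintype.card_fin]
    have e1 : (k : ℝ) * (1 / (k : ℝ)) = 1 := by field_simp
    rw [e1]
    linarith [h2.trans hsum1]

private theorem irr_core {D n b B q t : ℕ} (P : Par k D n b B q t)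
    {E : V → List (Fin k) → Prop} (hE : ∀ x c l, E x (c :: l) → E x l) {r : ℕ} (hr : t ≤ r)
    (hrk : r ≤ k) {α : ℝ} (hα : 0 ≤ α)
    (hEα : ∀ r', r ≤ r' → r' ≤ k →
      Pr E (k - r') ≤ α * Real.exp (200 * D / (k : ℝ) ^ 2 * r' + 1))
    {h : ℕ} (hh : h ≤ 3 * n + 6) {Kd : ℝ} (hKd : 0 < Kd)
    (hd : ∀ (ω : Fin k → ℝ) (O : Finset (Fin k)), (∀ c, 0 ≤ ω c) → (∀ c ∉ O, ω c ≤ 1 / (k : ℝ)) →
      (∑ c ∈ O, ω c ≤ 2 * (n : ℝ) ^ 2 * h / B) → (∀ c, ω c ≤ 3 / (r : ℝ)) →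
      (∑ c, ω c ≤ 1 + (n : ℝ) ^ 2 * h / B) → ∀ y z, A S ω h y z ≤ Kd) :
    Pr (fun x l => E x l ∧ ¬ Good S (3 * Kd) h r x l.toFinset) (k - r) ≤ α / (k : ℝ) ^ 2 := by
  have hn := P.hn
  have hkn := P.hk
  -- sizes of the parameters
  have hb144 : 8 * n * (n + 1) * (3 * n + 6) ≤ b := P.hb
  have hb4 : 4 ≤ b := by
    have : 8 * 1 * (1 + 1) * (3 * 1 + 6) ≤ 8 * n * (n + 1) * (3 * n + 6) := by gcongr
    omega
  have hb2 : 2 ≤ b := by omega
  have hb1 : 1 ≤ b := by omega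
  have hB0 : 0 < B := by
    have : 2 * 1 ^ 2 * (3 * 1 + 6) ^ 2 ≤ 2 * n ^ 2 * (3 * n + 6) ^ 2 := by gcongr
    have := P.hB1
    omega
  have ht1 := P.ht1
  have ht0 : 0 < t := by
    have : 0 < 2 * B * (2 * (n + 1) * (3 * n + 6) + 1) := by positivity
    omega
  have hr0 : 0 < r := by omega
  have hk0 : 0 < k := by omega
  set s := r / (2 * B) with hs
  have hs1 : 2 * B * s ≤ r := Nat.mul_div_le r (2 * B)
  have hs2 : r < 2 * B * (s + 1) := Nat.lt_mul_div_succ r (by positivity)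
  have hs3 : 2 * (n + 1) * (3 * n + 6) + 1 ≤ s := by
    rw [hs, Nat.le_div_iff_mul_le (by positivity), mul_comm]
    exact ht1.trans hr
  have hs4 : r ≤ 4 * B * s := by
    have h1 : 2 * B * 1 ≤ 2 * B * s := Nat.mul_le_mul_left _ (by omega)
    have h2 : 2 * B * (s + 1) = 2 * B * s + 2 * B * 1 := by ring
    have h3 : 4 * B * s = 2 * B * s + 2 * B * s := by ring
    omega
  have hs18 : 18 * (n + 1) ≤ s := by nlinarith
  have hsh : 2 * (n + 1) * h ≤ s := by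
    have : 2 * (n + 1) * h ≤ 2 * (n + 1) * (3 * n + 6) := Nat.mul_le_mul_left _ hh
    omega
  -- the levels
  have hex : ∃ i, k ≤ r * b ^ i := by
    refine ⟨n, ?_⟩
    have h1 : 2 ^ (n + 1) ≤ b ^ n := by
      calc 2 ^ (n + 1) ≤ 2 ^ (2 * n) := Nat.pow_le_pow_right (by norm_num) (by omega)
        _ = 4 ^ n := by rw [pow_mul]; norm_num
        _ ≤ b ^ n := Nat.pow_le_pow_left hb4 n
    calc k ≤ b ^ n := hkn.le.trans h1
      _ ≤ r * b ^ n := Nat.le_mul_of_pos_left _ hr0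
  set I := Nat.find hex with hI
  have hIk : k ≤ r * b ^ I := Nat.find_spec hex
  have hIlt : ∀ i < I, r * b ^ i < k := fun i hi => not_le.1 (Nat.find_min hex hi)
  have hIn : I ≤ n := by
    refine Nat.find_min' hex ?_
    have h1 : 2 ^ (n + 1) ≤ b ^ n := by
      calc 2 ^ (n + 1) ≤ 2 ^ (2 * n) := Nat.pow_le_pow_right (by norm_num) (by omega)
        _ = 4 ^ n := by rw [pow_mul]; norm_num
        _ ≤ b ^ n := Nat.pow_le_pow_left hb4 n
    calc k ≤ b ^ n := hkn.le.trans h1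
      _ ≤ r * b ^ n := Nat.le_mul_of_pos_left _ hr0
  set rr : ℕ → ℕ := fun i => min k (r * b ^ i) with hrr
  set w : ℕ → ℕ := fun i => 2 * n * s * b ^ i * h with hw
  set p : ℕ → ℕ := fun i => 2 * n * s * b ^ i with hp
  set K : ℕ → ℝ := fun i => Kd * (1 + 1 / (n : ℝ)) ^ (n - i) with hK
  have hrr0 : rr 0 = r := by simp [hrr, hrk]
  have hrrI : rr I = k := by simp [hrr, hIk]
  have hrri : ∀ i < I, rr i = r * b ^ i := fun i hi => by
    simp only [hrr]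
    exact min_eq_right (hIlt i hi).le
  have hnR : (0 : ℝ) < n := by exact_mod_cast hn
  have hx1 : (1 : ℝ) ≤ 1 + 1 / (n : ℝ) := by
    have : (0 : ℝ) ≤ 1 / (n : ℝ) := by positivity
    linarith
  obtain ⟨hx2, hx3⟩ := irr_one_add hn
  have hkR : (0 : ℝ) < k := by exact_mod_cast hk0
  have hmain := chain S (w := w) (r := rr) (p := p) (K := K) (h := h) (I := I) hrrI
    (fun i _ => by
      simp only [hrr]
      exact min_le_min le_rfl (Nat.mul_le_mul_left _ (Nat.pow_le_pow_right hb1 (by omega))))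
    (fun i hi => by
      rw [hrri i hi]
      exact Nat.mul_pos hr0 (pow_pos (by omega) i))
    (fun i _ => min_le_left _ _)
    (fun i _ => le_rfl)
    (fun i => by
      simp only [hK]
      positivity)
    (fun y η hη z => by
      have h1 := irr_hdet S hb2 hB0 hr0 hs1 hIn hIlt hrk hrri hrrI hd hη y z
      refine h1.trans ?_
      simp only [hK]
      exact le_mul_of_one_le_right hKd.le (one_le_pow₀ hx1))
    hE
  rw [hrr0] at hmain
  -- good pools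
  have hgood : Pr (fun x l => E x l ∧ ¬ Good S (3 * Kd) h r x l.toFinset) (k - r) ≤
      Pr (fun x l => E x l ∧ ¬ Reg S w rr K h 0 x l.toFinset) (k - r) := by
    refine Pr_mono fun x l _ hx => ⟨hx.1, fun hreg => hx.2 fun z => ?_⟩
    have h1 := hreg (fun _ => 0) (by simp [Hf]) z
    simp only [zero_add, hrr0] at h1
    refine h1.trans ?_
    simp only [hK, Nat.sub_zero]
    nlinarith
  refine hgood.trans (hmain.trans ?_)
  -- the terms of the sum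
  set ρ := Real.exp (1 / 4) / 2 with hρ
  have hρ0 : 0 < ρ := by positivity
  have hρ1 : ρ ≤ 1 := by
    have := irr_rho
    nlinarith
  have hterm : ∀ i ∈ range I, ((Hf k w rr i).card * k ^ h * (K (i + 1) / K i) ^ (p i)) *
      Pr E (k - rr (i + 1)) ≤ 3 * α * ρ ^ s := by
    intro i hi
    have hi' := mem_range.1 hi
    have hin : i < n := lt_of_lt_of_le hi' hIn
    have hbi : 1 ≤ b ^ i := Nat.one_le_pow _ _ hb1
    -- union bound
    have e1 : ((Hf k w rr i).card : ℝ) * (k : ℝ) ^ h ≤ 2 ^ (s * b ^ i) := by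
      have h1 : (Hf k w rr i).card ≤ (2 ^ (n + 1)) ^ (∑ j ∈ range i, w j) :=
        (card_Hf w rr i).trans (Nat.pow_le_pow_left hkn _)
      have h2 : k ^ h ≤ (2 ^ (n + 1)) ^ h := Nat.pow_le_pow_left hkn.le h
      have h3 : (Hf k w rr i).card * k ^ h ≤ 2 ^ (s * b ^ i) := by
        calc (Hf k w rr i).card * k ^ h
            ≤ (2 ^ (n + 1)) ^ (∑ j ∈ range i, w j) * (2 ^ (n + 1)) ^ h := Nat.mul_le_mul h1 h2
          _ = 2 ^ ((n + 1) * (h + ∑ j ∈ range i, w j)) := by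
              rw [← pow_mul, ← pow_mul, ← pow_add]
              congr 1
              ring
          _ ≤ 2 ^ (s * b ^ i) := by
              refine Nat.pow_le_pow_right (by norm_num) ?_
              refine irr_beta ?_ hb2 hsh
              calc 8 * n * (n + 1) * h ≤ 8 * n * (n + 1) * (3 * n + 6) :=
                    Nat.mul_le_mul_left _ hh
                _ ≤ b := hb144
      exact_mod_cast h3
    -- gain
    have e2 : (K (i + 1) / K i) ^ (p i) ≤ (1 / 2) ^ (2 * (s * b ^ i)) := by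
      have h1 : K (i + 1) / K i = (1 + 1 / (n : ℝ))⁻¹ := by
        simp only [hK]
        have h2 : n - i = (n - (i + 1)) + 1 := by omega
        rw [h2, pow_succ]
        have h3 : (0 : ℝ) < (1 + 1 / (n : ℝ)) ^ (n - (i + 1)) := by positivity
        have h4 : (0 : ℝ) < 1 + 1 / (n : ℝ) := by positivity
        field_simp
      have h2 : p i = n * (2 * (s * b ^ i)) := by
        simp only [hp]
        ring
      rw [h1, h2, pow_mul]
      refine pow_le_pow_left₀ (by positivity) ?_ _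
      calc ((1 + 1 / (n : ℝ))⁻¹) ^ n = ((1 + 1 / (n : ℝ)) ^ n)⁻¹ := inv_pow _ _
        _ ≤ 2⁻¹ := inv_anti₀ (by norm_num) hx2
        _ = 1 / 2 := by norm_num
    have e3 : ((Hf k w rr i).card : ℝ) * (k : ℝ) ^ h * (K (i + 1) / K i) ^ (p i) ≤
        (1 / 2) ^ (s * b ^ i) := by
      have h0 : 0 ≤ (K (i + 1) / K i) ^ (p i) := by
        simp only [hK]
        positivity
      calc _ ≤ 2 ^ (s * b ^ i) * (1 / 2 : ℝ) ^ (2 * (s * b ^ i)) :=
            mul_le_mul e1 e2 h0 (by positivity)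
        _ = (1 / 2) ^ (s * b ^ i) := by
            rw [two_mul, pow_add, ← mul_assoc, ← mul_pow]
            norm_num
    -- hereditary property
    have e4 : Pr E (k - rr (i + 1)) ≤ 3 * α * Real.exp (1 / 4) ^ (s * b ^ i) := by
      have h1 : r ≤ rr (i + 1) := by
        simp only [hrr]
        refine le_min hrk ?_
        exact Nat.le_mul_of_pos_right _ (pow_pos (by omega) _)
      have h2 := hEα (rr (i + 1)) h1 (min_le_left _ _)
      refine h2.trans ?_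
      have h3 : 200 * (D : ℝ) / (k : ℝ) ^ 2 * (rr (i + 1) : ℝ) ≤
          ((s * b ^ i : ℕ) : ℝ) * (1 / 4) := by
        have h4 : (rr (i + 1) : ℝ) ≤ 4 * B * s * b ^ (i + 1) := by
          have : rr (i + 1) ≤ 4 * B * s * b ^ (i + 1) :=
            (min_le_right _ _).trans (Nat.mul_le_mul_right _ hs4)
          exact_mod_cast this
        have h5 : 3200 * (D : ℝ) * (b * B) ≤ (k : ℝ) ^ 2 := by exact_mod_cast P.hX
        calc 200 * (D : ℝ) / (k : ℝ) ^ 2 * (rr (i + 1) : ℝ)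
            ≤ 200 * (D : ℝ) / (k : ℝ) ^ 2 * (4 * B * s * b ^ (i + 1)) := by gcongr
          _ = (3200 * (D : ℝ) * (b * B)) / (k : ℝ) ^ 2 * ((s * b ^ i) * (1 / 4)) := by
              rw [pow_succ]
              ring
          _ ≤ 1 * ((s * b ^ i) * (1 / 4)) := by
              apply mul_le_mul_of_nonneg_right _ (by positivity)
              exact (div_le_one (by positivity)).2 h5
          _ = ((s * b ^ i : ℕ) : ℝ) * (1 / 4) := by
              push_cast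
              ring
      have h6 : Real.exp (200 * (D : ℝ) / (k : ℝ) ^ 2 * (rr (i + 1) : ℝ) + 1) ≤
          3 * Real.exp (1 / 4) ^ (s * b ^ i) := by
        rw [Real.exp_add, ← Real.exp_nat_mul]
        have h7 := irr_exp_one
        have h8 := Real.exp_le_exp.2 h3
        have h9 := Real.exp_pos (200 * (D : ℝ) / (k : ℝ) ^ 2 * (rr (i + 1) : ℝ))
        calc Real.exp (200 * (D : ℝ) / (k : ℝ) ^ 2 * (rr (i + 1) : ℝ)) * Real.exp 1
            ≤ Real.exp (((s * b ^ i : ℕ) : ℝ) * (1 / 4)) * 3 :=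
              mul_le_mul h8 h7 (Real.exp_pos 1).le (Real.exp_pos _).le
          _ = _ := by ring
      calc α * Real.exp (200 * (D : ℝ) / (k : ℝ) ^ 2 * (rr (i + 1) : ℝ) + 1)
          ≤ α * (3 * Real.exp (1 / 4) ^ (s * b ^ i)) := mul_le_mul_of_nonneg_left h6 hα
        _ = _ := by ring
    calc ((Hf k w rr i).card * k ^ h * (K (i + 1) / K i) ^ (p i)) * Pr E (k - rr (i + 1))
        ≤ (1 / 2) ^ (s * b ^ i) * (3 * α * Real.exp (1 / 4) ^ (s * b ^ i)) :=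
          mul_le_mul e3 e4 (Pr_nonneg _ _) (by positivity)
      _ = 3 * α * ρ ^ (s * b ^ i) := by
          rw [hρ, div_eq_mul_one_div, mul_pow]
          ring
      _ ≤ 3 * α * ρ ^ s := by
          apply mul_le_mul_of_nonneg_left _ (by positivity)
          exact pow_le_pow_of_le_one hρ0.le hρ1 (Nat.le_mul_of_pos_right _ hbi)
  calc _ ≤ ∑ _i ∈ range I, 3 * α * ρ ^ s := sum_le_sum hterm
    _ = (I : ℝ) * (3 * α * ρ ^ s) := by rw [sum_const, card_range, nsmul_eq_mul]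
    _ ≤ (n : ℝ) * (3 * α * ρ ^ s) := by
        apply mul_le_mul_of_nonneg_right _ (by positivity)
        exact_mod_cast hIn
    _ ≤ α / (k : ℝ) ^ 2 := irr_final hkn hk0 hs18 hα

theorem irr_long {D n b B q t : ℕ} (P : Par k D n b B q t) (hS : Cod S D)
    {E : V → List (Fin k) → Prop} (hE : ∀ x c l, E x (c :: l) → E x l) {r : ℕ} (hr : t ≤ r)
    (hrk : r ≤ k) {α : ℝ} (hα : 0 ≤ α)
    (hEα : ∀ r', r ≤ r' → r' ≤ k →
      Pr E (k - r') ≤ α * Real.exp (200 * D / (k : ℝ) ^ 2 * r' + 1)) :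
    Pr (fun x l => E x l ∧ ¬ Good S (18 * D / (k : ℝ) ^ 3) (3 * n + 6) r x l.toFinset) (k - r) ≤
      α / (k : ℝ) ^ 2 := by
  have hn := P.hn
  have hnR : (1 : ℝ) ≤ n := by exact_mod_cast hn
  have hB0 : 0 < B := by
    have : 2 * 1 ^ 2 * (3 * 1 + 6) ^ 2 ≤ 2 * n ^ 2 * (3 * n + 6) ^ 2 := by gcongr
    have := P.hB1
    omega
  have hBR : (0 : ℝ) < B := by exact_mod_cast hB0
  have hr3 : 3 ≤ r := by
    have : 2 * (3 * 1 + 6) ^ 2 ≤ 2 * (3 * n + 6) ^ 2 := by gcongr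
    have := P.ht2
    omega
  have hrR : (3 : ℝ) ≤ r := by exact_mod_cast hr3
  have hk0 : 0 < k := by omega
  have hkR : (0 : ℝ) < k := by exact_mod_cast hk0
  have hDk : (k : ℝ) ≤ D := by exact_mod_cast P.hDk
  have hDR : (0 : ℝ) < D := by linarith
  have hB1 : 2 * (n : ℝ) ^ 2 * (3 * n + 6) ^ 2 ≤ B := by exact_mod_cast P.hB1
  have hB2 : 4 * 2592 * (3 * (n : ℝ) + 6) * n ^ 2 * (n + 2) ≤ B := by exact_mod_cast P.hB2
  have hkn : (k : ℝ) ≤ 2 ^ (n + 1) := by exact_mod_cast P.hk.le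
  have e18 : 18 * (D : ℝ) / (k : ℝ) ^ 3 = 3 * (6 * D / (k : ℝ) ^ 3) := by ring
  rw [e18]
  refine irr_core S P hE hr hrk hα hEα le_rfl (by positivity) ?_
  intro ω O h0 hO hσ hμ hT y z
  push_cast at hσ hT
  -- the bounds
  have hb1 : (n : ℝ) ^ 2 * (3 * n + 6) / B ≤ 1 / (2 * (3 * n + 6)) := by
    rw [div_le_div_iff₀ hBR (by positivity)]
    nlinarith
  have hσs : 2 * (n : ℝ) ^ 2 * (3 * n + 6) / B ≤ 1 / 12 := by
    rw [div_le_div_iff₀ hBR (by norm_num)]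
    have h1 : (0 : ℝ) ≤ (n : ℝ) ^ 2 * (3 * n + 6) := by positivity
    nlinarith [mul_nonneg h1 (by linarith : (0 : ℝ) ≤ n)]
  have hσ0 : 0 ≤ 2 * (n : ℝ) ^ 2 * (3 * n + 6) / B := by positivity
  have hT2 : 1 + (n : ℝ) ^ 2 * (3 * n + 6) / B ≤ 2 := by
    have : (n : ℝ) ^ 2 * (3 * n + 6) / B ≤ 1 := by
      rw [div_le_one hBR]
      have h1 : (0 : ℝ) ≤ (n : ℝ) ^ 2 * (3 * n + 6) := by positivity
      nlinarith [mul_nonneg h1 (by linarith : (0 : ℝ) ≤ n)]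
    linarith
  have hμ1 : 3 / (r : ℝ) ≤ 1 := by
    rw [div_le_one (by linarith)]
    exact hrR
  have hμ0 : 0 ≤ 3 / (r : ℝ) := by positivity
  have hT1 : (1 : ℝ) ≤ 1 + (n : ℝ) ^ 2 * (3 * n + 6) / B := by
    have : (0 : ℝ) ≤ (n : ℝ) ^ 2 * (3 * n + 6) / B := by positivity
    linarith
  have hmain := det_long S hS (ω := ω) (O := O) (ρ := 1 / (k : ℝ))
    (σ := 2 * (n : ℝ) ^ 2 * (3 * n + 6) / B) (μ := 3 / (r : ℝ))
    (T := 1 + (n : ℝ) ^ 2 * (3 * n + 6) / B) h0 hO hσ hμ hT (by positivity) hσ0 hμ0 hT1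
    (by linarith)
    (by
      calc 3 * (2 * (n : ℝ) ^ 2 * (3 * n + 6) / B) * (1 + (n : ℝ) ^ 2 * (3 * n + 6) / B) *
            (3 / (r : ℝ)) ≤ 3 * (1 / 12) * 2 * 1 := by gcongr
        _ ≤ 1 := by norm_num) (n + 1) y z
  have e1 : 3 * (n + 1) + 3 = 3 * n + 6 := by ring
  rw [e1] at hmain
  refine hmain.trans ?_
  -- the power of T
  have hTp : (1 + (n : ℝ) ^ 2 * (3 * n + 6) / B) ^ (3 * n + 6) ≤ 2 := by
    have h1 : 1 + (n : ℝ) ^ 2 * (3 * n + 6) / B ≤ Real.exp (1 / (2 * (3 * n + 6))) := by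
      have h2 := Real.add_one_le_exp (1 / (2 * (3 * (n : ℝ) + 6)))
      linarith
    calc (1 + (n : ℝ) ^ 2 * (3 * n + 6) / B) ^ (3 * n + 6)
        ≤ Real.exp (1 / (2 * (3 * (n : ℝ) + 6))) ^ (3 * n + 6) :=
          pow_le_pow_left₀ (by linarith) h1 _
      _ = Real.exp (1 / 2) := by
          rw [← Real.exp_nat_mul]
          congr 1
          push_cast
          have : (3 * (n : ℝ) + 6) ≠ 0 := by positivity
          field_simp
      _ ≤ 2 := irr_exp_half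
  have hσp : (3 * (2 * (n : ℝ) ^ 2 * (3 * n + 6) / B)) ^ (n + 1) ≤ D / (k : ℝ) ^ 3 := by
    have h1 : 3 * (2 * (n : ℝ) ^ 2 * (3 * n + 6) / B) ≤ 1 / 4 := by linarith
    have h2 : (3 * (2 * (n : ℝ) ^ 2 * (3 * n + 6) / B)) ^ (n + 1) ≤ (1 / 4) ^ (n + 1) :=
      pow_le_pow_left₀ (by positivity) h1 _
    have h3 : ((1 : ℝ) / 4) ^ (n + 1) ≤ 1 / (k : ℝ) ^ 2 := by
      have h4 : (k : ℝ) ^ 2 ≤ 4 ^ (n + 1) := by
        calc (k : ℝ) ^ 2 ≤ (2 ^ (n + 1)) ^ 2 := pow_le_pow_left₀ hkR.le hkn 2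
          _ = 4 ^ (n + 1) := by rw [← pow_mul, mul_comm, pow_mul]; norm_num
      rw [div_pow, one_pow]
      exact one_div_le_one_div_of_le (by positivity) h4
    have h5 : 1 / (k : ℝ) ^ 2 ≤ D / (k : ℝ) ^ 3 := by
      rw [div_le_div_iff₀ (by positivity) (by positivity)]
      have : (k : ℝ) ^ 2 * k ≤ (k : ℝ) ^ 2 * D := by gcongr
      nlinarith
    exact h2.trans (h3.trans h5)
  have hD3 : (0 : ℝ) ≤ D / (k : ℝ) ^ 3 := by positivity
  calc (1 + (n : ℝ) ^ 2 * (3 * n + 6) / B) ^ (3 * n + 6) * (2 * D * (1 / (k : ℝ)) ^ 3 +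
        (3 * (2 * (n : ℝ) ^ 2 * (3 * n + 6) / B)) ^ (n + 1))
      ≤ 2 * (2 * D * (1 / (k : ℝ)) ^ 3 + D / (k : ℝ) ^ 3) := by gcongr
    _ = 6 * D / (k : ℝ) ^ 3 := by
        rw [div_pow, one_pow]
        ring

theorem irr_three {D n b B q t : ℕ} (P : Par k D n b B q t) (hS : Cod S D)
    {E : V → List (Fin k) → Prop} (hE : ∀ x c l, E x (c :: l) → E x l) {r : ℕ} (hr : t ≤ r)
    (hrk : r ≤ k) {α : ℝ} (hα : 0 ≤ α)
    (hEα : ∀ r', r ≤ r' → r' ≤ k →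
      Pr E (k - r') ≤ α * Real.exp (200 * D / (k : ℝ) ^ 2 * r' + 1)) :
    Pr (fun x l => E x l ∧
      ¬ Good S (3 * (D / (k : ℝ) ^ 3 + 108 * (n : ℝ) ^ 2 / (B * r))) 3 r x l.toFinset) (k - r) ≤
      α / (k : ℝ) ^ 2 := by
  have hn := P.hn
  have hnR : (1 : ℝ) ≤ n := by exact_mod_cast hn
  have hB0 : 0 < B := by
    have : 2 * 1 ^ 2 * (3 * 1 + 6) ^ 2 ≤ 2 * n ^ 2 * (3 * n + 6) ^ 2 := by gcongr
    have := P.hB1
    omega
  have hBR : (0 : ℝ) < B := by exact_mod_cast hB0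
  have hr3 : 3 ≤ r := by
    have : 2 * (3 * 1 + 6) ^ 2 ≤ 2 * (3 * n + 6) ^ 2 := by gcongr
    have := P.ht2
    omega
  have hrR : (3 : ℝ) ≤ r := by exact_mod_cast hr3
  have hr0 : (0 : ℝ) < r := by linarith
  have hk0 : 0 < k := by omega
  have hkR : (0 : ℝ) < k := by exact_mod_cast hk0
  have hDk : (k : ℝ) ≤ D := by exact_mod_cast P.hDk
  have hDR : (0 : ℝ) < D := by linarith
  have hB1 : 2 * (n : ℝ) ^ 2 * (3 * n + 6) ^ 2 ≤ B := by exact_mod_cast P.hB1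
  refine irr_core S P hE hr hrk hα hEα (by omega) (by positivity) ?_
  intro ω O h0 hO hσ hμ hT y z
  push_cast at hσ hT
  have hT2 : 1 + (n : ℝ) ^ 2 * 3 / B ≤ 2 := by
    have : (n : ℝ) ^ 2 * 3 / B ≤ 1 := by
      rw [div_le_one hBR]
      nlinarith [sq_nonneg (n : ℝ)]
    linarith
  have hT0 : (0 : ℝ) ≤ 1 + (n : ℝ) ^ 2 * 3 / B := by positivity
  have hmain := det_three S hS (ω := ω) (O := O) (ρ := 1 / (k : ℝ))
    (σ := 2 * (n : ℝ) ^ 2 * 3 / B) (μ := 3 / (r : ℝ)) (T := 1 + (n : ℝ) ^ 2 * 3 / B)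
    h0 hO hσ hμ hT (by positivity) (by positivity) (by positivity) hT0 y z
  refine hmain.trans ?_
  have hμ0 : 0 ≤ 3 / (r : ℝ) := by positivity
  have hσ0 : 0 ≤ 3 * (2 * (n : ℝ) ^ 2 * 3 / B) := by positivity
  calc D * (1 / (k : ℝ)) ^ 3 + 3 * (2 * (n : ℝ) ^ 2 * 3 / B) * (1 + (n : ℝ) ^ 2 * 3 / B) *
        (3 / (r : ℝ))
      ≤ D * (1 / (k : ℝ)) ^ 3 + 3 * (2 * (n : ℝ) ^ 2 * 3 / B) * 2 * (3 / (r : ℝ)) := by gcongr
    _ = D / (k : ℝ) ^ 3 + 108 * (n : ℝ) ^ 2 / (B * r) := by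
        field_simp
        ring

end RP60
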