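import Pool.Agent.RP60.Det

/-!
Moments of the weighted number of words in a random subpool.
-/

namespace RP60

open Finset RP97

variable {V : Type*} {k : ℕ} (S : Sys V k) [DecidableEq V]

theorem mom_pred (N q : ℕ) :
    (N - 1).descFactorial q * N = N.descFactorial q * (N - q) := by
  rcases N with _ | M
  · simp
  · have h1 := Nat.succ_descFactorial_succ M q
    have h2 := Nat.descFactorial_succ (M + 1) q
    rw [h1] at h2
    rw [Nat.add_sub_cancel]
    calc M.descFactorial q * (M + 1) = (M + 1) * M.descFactorial q := by ring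
      _ = (M + 1 - q) * (M + 1).descFactorial q := h2
      _ = _ := by ring

theorem mom_count {U : Finset (Fin k)} {t r r' : ℕ} (hr' : U.card + r' = k) (hr : r + t = r')
    (hr0 : 0 < r) (W : Finset (Fin k)) (hW : Disjoint W U) :
    ((nd (U ∪ W) t).card : ℝ) ≤ ((r : ℝ) / r') ^ W.card * (r'.descFactorial t : ℝ) := by
  induction W using Finset.induction_on with
  | empty =>
    have : k - U.card = r' := by omega
    rw [union_empty, card_nd, card_empty, pow_zero, one_mul, this]
  | insert c W hc ih =>
    have hW' : Disjoint W U := hW.mono_left (subset_insert _ _)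
    have hcU : c ∉ U := fun h => (disjoint_left.1 hW) (mem_insert_self _ _) h
    have ih' := ih hW'
    rw [card_nd] at ih' ⊢
    have e1 : (U ∪ insert c W).card = (U ∪ W).card + 1 := by
      rw [union_insert, card_insert_of_notMem]
      simp [hcU, hc]
    have e2 : (U ∪ W).card = U.card + W.card := card_union_of_disjoint hW'.symm
    rw [e1, card_insert_of_notMem hc, pow_succ]
    set N := k - (U ∪ W).card with hN
    have e3 : k - ((U ∪ W).card + 1) = N - 1 := by omega
    rw [e3]
    have hNr : N ≤ r' := by omega
    have hr'0 : (0 : ℝ) < r' := by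
      have : 0 < r' := by omega
      exact_mod_cast this
    have key : ((N - 1).descFactorial t : ℝ) ≤ (r : ℝ) / r' * (N.descFactorial t : ℝ) := by
      rcases Nat.eq_zero_or_pos N with h0 | hpos
      · rw [h0]
        rcases Nat.eq_zero_or_pos t with ht | ht
        · subst ht
          have : r = r' := by omega
          rw [this, div_self hr'0.ne']
          simp
        · obtain ⟨t', rfl⟩ : ∃ t', t = t' + 1 := ⟨t - 1, by omega⟩
          simp
      · have h1 := mom_pred N t
        have h2 : ((N - 1).descFactorial t : ℝ) * N = (N.descFactorial t : ℝ) * ((N - t : ℕ) : ℝ) := by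
          exact_mod_cast h1
        have hN0 : (0 : ℝ) < N := by exact_mod_cast hpos
        have h3 : ((N - t : ℕ) : ℝ) ≤ (r : ℝ) / r' * N := by
          rw [div_mul_eq_mul_div, le_div_iff₀ hr'0]
          have : (N - t) * r' ≤ r * N := by
            rcases Nat.lt_or_ge N t with hc | hc
            · rw [Nat.sub_eq_zero_of_le hc.le]
              simp
            · obtain ⟨a, ha⟩ : ∃ a, N = a + t := ⟨N - t, by omega⟩
              rw [ha, Nat.add_sub_cancel, ← hr]
              have : a ≤ r := by omega
              nlinarith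
          exact_mod_cast this
        have h4 : ((N - 1).descFactorial t : ℝ) * N ≤
            ((r : ℝ) / r' * (N.descFactorial t : ℝ)) * N := by
          rw [h2]
          calc (N.descFactorial t : ℝ) * ((N - t : ℕ) : ℝ) ≤
              (N.descFactorial t : ℝ) * ((r : ℝ) / r' * N) :=
                mul_le_mul_of_nonneg_left h3 (by positivity)
            _ = _ := by ring
        exact le_of_mul_le_mul_right h4 hN0
    calc ((N - 1).descFactorial t : ℝ) ≤ (r : ℝ) / r' * (N.descFactorial t : ℝ) := key
      _ ≤ (r : ℝ) / r' * (((r : ℝ) / r') ^ W.card * (r'.descFactorial t : ℝ)) :=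
          mul_le_mul_of_nonneg_left ih' (by positivity)
      _ = _ := by ring

/-- The limiting weight. -/
noncomputable def momW (η : Fin k → ℝ) (U W : Finset (Fin k)) (r r' : ℕ) (c : Fin k) : ℝ :=
  η c + if c ∈ U then 0 else if c ∈ W then 1 / (r : ℝ) else 1 / (r' : ℝ)

/-- The random weight. -/
noncomputable def momR (η : Fin k → ℝ) (U : Finset (Fin k)) (r : ℕ) (v : List (Fin k))
    (c : Fin k) : ℝ := η c + if c ∈ U ∪ v.toFinset then 0 else 1 / (r : ℝ)

theorem momW_nonneg {η : Fin k → ℝ} (hη : ∀ c, 0 ≤ η c) (U W : Finset (Fin k)) (r r' : ℕ)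
    (c : Fin k) : 0 ≤ momW η U W r r' c := by
  unfold momW
  have := hη c
  split_ifs
  · linarith
  · positivity
  · positivity

theorem momR_nonneg {η : Fin k → ℝ} (hη : ∀ c, 0 ≤ η c) (U : Finset (Fin k)) (r : ℕ)
    (v : List (Fin k)) (c : Fin k) : 0 ≤ momR η U r v c := by
  unfold momR
  have := hη c
  split_ifs
  · linarith
  · positivity

theorem mom_prod_nonneg {f : Fin k → ℝ} (hf : ∀ c, 0 ≤ f c) (u : List (Fin k)) :
    0 ≤ (u.map f).prod := by
  apply List.prod_nonneg
  intro a ha
  rw [List.mem_map] at ha
  obtain ⟨c, -, rfl⟩ := ha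
  exact hf c

/-- Adding the letters of a word one at a time. -/
theorem mom_word {U : Finset (Fin k)} {t h wm r r' : ℕ} {η : Fin k → ℝ} {M : ℝ}
    (hη : ∀ c, 0 ≤ η c) (hM : 0 ≤ M) (y z : V)
    (hr : r + t = r') (hr0 : 0 < r) (q : ℕ)
    (H : ∀ W : Finset (Fin k), Disjoint W U → W.card + q * h ≤ wm →
      ∑ v ∈ nd (U ∪ W) t, (A S (momR η U r v) h y z) ^ q ≤
        ((r : ℝ) / r') ^ W.card * (r'.descFactorial t : ℝ) * M ^ q) (u : List (Fin k)) :
    ∀ W : Finset (Fin k), Disjoint W U → u.Nodup → W.card + u.length + q * h ≤ wm →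
      ∑ v ∈ nd (U ∪ W) t, (u.map (momR η U r v)).prod * (A S (momR η U r v) h y z) ^ q ≤
        (u.map (momW η U W r r')).prod *
          (((r : ℝ) / r') ^ W.card * (r'.descFactorial t : ℝ) * M ^ q) := by
  induction u with
  | nil =>
    intro W hW _ hw
    simp only [List.map_nil, List.prod_nil, one_mul]
    exact H W hW (by simpa using hw)
  | cons c u ih =>
    intro W hW hnd hw
    rw [List.nodup_cons] at hnd
    obtain ⟨hcu, hnd⟩ := hnd
    rw [List.length_cons] at hw
    set C : ℝ := ((r : ℝ) / r') ^ W.card * (r'.descFactorial t : ℝ) * M ^ q with hC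
    have hC0 : 0 ≤ C := by positivity
    have hP0 := mom_prod_nonneg (momW_nonneg hη U W r r') u
    have e1 : ∀ v, ((c :: u).map (momR η U r v)).prod * (A S (momR η U r v) h y z) ^ q =
        η c * ((u.map (momR η U r v)).prod * (A S (momR η U r v) h y z) ^ q) +
        (if c ∈ U ∪ v.toFinset then 0 else 1 / (r : ℝ)) *
          ((u.map (momR η U r v)).prod * (A S (momR η U r v) h y z) ^ q) := by
      intro v
      rw [List.map_cons, List.prod_cons]
      have : momR η U r v c = η c + if c ∈ U ∪ v.toFinset then 0 else 1 / (r : ℝ) := rfl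
      rw [this]
      ring
    simp only [e1]
    rw [Finset.sum_add_distrib, ← Finset.mul_sum, List.map_cons, List.prod_cons]
    have i1 := ih W hW hnd (by omega)
    have i2 : η c * ∑ v ∈ nd (U ∪ W) t, ((u.map (momR η U r v)).prod *
        (A S (momR η U r v) h y z) ^ q) ≤ η c * ((u.map (momW η U W r r')).prod * C) :=
      mul_le_mul_of_nonneg_left i1 (hη c)
    by_cases hcU : c ∈ U
    · have e2 : ∀ v ∈ nd (U ∪ W) t, (if c ∈ U ∪ v.toFinset then 0 else 1 / (r : ℝ)) *
          ((u.map (momR η U r v)).prod * (A S (momR η U r v) h y z) ^ q) = 0 := by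
        intro v _
        rw [if_pos (mem_union_left _ hcU), zero_mul]
      rw [Finset.sum_eq_zero e2, add_zero]
      have e3 : momW η U W r r' c = η c := by
        unfold momW
        rw [if_pos hcU, add_zero]
      rw [e3]
      linarith
    · have hins : nd (U ∪ insert c W) t = (nd (U ∪ W) t).filter (fun v => c ∉ U ∪ v.toFinset) := by
        ext v
        rw [mem_filter, mem_nd, mem_nd]
        simp only [mem_union, mem_insert, List.mem_toFinset]
        constructor
        · rintro ⟨g1, g2, g3⟩
          refine ⟨⟨g1, g2, fun d hd => ?_⟩, ?_⟩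
          · have := g3 d hd
            tauto
          · rintro (g4 | g4)
            · exact hcU g4
            · exact g3 c g4 (Or.inr (Or.inl rfl))
        · rintro ⟨⟨g1, g2, g3⟩, g4⟩
          refine ⟨g1, g2, fun d hd => ?_⟩
          have := g3 d hd
          rintro (g5 | g5 | g5)
          · tauto
          · subst g5; tauto
          · tauto
      have e2 : ∑ v ∈ nd (U ∪ W) t, (if c ∈ U ∪ v.toFinset then 0 else 1 / (r : ℝ)) *
          ((u.map (momR η U r v)).prod * (A S (momR η U r v) h y z) ^ q) =
          1 / (r : ℝ) * ∑ v ∈ nd (U ∪ insert c W) t,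
            ((u.map (momR η U r v)).prod * (A S (momR η U r v) h y z) ^ q) := by
        rw [hins, Finset.sum_filter, Finset.mul_sum]
        apply Finset.sum_congr rfl
        intro v _
        by_cases hv : c ∈ U ∪ v.toFinset
        · rw [if_pos hv, if_neg (not_not.2 hv)]
          simp
        · rw [if_neg hv, if_pos hv]
      rw [e2]
      have hdis : Disjoint (insert c W) U := by
        rw [disjoint_insert_left]
        exact ⟨hcU, hW⟩
      have hcard : (insert c W).card ≤ W.card + 1 := card_insert_le _ _
      have i3 := ih (insert c W) hdis hnd (by omega)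
      have e4 : u.map (momW η U (insert c W) r r') = u.map (momW η U W r r') := by
        apply List.map_congr_left
        intro d hd
        have hdc : d ≠ c := fun h => hcu (h ▸ hd)
        unfold momW
        simp [mem_insert, hdc]
      rw [e4] at i3
      have hr1 : (0 : ℝ) < r := by exact_mod_cast hr0
      have hr2 : (0 : ℝ) < r' := by
        have : 0 < r' := by omega
        exact_mod_cast this
      have i4 : 1 / (r : ℝ) * ∑ v ∈ nd (U ∪ insert c W) t,
            ((u.map (momR η U r v)).prod * (A S (momR η U r v) h y z) ^ q) ≤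
          1 / (r : ℝ) * ((u.map (momW η U W r r')).prod *
            (((r : ℝ) / r') ^ (insert c W).card * (r'.descFactorial t : ℝ) * M ^ q)) :=
        mul_le_mul_of_nonneg_left i3 (by positivity)
      by_cases hcW : c ∈ W
      · rw [insert_eq_of_mem hcW, ← hC] at i4
        have e5 : momW η U W r r' c = η c + 1 / (r : ℝ) := by
          unfold momW
          rw [if_neg hcU, if_pos hcW]
        rw [e5, insert_eq_of_mem hcW]
        linarith
      · rw [card_insert_of_notMem hcW, pow_succ] at i4
        have e5 : momW η U W r r' c = η c + 1 / (r' : ℝ) := by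
          unfold momW
          rw [if_neg hcU, if_neg hcW]
        rw [e5]
        have e6 : 1 / (r : ℝ) * ((u.map (momW η U W r r')).prod *
            (((r : ℝ) / r') ^ W.card * ((r : ℝ) / r') * (r'.descFactorial t : ℝ) * M ^ q)) =
            1 / (r' : ℝ) * ((u.map (momW η U W r r')).prod * C) := by
          rw [hC]
          field_simp
        rw [e6] at i4
        linarith

/-- `p`-th moment of the number of words from `y` to `z` in the pool that remains when a random
rainbow list of length `t` is removed from the pool of the colours not in `U`. -/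
theorem moment {U : Finset (Fin k)} {t h wm p r r' : ℕ} {η : Fin k → ℝ} {M : ℝ}
    (hη : ∀ c, 0 ≤ η c) (hM : 0 ≤ M) (y z : V) (hr' : U.card + r' = k) (hr : r + t = r')
    (hr0 : 0 < r) (hw : p * h ≤ wm)
    (hA : ∀ W : Finset (Fin k), W.card ≤ wm →
      A S (fun c => (η c + if c ∈ W then 1 / (r : ℝ) else 0) + if c ∈ U then 0 else 1 / (r' : ℝ))
        h y z ≤ M) :
    ∑ v ∈ nd U t, (A S (fun c => η c + if c ∈ U ∪ v.toFinset then 0 else 1 / (r : ℝ)) h y z) ^ p ≤
      (r'.descFactorial t : ℝ) * M ^ p := by
  have H : ∀ q : ℕ, ∀ W : Finset (Fin k), Disjoint W U → W.card + q * h ≤ wm →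
      ∑ v ∈ nd (U ∪ W) t, (A S (momR η U r v) h y z) ^ q ≤
        ((r : ℝ) / r') ^ W.card * (r'.descFactorial t : ℝ) * M ^ q := by
    intro q
    induction q with
    | zero =>
      intro W hW _
      simp only [pow_zero, mul_one, Finset.sum_const, nsmul_eq_mul]
      exact mom_count hr' hr hr0 W hW
    | succ q ih =>
      intro W hW hwm
      have hwm' : W.card + h + q * h ≤ wm := by
        have : (q + 1) * h = q * h + h := by ring
        omega
      set C : ℝ := ((r : ℝ) / r') ^ W.card * (r'.descFactorial t : ℝ) * M ^ q with hC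
      have hC0 : 0 ≤ C := by positivity
      have e1 : ∀ v, (A S (momR η U r v) h y z) ^ (q + 1) =
          ∑ u ∈ (nd (∅ : Finset (Fin k)) h).filter (fun u => S.ep u y = z),
            (u.map (momR η U r v)).prod * (A S (momR η U r v) h y z) ^ q := by
        intro v
        rw [← Finset.sum_mul, pow_succ, mul_comm]
        rfl
      simp only [e1]
      rw [Finset.sum_comm]
      have h1 : ∀ u ∈ (nd (∅ : Finset (Fin k)) h).filter (fun u => S.ep u y = z),
          ∑ v ∈ nd (U ∪ W) t, (u.map (momR η U r v)).prod * (A S (momR η U r v) h y z) ^ q ≤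
            (u.map (momW η U W r r')).prod * C := by
        intro u hu
        rw [mem_filter, mem_nd] at hu
        exact mom_word S hη hM y z hr hr0 q ih u W hW hu.1.2.1 (by rw [hu.1.1]; exact hwm')
      refine (Finset.sum_le_sum h1).trans ?_
      rw [← Finset.sum_mul]
      have h2 : ∑ u ∈ (nd (∅ : Finset (Fin k)) h).filter (fun u => S.ep u y = z),
          (u.map (momW η U W r r')).prod ≤ M := by
        refine le_trans ?_ (hA W (by omega))
        refine A_mono S (momW_nonneg hη U W r r') (fun c => ?_) h y z
        unfold momW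
        have hr1 : (0 : ℝ) ≤ 1 / (r : ℝ) := by positivity
        have hr2 : (0 : ℝ) ≤ 1 / (r' : ℝ) := by positivity
        split_ifs <;> linarith
      calc _ ≤ M * C := mul_le_mul_of_nonneg_right h2 hC0
        _ = _ := by rw [hC, pow_succ]; ring
  have := H p ∅ (disjoint_empty_left _) (by simpa using hw)
  rw [union_empty, card_empty, pow_zero, one_mul] at this
  exact this

/-- Markov inequality. -/
theorem markov {U : Finset (Fin k)} {t h wm p r r' : ℕ} {η : Fin k → ℝ} {M K : ℝ}
    (hη : ∀ c, 0 ≤ η c) (hM : 0 ≤ M) (hK : 0 < K) (y z : V) (hr' : U.card + r' = k)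
    (hr : r + t = r') (hr0 : 0 < r) (hw : p * h ≤ wm)
    (hA : ∀ W : Finset (Fin k), W.card ≤ wm →
      A S (fun c => (η c + if c ∈ W then 1 / (r : ℝ) else 0) + if c ∈ U then 0 else 1 / (r' : ℝ))
        h y z ≤ M) :
    (((nd U t).filter (fun v => K < A S (fun c => η c + if c ∈ U ∪ v.toFinset then 0
      else 1 / (r : ℝ)) h y z)).card : ℝ) ≤ (r'.descFactorial t : ℝ) * (M / K) ^ p := by
  have h1 := moment S hη hM y z hr' hr hr0 hw hA
  set F := (nd U t).filter (fun v => K < A S (fun c => η c + if c ∈ U ∪ v.toFinset then 0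
      else 1 / (r : ℝ)) h y z) with hF
  have h2 : (F.card : ℝ) * K ^ p ≤
      ∑ v ∈ nd U t, (A S (fun c => η c + if c ∈ U ∪ v.toFinset then 0 else 1 / (r : ℝ))
        h y z) ^ p := by
    have h3 : ∑ v ∈ F, K ^ p ≤ ∑ v ∈ F,
        (A S (fun c => η c + if c ∈ U ∪ v.toFinset then 0 else 1 / (r : ℝ)) h y z) ^ p := by
      apply Finset.sum_le_sum
      intro v hv
      rw [hF, mem_filter] at hv
      exact pow_le_pow_left₀ hK.le hv.2.le p
    rw [Finset.sum_const, nsmul_eq_mul] at h3
    refine h3.trans (Finset.sum_le_sum_of_subset_of_nonneg (filter_subset _ _) ?_)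
    intro v _ _
    exact pow_nonneg (A_nonneg S (momR_nonneg hη U r v) h y z) p
  rw [div_pow, ← mul_div_assoc, le_div_iff₀ (by positivity)]
  exact h2.trans h1

end RP60
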