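import Pool.Agent.RP60.Fin
import Pool.Agent.RP97.Graph

/-!
Choice of the parameters for large `k`.
-/

namespace RP60

open Finset RP97 Filter

private theorem num_pow (A e : ℕ) : ∃ N : ℕ, ∀ n ≥ N, A * n ^ e ≤ 2 ^ n := by
  have h := tendsto_pow_const_div_const_pow_of_one_lt e (r := (2 : ℝ)) (by norm_num)
  have h2 : ∀ᶠ n : ℕ in atTop, (n : ℝ) ^ e / 2 ^ n < 1 / ((A : ℝ) + 1) :=
    h.eventually (gt_mem_nhds (by positivity))
  obtain ⟨N, hN⟩ := eventually_atTop.1 h2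
  refine ⟨N, fun n hn => ?_⟩
  have h3 := hN n hn
  have hA : (0 : ℝ) < (A : ℝ) + 1 := by positivity
  rw [div_lt_div_iff₀ (by positivity) hA, one_mul] at h3
  have h4 : (A : ℝ) * (n : ℝ) ^ e ≤ 2 ^ n := by
    have : 0 ≤ (n : ℝ) ^ e := by positivity
    nlinarith
  exact_mod_cast h4

private theorem num_log {k n : ℕ} (hk : 2 ^ n ≤ k) : (2 / 3 : ℝ) * n ≤ Real.log k := by
  have h1 : (2 : ℝ) / 3 ≤ Real.log 2 := by
    have := Real.log_two_gt_d9
    linarith
  have h2 : Real.log ((2 : ℝ) ^ n) ≤ Real.log k := by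
    apply Real.log_le_log (by positivity)
    exact_mod_cast hk
  rw [Real.log_pow] at h2
  have h3 : (0 : ℝ) ≤ n := Nat.cast_nonneg n
  nlinarith

theorem exists_par : ∃ k₀ : ℕ, ∀ k ≥ k₀, ∀ d : ℕ, (d : ℝ) ≤ (k : ℝ) ^ 2 / (Real.log k) ^ 35 →
    ∃ D n b B q t : ℕ, d ≤ D ∧ Par k D n b B q t := by
  obtain ⟨N, hN⟩ := num_pow 3200 34
  refine ⟨2 ^ (max N 2000000), fun k hk d hd => ?_⟩
  set n := Nat.log 2 k with hn
  have hk0 : k ≠ 0 := by
    intro h
    rw [h] at hk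
    have : 0 < 2 ^ (max N 2000000) := by positivity
    omega
  have hnk : 2 ^ n ≤ k := Nat.pow_log_le_self 2 hk0
  have hkn : k < 2 ^ (n + 1) := Nat.lt_pow_succ_log_self (by norm_num) k
  have hnbig : max N 2000000 ≤ n := (Nat.le_log_iff_pow_le (by norm_num) hk0).2 hk
  have hnN : N ≤ n := (le_max_left _ _).trans hnbig
  have hn2 : 2000000 ≤ n := (le_max_right _ _).trans hnbig
  have hpow : 3200 * n ^ 34 ≤ k := (hN n hnN).trans hnk
  clear_value n
  have hn0 : 0 < n := by omega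
  have hnR : (0 : ℝ) < n := by exact_mod_cast hn0
  have hkR : (0 : ℝ) < k := by exact_mod_cast Nat.pos_of_ne_zero hk0
  -- the bound for `max d k`
  have hD : 3200 * max d k * n ^ 33 ≤ k ^ 2 := by
    rcases le_total d k with h | h
    · rw [max_eq_right h]
      calc 3200 * k * n ^ 33 = k * (3200 * n ^ 33) := by ring
        _ ≤ k * (3200 * n ^ 34) := by
            gcongr
            norm_num
        _ ≤ k * k := by gcongr
        _ = k ^ 2 := by ring
    · rw [max_eq_left h]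
      have h1 := num_log hnk
      have h2 : ((2 / 3 : ℝ) * n) ^ 35 ≤ Real.log k ^ 35 := by gcongr
      have h3 : 3200 * (n : ℝ) ^ 33 ≤ ((2 / 3 : ℝ) * n) ^ 35 := by
        have h4 : ((2 / 3 : ℝ) * n) ^ 35 = ((2 / 3 : ℝ) ^ 35 * n ^ 2) * (n : ℝ) ^ 33 := by ring
        rw [h4]
        have h5 : (3200 : ℝ) ≤ (2 / 3 : ℝ) ^ 35 * n ^ 2 := by
          have h6 : (2000000 : ℝ) ≤ n := by exact_mod_cast hn2
          have h7 : (3200 : ℝ) ≤ (2 / 3 : ℝ) ^ 35 * 2000000 ^ 2 := by norm_num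
          have h8 : (2 / 3 : ℝ) ^ 35 * 2000000 ^ 2 ≤ (2 / 3 : ℝ) ^ 35 * (n : ℝ) ^ 2 := by gcongr
          linarith
        have h9 : (0 : ℝ) ≤ (n : ℝ) ^ 33 := by positivity
        nlinarith
      have h10 : 3200 * (n : ℝ) ^ 33 ≤ Real.log k ^ 35 := h3.trans h2
      have h11 : (0 : ℝ) < Real.log k ^ 35 := lt_of_lt_of_le (by positivity) h10
      rw [le_div_iff₀ h11] at hd
      have h12 : (0 : ℝ) ≤ (d : ℝ) := Nat.cast_nonneg d
      have h13 : 3200 * (d : ℝ) * (n : ℝ) ^ 33 ≤ (k : ℝ) ^ 2 := by nlinarith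
      exact_mod_cast h13
  refine ⟨max d k, n, n ^ 4, n ^ 5, n ^ 33, n ^ 8, le_max_left _ _, ?_⟩
  constructor
  · omega
  · exact hkn
  · exact le_max_right _ _
  · calc 8 * n * (n + 1) * (3 * n + 6) ≤ 8 * n * (2 * n) * (9 * n) := by gcongr <;> omega
      _ = 144 * n ^ 3 := by ring
      _ ≤ n * n ^ 3 := by gcongr; omega
      _ = n ^ 4 := by ring
  · calc 2 * n ^ 2 * (3 * n + 6) ^ 2 ≤ 2 * n ^ 2 * (9 * n) ^ 2 := by gcongr; omega
      _ = 162 * n ^ 4 := by ring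
      _ ≤ n * n ^ 4 := by gcongr; omega
      _ = n ^ 5 := by ring
  · calc 4 * 2592 * (3 * n + 6) * n ^ 2 * (n + 2)
        ≤ 4 * 2592 * (9 * n) * n ^ 2 * (2 * n) := by gcongr <;> omega
      _ = 186624 * n ^ 4 := by ring
      _ ≤ n * n ^ 4 := by gcongr; omega
      _ = n ^ 5 := by ring
  · calc 3200 * max d k * (n ^ 4 * n ^ 5) = 3200 * max d k * (1 * n ^ 9) := by ring
      _ ≤ 3200 * max d k * (n ^ 24 * n ^ 9) := by
          gcongr
          exact Nat.one_le_pow _ _ hn0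
      _ = 3200 * max d k * n ^ 33 := by ring
      _ ≤ k ^ 2 := hD
  · calc 2 * n ^ 5 * (2 * (n + 1) * (3 * n + 6) + 1)
        ≤ 2 * n ^ 5 * (2 * (2 * n) * (9 * n) + n * n) := by
          gcongr
          · omega
          · omega
          · nlinarith
      _ = 74 * n ^ 7 := by ring
      _ ≤ n * n ^ 7 := by gcongr; omega
      _ = n ^ 8 := by ring
  · calc 2 * (3 * n + 6) ^ 2 ≤ 2 * (9 * n) ^ 2 := by gcongr; omega
      _ = 162 * (1 * n ^ 2) := by ring
      _ ≤ n * (n ^ 5 * n ^ 2) := by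
          gcongr
          · omega
          · exact Nat.one_le_pow _ _ hn0
      _ = n ^ 8 := by ring
  · calc 2048 * (n ^ 8) ^ 4 = 2048 * n ^ 32 := by ring
      _ ≤ n * n ^ 32 := by gcongr; omega
      _ = n ^ 33 := by ring
  · exact hD
  · calc 64 * n ^ 33 ≤ n * n ^ 33 := by gcongr; omega
      _ = 1 * n ^ 34 := by ring
      _ ≤ 3200 * n ^ 34 := by gcongr; norm_num
      _ ≤ k := hpow

end RP60
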