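import Pool.Agent.RP60.Irr
import Pool.Agent.RP60.Clo

/-!
The probability that a random rainbow walk has no repeated vertex decreases slowly.
-/

namespace RP60

open Finset RP97

variable {V : Type*} {k : ℕ} (S : Sys V k) [Fintype V] [DecidableEq V]

omit [Fintype V] [DecidableEq V] in
theorem rec_suffix {l' l : List (Fin k)} (h : l' <:+ l) (x : V) :
    S.verts l' x <:+ S.verts l x := by
  induction l with
  | nil => rw [List.suffix_nil] at h; subst h; exact List.suffix_rfl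
  | cons c l ih =>
    rcases List.suffix_cons_iff.1 h with rfl | h
    · exact List.suffix_rfl
    · exact (ih h).trans (List.suffix_cons _ _)

omit [Fintype V] [DecidableEq V] in
theorem rec_nodup_drop {l : List (Fin k)} {x : V} (h : (S.verts l x).Nodup) (m : ℕ) :
    (S.verts (l.drop m) x).Nodup :=
  h.sublist (rec_suffix S (List.drop_suffix m l) x).sublist

omit [Fintype V] [DecidableEq V] in
theorem rec_length (l : List (Fin k)) (x : V) : (S.verts l x).length = l.length + 1 := by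
  induction l with
  | nil => rfl
  | cons c l ih =>
    show (S.nb c (S.ep l x) :: S.verts l x).length = _
    rw [List.length_cons, ih, List.length_cons]

omit [Fintype V] [DecidableEq V] in
theorem rec_mem {l : List (Fin k)} {x y : V} (h : y ∈ S.verts l x) :
    ∃ a, a ≤ l.length ∧ S.ep (l.drop a) x = y := by
  induction l with
  | nil =>
    have : y = x := by simpa [Sys.verts] using h
    exact ⟨0, le_rfl, by rw [this]; rfl⟩
  | cons c l ih =>
    have h' : y ∈ S.nb c (S.ep l x) :: S.verts l x := h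
    rcases List.mem_cons.1 h' with rfl | h'
    · exact ⟨0, by simp, rfl⟩
    · obtain ⟨a, ha, hy⟩ := ih h'
      exact ⟨a + 1, by simpa using ha, by simpa using hy⟩

omit [Fintype V] [DecidableEq V] in
theorem rec_mem_take {l : List (Fin k)} {x : V} {a h : ℕ} (ha : a < h) (hl : a ≤ l.length) :
    S.ep (l.drop a) x ∈ (S.verts l x).take h := by
  induction a generalizing l h with
  | zero =>
    obtain ⟨h', rfl⟩ := Nat.exists_eq_succ_of_ne_zero ha.ne'
    cases l with
    | nil => simp [Sys.verts]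
    | cons c l =>
      show S.ep (c :: l) x ∈ (S.nb c (S.ep l x) :: S.verts l x).take (h' + 1)
      simp
  | succ a ih =>
    obtain ⟨h', rfl⟩ := Nat.exists_eq_succ_of_ne_zero (show h ≠ 0 by omega)
    cases l with
    | nil => simp at hl
    | cons c l =>
      show S.ep ((c :: l).drop (a + 1)) x ∈ (S.nb c (S.ep l x) :: S.verts l x).take (h' + 1)
      rw [List.drop_succ_cons, List.take_succ_cons]
      exact List.mem_cons_of_mem _ (ih (by omega) (by simpa using hl))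

omit [Fintype V] [DecidableEq V] in
theorem rec_mem' {l : List (Fin k)} {x : V} {a : ℕ} (hl : a ≤ l.length) :
    S.ep (l.drop a) x ∈ S.verts l x :=
  List.mem_of_mem_take (rec_mem_take S (Nat.lt_succ_self a) hl)

omit [Fintype V] [DecidableEq V] in
/-- The last vertex returns to a vertex at least three steps before. -/
theorem rec_last {j : ℕ} {l : List (Fin k)} {x : V} (hl : l ∈ nd (∅ : Finset (Fin k)) (j + 1))
    (h1 : (S.verts (l.drop 1) x).Nodup) (h2 : ¬ (S.verts l x).Nodup) :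
    ∃ a, 3 ≤ a ∧ a ≤ j + 1 ∧ S.ep (l.drop a) x = S.ep l x := by
  obtain ⟨hlen, hnd, -⟩ := mem_nd.1 hl
  match l, hlen, hnd, h1, h2 with
  | c :: l', hlen, hnd, h1, h2 =>
    have h1' : (S.verts l' x).Nodup := h1
    have h2' : ¬ (S.nb c (S.ep l' x) :: S.verts l' x).Nodup := h2
    rw [List.nodup_cons, not_and_or, not_not] at h2'
    rcases h2' with h2' | h2'
    · obtain ⟨a, ha, hy⟩ := rec_mem S h2'
      have hlen' : l'.length = j := by simpa using hlen
      refine ⟨a + 1, ?_, by omega, by simpa using hy⟩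
      by_contra hcon
      have ha2 : a = 0 ∨ a = 1 := by omega
      rcases ha2 with rfl | rfl
      · rw [List.drop_zero] at hy
        exact S.ne c (S.ep l' x) hy.symm
      · match l', ha, hy, hnd with
        | d :: l'', ha, hy, hnd =>
          simp only [List.drop_succ_cons, List.drop_zero, ep_cons] at hy
          have h3 : S.nb c (S.ep l'' x) = S.nb d (S.ep l'' x) := by
            rw [hy, S.invol, ← hy]
          have h4 := S.inj _ _ _ h3
          subst h4
          simp at hnd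
    · exact absurd h1' h2'

omit [DecidableEq V] in
theorem rec_Pr_false (T : ℕ) : Pr (V := V) (k := k) (fun _ _ => False) T = 0 := by
  unfold Pr Ex; simp

theorem sa_zero [Nonempty V] : sa S 0 = 1 := by
  apply le_antisymm (Pr_le_one _ _)
  rw [← Pr_true (V := V) (k := k) (Nat.zero_le k)]
  apply Pr_mono
  intro x l hl _
  obtain ⟨hlen, -, -⟩ := mem_nd.1 hl
  rw [List.length_eq_zero_iff] at hlen
  subst hlen
  simp [Sys.verts]

theorem sa_le {i j : ℕ} (hij : i ≤ j) (hj : j ≤ k) : sa S j ≤ sa S i := by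
  obtain ⟨m, rfl⟩ := Nat.exists_eq_add_of_le hij
  unfold sa
  rw [← Pr_drop (V := V) (fun x l => (S.verts l x).Nodup) (t := i) (j := m) hj]
  apply Pr_mono
  intro x l _ h
  exact rec_nodup_drop S h m

omit [DecidableEq V] in
theorem rec_nonneg (j : ℕ) : 0 ≤ sa S j := Pr_nonneg _ _

theorem rec_irr (K : ℝ) (h r τ : ℕ) :
    Pr (fun x l => (S.verts l x).Nodup ∧ ¬ Good S K h r (S.ep l x) l.toFinset) τ =
      Pr (fun x l => (S.verts l x).Nodup ∧ ¬ Good S K h r x l.toFinset) τ := by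
  have := Pr_rev S (fun x l => (S.verts l x).Nodup ∧ ¬ Good S K h r x l.toFinset) τ
  simp only [verts_reverse, List.nodup_reverse, List.toFinset_reverse] at this
  exact this

/-- The difference is the probability of a return. -/
theorem rec_diff {j : ℕ} (hj : j + 1 ≤ k) :
    sa S j - sa S (j + 1) ≤
      Pr (fun x l => (S.verts (l.drop 1) x).Nodup ∧ ¬ (S.verts l x).Nodup) (j + 1) := by
  have h1 : sa S j = Pr (fun x l => (S.verts (l.drop 1) x).Nodup) (j + 1) :=
    (Pr_drop (V := V) (fun x l => (S.verts l x).Nodup) (t := j) (j := 1) hj).symm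
  have h2 : Pr (fun x l => (S.verts (l.drop 1) x).Nodup) (j + 1) ≤
      Pr (fun x l => (S.verts l x).Nodup ∨
        ((S.verts (l.drop 1) x).Nodup ∧ ¬ (S.verts l x).Nodup)) (j + 1) := by
    apply Pr_mono
    intro x l _ h
    by_cases h3 : (S.verts l x).Nodup
    · exact Or.inl h3
    · exact Or.inr ⟨h, h3⟩
  have h3 := Pr_or (V := V) (fun x l => (S.verts l x).Nodup)
    (fun x l => (S.verts (l.drop 1) x).Nodup ∧ ¬ (S.verts l x).Nodup) (j + 1)
  have h4 : sa S (j + 1) = Pr (fun x l => (S.verts l x).Nodup) (j + 1) := rfl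
  rw [h1, h4]
  linarith

/-- Splitting the return. -/
theorem rec_split {h : ℕ} (hh1 : 1 ≤ h) (j : ℕ) :
    Pr (fun x l => (S.verts (l.drop 1) x).Nodup ∧ ¬ (S.verts l x).Nodup) (j + 1) ≤
      Pr (fun x l => h ≤ j + 1 ∧ ((S.verts (l.drop h) x).Nodup ∧
        S.ep l x ∈ (S.verts (l.drop h) x).toFinset)) (j + 1) +
      Pr (fun x l => 3 ≤ j + 1 ∧ ((S.verts (l.drop 3) x).Nodup ∧
        S.ep l x ∈ ((S.verts (l.drop 3) x).take h).toFinset)) (j + 1) := by
  refine le_trans ?_ (Pr_or _ _ _)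
  apply Pr_mono
  rintro x l hl ⟨h1, h2⟩
  obtain ⟨a, ha3, haj, he⟩ := rec_last S hl h1 h2
  obtain ⟨hlen, -, -⟩ := mem_nd.1 hl
  have hd : ∀ m, 1 ≤ m → (S.verts (l.drop m) x).Nodup := by
    intro m hm
    have := rec_nodup_drop S h1 (m - 1)
    rw [List.drop_drop] at this
    rwa [show 1 + (m - 1) = m by omega] at this
  by_cases hah : a < h
  · right
    refine ⟨by omega, hd 3 (by omega), ?_⟩
    rw [List.mem_toFinset, ← he]
    have h3 := rec_mem_take S (l := l.drop 3) (x := x) (a := a - 3) (h := h) (by omega)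
      (by rw [List.length_drop]; omega)
    rw [List.drop_drop, show 3 + (a - 3) = a by omega] at h3
    exact h3
  · left
    have hh : h ≤ a := by omega
    refine ⟨by omega, hd h hh1, ?_⟩
    · rw [List.mem_toFinset, ← he]
      have h3 := rec_mem' S (l := l.drop h) (x := x) (a := a - h)
        (by rw [List.length_drop]; omega)
      rw [List.drop_drop, show h + (a - h) = a by omega] at h3
      exact h3

/-! ## The parameters -/

theorem par_nat {D n b B q t : ℕ} (P : Par k D n b B q t) :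
    162 ≤ t ∧ t ≤ q ∧ 0 < B ∧ 3 * n + 6 ≤ b ∧ 0 < k ∧ 3 * n + 6 ≤ t := by
  obtain ⟨hn, hk, hDk, hb, hB1, hB2, hX, ht1, ht2, hq1, hq2, hq3⟩ := P
  have h9 : 9 ≤ 3 * n + 6 := by omega
  have h1 : 162 ≤ t := by nlinarith
  have h2 : 3 * n + 6 ≤ t := by nlinarith
  have h3 : t ≤ q := by
    have : t ≤ t ^ 4 := Nat.le_self_pow (by norm_num) t
    omega
  have h4 : 0 < B := by
    have : 0 < 4 * 2592 * (3 * n + 6) * n ^ 2 * (n + 2) := by positivity
    omega
  have h5 : 3 * n + 6 ≤ b := by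
    have : 1 * (3 * n + 6) ≤ 8 * n * (n + 1) * (3 * n + 6) := by
      apply Nat.mul_le_mul_right
      nlinarith
    omega
  refine ⟨h1, h3, h4, h5, by omega, h2⟩

/-- `X (3 n + 6) ≤ 1 / 16`. -/
theorem par_X {D n b B q t : ℕ} (P : Par k D n b B q t) :
    200 * D / (k : ℝ) ^ 2 * (3 * n + 6) ≤ 1 / 16 := by
  obtain ⟨h1, h2, h3, h4, h5, h6⟩ := par_nat P
  have hk : (0 : ℝ) < k := by exact_mod_cast h5
  have h7 : 3200 * D * (3 * n + 6) ≤ k ^ 2 := by
    refine le_trans ?_ P.hX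
    apply Nat.mul_le_mul_left
    exact h4.trans (Nat.le_mul_of_pos_right b h3)
  have h8 : (3200 : ℝ) * D * (3 * n + 6) ≤ (k : ℝ) ^ 2 := by exact_mod_cast h7
  rw [div_mul_eq_mul_div, div_le_iff₀ (by positivity)]
  linarith

/-- `X q ≤ 1 / 16`. -/
theorem par_Xq {D n b B q t : ℕ} (P : Par k D n b B q t) :
    200 * D / (k : ℝ) ^ 2 * q ≤ 1 / 16 := by
  obtain ⟨h1, h2, h3, h4, h5, h6⟩ := par_nat P
  have hk : (0 : ℝ) < k := by exact_mod_cast h5
  have h8 : (3200 : ℝ) * D * q ≤ (k : ℝ) ^ 2 := by exact_mod_cast P.hq2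
  rw [div_mul_eq_mul_div, div_le_iff₀ (by positivity)]
  linarith

/-- `Y (n + 2) ≤ 1 / 4`. -/
theorem par_Y {D n b B q t : ℕ} (P : Par k D n b B q t) :
    2592 * (3 * n + 6) * (n : ℝ) ^ 2 / B * (n + 2) ≤ 1 / 4 := by
  obtain ⟨h1, h2, h3, h4, h5, h6⟩ := par_nat P
  have hB : (0 : ℝ) < B := by exact_mod_cast h3
  have h8 : (4 : ℝ) * 2592 * (3 * n + 6) * n ^ 2 * (n + 2) ≤ B := by exact_mod_cast P.hB2
  rw [div_mul_eq_mul_div, div_le_iff₀ (by positivity)]
  linarith

theorem par_Y' {D n b B q t : ℕ} (P : Par k D n b B q t) :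
    2592 * (3 * n + 6) * (n : ℝ) ^ 2 / B ≤ 1 / 12 := by
  have h1 := par_Y P
  have h2 : (1 : ℝ) ≤ n := by exact_mod_cast P.hn
  have h3 : (0 : ℝ) ≤ 2592 * (3 * n + 6) * (n : ℝ) ^ 2 / B := by positivity
  nlinarith

theorem exp_small {x : ℝ} (hx : x ≤ 1 / 2) : Real.exp x ≤ 2 := by
  have h1 := Real.add_one_le_exp (-x)
  have h2 : Real.exp x * Real.exp (-x) = 1 := by rw [← Real.exp_add]; simp
  have h3 : (1 : ℝ) / 2 ≤ Real.exp (-x) := by linarith
  have h4 := Real.exp_pos x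
  nlinarith

/-- The sum is at most logarithmic. -/
theorem sum_log {D n b B q t : ℕ} (P : Par k D n b B q t) {i j : ℕ} (hj : j ≤ k) :
    ∑ l ∈ Ico i j, 1 / ((k : ℝ) - l) ≤ n + 2 := by
  obtain ⟨h1, h2, h3, h4, h5, h6⟩ := par_nat P
  have hk : (0 : ℝ) < k := by exact_mod_cast h5
  have e1 : ∑ l ∈ Ico i j, 1 / ((k : ℝ) - l) ≤ ∑ l ∈ range k, 1 / ((k : ℝ) - l) := by
    apply sum_le_sum_of_subset_of_nonneg
    · intro l hl
      rw [mem_Ico] at hl
      rw [mem_range]
      omega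
    · intro l hl _
      rw [mem_range] at hl
      have : (l : ℝ) ≤ k := by exact_mod_cast hl.le
      apply one_div_nonneg.2
      linarith
  have e2 : ∑ l ∈ range k, 1 / ((k : ℝ) - l) = (harmonic k : ℝ) := by
    rw [← sum_range_reflect, harmonic]
    push_cast
    apply sum_congr rfl
    intro l hl
    rw [mem_range] at hl
    have : ((k - 1 - l : ℕ) : ℝ) = (k : ℝ) - 1 - l := by
      rw [Nat.cast_sub (by omega), Nat.cast_sub (by omega)]
      simp
    rw [this, one_div]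
    congr 1
    ring
  have e3 := harmonic_le_one_add_log k
  have e4 : Real.log k ≤ n + 1 := by
    have f1 : Real.log k ≤ Real.log ((2 : ℝ) ^ (n + 1)) := by
      apply Real.log_le_log hk
      exact_mod_cast P.hk.le
    rw [Real.log_pow] at f1
    have f2 := Real.log_two_lt_d9
    have f3 : (0 : ℝ) ≤ ((n + 1 : ℕ) : ℝ) := by positivity
    have f4 : ((n + 1 : ℕ) : ℝ) = n + 1 := by push_cast; ring
    rw [f4] at f1 f3
    nlinarith
  linarith


omit [DecidableEq V] in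
/-- Comparison with a shorter walk. -/
theorem rec_short {D n b B q t : ℕ} (P : Par k D n b B q t) {j : ℕ}
    (hind : ∀ i ≤ j, sa S i ≤ sa S j * Real.exp (200 * D / (k : ℝ) ^ 2 * ((j : ℝ) - i) + 1 / 4))
    {τ : ℕ} (hτ : τ ≤ j) (hτ' : j ≤ τ + (3 * n + 6)) : sa S τ ≤ 2 * sa S j := by
  have h1 := hind τ hτ
  have h2 : Real.exp (200 * D / (k : ℝ) ^ 2 * ((j : ℝ) - τ) + 1 / 4) ≤ 2 := by
    apply exp_small
    have h3 : (200 * D / (k : ℝ) ^ 2 * ((j : ℝ) - τ)) ≤ 200 * D / (k : ℝ) ^ 2 * (3 * n + 6) := by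
      apply mul_le_mul_of_nonneg_left _ (by positivity)
      have h4 : (j : ℝ) ≤ τ + (3 * n + 6) := by exact_mod_cast hτ'
      linarith
    have h5 := par_X P
    linarith
  have h6 := rec_nonneg S j
  nlinarith

omit [DecidableEq V] in
/-- Hypothesis of the lemmas on irregular pools. -/
theorem rec_hEα {D : ℕ} {j : ℕ}
    (hind : ∀ i ≤ j, sa S i ≤ sa S j * Real.exp (200 * D / (k : ℝ) ^ 2 * ((j : ℝ) - i) + 1 / 4))
    {r : ℕ} (hjk : j ≤ k) (hr : k ≤ j + r) (r' : ℕ) (h1 : r ≤ r') (h2 : r' ≤ k) :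
    Pr (fun x l => (S.verts l x).Nodup) (k - r') ≤
      sa S j * Real.exp (200 * D / (k : ℝ) ^ 2 * r' + 1) := by
  have h3 := hind (k - r') (by omega)
  refine le_trans h3 ?_
  apply mul_le_mul_of_nonneg_left _ (rec_nonneg S j)
  apply Real.exp_le_exp.2
  have h4 : ((k - r' : ℕ) : ℝ) = (k : ℝ) - r' := Nat.cast_sub h2
  have h5 : (200 * D / (k : ℝ) ^ 2 * ((j : ℝ) - (k - r' : ℕ))) ≤ 200 * D / (k : ℝ) ^ 2 * r' := by
    apply mul_le_mul_of_nonneg_left _ (by positivity)
    rw [h4]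
    have h6 : (j : ℝ) ≤ k := by exact_mod_cast hjk
    linarith
  linarith

omit [Fintype V] in
theorem rec_card (l : List (Fin k)) (x : V) : (S.verts l x).toFinset.card ≤ l.length + 1 :=
  (List.toFinset_card_le _).trans (rec_length S l x).le

/-- Returns after many steps. -/
theorem rec_A {D n b B q t : ℕ} (P : Par k D n b B q t) (hS : Cod S D) {j : ℕ}
    (hj : j + 1 + t ≤ k)
    (hind : ∀ i ≤ j, sa S i ≤ sa S j * Real.exp (200 * D / (k : ℝ) ^ 2 * ((j : ℝ) - i) + 1 / 4)) :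
    Pr (fun x l => 3 * n + 6 ≤ j + 1 ∧ ((S.verts (l.drop (3 * n + 6)) x).Nodup ∧
        S.ep l x ∈ (S.verts (l.drop (3 * n + 6)) x).toFinset)) (j + 1) ≤
      sa S j * (72 * D / (k : ℝ) ^ 2 + 1 / (k : ℝ) ^ 2) := by
  obtain ⟨h1, h2, h3, h4, h5, h6⟩ := par_nat P
  have hk : (0 : ℝ) < k := by exact_mod_cast h5
  have h0 := rec_nonneg S j
  by_cases hh : 3 * n + 6 ≤ j + 1
  swap
  · have e1 : Pr (fun x l => 3 * n + 6 ≤ j + 1 ∧ ((S.verts (l.drop (3 * n + 6)) x).Nodup ∧
        S.ep l x ∈ (S.verts (l.drop (3 * n + 6)) x).toFinset)) (j + 1) ≤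
        Pr (V := V) (k := k) (fun _ _ => False) (j + 1) := by
      apply Pr_mono
      rintro x l _ ⟨h, -⟩
      exact hh h
    rw [rec_Pr_false] at e1
    refine e1.trans ?_
    positivity
  obtain ⟨τ, hτ⟩ := Nat.exists_eq_add_of_le hh
  have hτ' : j + 1 = τ + (3 * n + 6) := by omega
  have hsq : 2 * (3 * n + 6) ^ 2 ≤ t := P.ht2
  have e2 := clo_end S (E := fun x l => (S.verts l x).Nodup)
    (fun x l => (S.verts l x).toFinset) (N := k) (h := 3 * n + 6) (r := k - τ) (τ := τ)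
    (K := 18 * D / (k : ℝ) ^ 3) (by positivity) (by omega) (by omega) (by omega) (by omega)
    (by
      intro x l hl _
      obtain ⟨hlen, -, -⟩ := mem_nd.1 hl
      have := rec_card S l x
      omega)
  have e3 := rec_irr S (18 * D / (k : ℝ) ^ 3) (3 * n + 6) (k - τ) τ
  have e4 := irr_long S P hS (E := fun x l => (S.verts l x).Nodup)
    (fun x c l h => (List.nodup_cons.1 h).2) (r := k - τ) (by omega) (by omega)
    (α := sa S j) h0 (rec_hEα S hind (by omega) (by omega))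
  rw [show k - (k - τ) = τ by omega] at e4
  have e5 : sa S τ ≤ 2 * sa S j := rec_short S P hind (by omega) (by omega)
  have e6 : Pr (fun x l => 3 * n + 6 ≤ j + 1 ∧ ((S.verts (l.drop (3 * n + 6)) x).Nodup ∧
        S.ep l x ∈ (S.verts (l.drop (3 * n + 6)) x).toFinset)) (j + 1) ≤
      Pr (fun x l => ((S.verts (l.drop (3 * n + 6)) x).Nodup ∧
        S.ep l x ∈ (S.verts (l.drop (3 * n + 6)) x).toFinset)) (j + 1) := by
    apply Pr_mono
    rintro x l _ ⟨-, h⟩
    exact h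
  refine e6.trans ?_
  rw [hτ']
  refine e2.trans ?_
  rw [e3]
  have e7 : 2 * (k : ℝ) * (18 * D / (k : ℝ) ^ 3) * sa S τ ≤ sa S j * (72 * D / (k : ℝ) ^ 2) := by
    have e8 : 2 * (k : ℝ) * (18 * D / (k : ℝ) ^ 3) = 36 * D / (k : ℝ) ^ 2 := by
      field_simp
      ring
    rw [e8]
    calc 36 * D / (k : ℝ) ^ 2 * sa S τ ≤ 36 * D / (k : ℝ) ^ 2 * (2 * sa S j) :=
          mul_le_mul_of_nonneg_left e5 (by positivity)
      _ = _ := by ring
  have e9 : sa S j * (72 * D / (k : ℝ) ^ 2 + 1 / (k : ℝ) ^ 2) =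
      sa S j * (72 * D / (k : ℝ) ^ 2) + sa S j / (k : ℝ) ^ 2 := by ring
  rw [e9]
  exact add_le_add e7 e4

/-- Returns after few steps. -/
theorem rec_B {D n b B q t : ℕ} (P : Par k D n b B q t) (hS : Cod S D) {j : ℕ}
    (hj : j + 1 + t ≤ k)
    (hind : ∀ i ≤ j, sa S i ≤ sa S j * Real.exp (200 * D / (k : ℝ) ^ 2 * ((j : ℝ) - i) + 1 / 4)) :
    Pr (fun x l => 3 ≤ j + 1 ∧ ((S.verts (l.drop 3) x).Nodup ∧
        S.ep l x ∈ ((S.verts (l.drop 3) x).take (3 * n + 6)).toFinset)) (j + 1) ≤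
      sa S j * (20 * D / (k : ℝ) ^ 2 + 1 / (k : ℝ) ^ 2 +
        1296 * (3 * n + 6) * (n : ℝ) ^ 2 / B * (1 / ((k : ℝ) - j))) := by
  obtain ⟨h1, h2, h3, h4, h5, h6⟩ := par_nat P
  have hk : (0 : ℝ) < k := by exact_mod_cast h5
  have hB : (0 : ℝ) < B := by exact_mod_cast h3
  have h0 := rec_nonneg S j
  have hkj : (0 : ℝ) < (k : ℝ) - j := by
    have : (j : ℝ) + 1 ≤ k := by
      have : j + 1 ≤ k := by omega
      exact_mod_cast this
    linarith
  by_cases hh : 3 ≤ j + 1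
  swap
  · have e1 : Pr (fun x l => 3 ≤ j + 1 ∧ ((S.verts (l.drop 3) x).Nodup ∧
        S.ep l x ∈ ((S.verts (l.drop 3) x).take (3 * n + 6)).toFinset)) (j + 1) ≤
        Pr (V := V) (k := k) (fun _ _ => False) (j + 1) := by
      apply Pr_mono
      rintro x l _ ⟨h, -⟩
      exact hh h
    rw [rec_Pr_false] at e1
    refine e1.trans ?_
    positivity
  obtain ⟨τ, hτ⟩ := Nat.exists_eq_add_of_le hh
  have hτ' : j + 1 = τ + 3 := by omega
  have hKn : (0 : ℝ) ≤ 3 * (D / (k : ℝ) ^ 3 + 108 * (n : ℝ) ^ 2 / (B * (k - τ : ℕ))) := by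
    positivity
  have e2 := clo_end S (E := fun x l => (S.verts l x).Nodup)
    (fun x l => ((S.verts l x).take (3 * n + 6)).toFinset) (N := 3 * n + 6) (h := 3)
    (r := k - τ) (τ := τ)
    (K := 3 * (D / (k : ℝ) ^ 3 + 108 * (n : ℝ) ^ 2 / (B * (k - τ : ℕ)))) hKn
    (by omega) (by omega) (by omega) (by omega)
    (by
      intro x l hl _
      refine (List.toFinset_card_le _).trans ?_
      rw [List.length_take]
      exact min_le_left _ _)
  have e3 := rec_irr S (3 * (D / (k : ℝ) ^ 3 + 108 * (n : ℝ) ^ 2 / (B * (k - τ : ℕ)))) 3 (k - τ) τ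
  have e4 := irr_three S P hS (E := fun x l => (S.verts l x).Nodup)
    (fun x c l h => (List.nodup_cons.1 h).2) (r := k - τ) (by omega) (by omega)
    (α := sa S j) h0 (rec_hEα S hind (by omega) (by omega))
  rw [show k - (k - τ) = τ by omega] at e4
  have e5 : sa S τ ≤ 2 * sa S j := rec_short S P hind (by omega) (by omega)
  have e6 : Pr (fun x l => 3 ≤ j + 1 ∧ ((S.verts (l.drop 3) x).Nodup ∧
        S.ep l x ∈ ((S.verts (l.drop 3) x).take (3 * n + 6)).toFinset)) (j + 1) ≤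
      Pr (fun x l => ((S.verts (l.drop 3) x).Nodup ∧
        S.ep l x ∈ ((S.verts (l.drop 3) x).take (3 * n + 6)).toFinset)) (j + 1) := by
    apply Pr_mono
    rintro x l _ ⟨-, h⟩
    exact h
  refine e6.trans ?_
  rw [hτ']
  refine e2.trans ?_
  rw [e3]
  have hr : ((k - τ : ℕ) : ℝ) = (k : ℝ) - τ := Nat.cast_sub (by omega)
  have hτj : (τ : ℝ) ≤ j := by
    have : τ ≤ j := by omega
    exact_mod_cast this
  have e7 : 2 * ((3 * n + 6 : ℕ) : ℝ) *
      (3 * (D / (k : ℝ) ^ 3 + 108 * (n : ℝ) ^ 2 / (B * (k - τ : ℕ)))) * sa S τ ≤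
      sa S j * (20 * D / (k : ℝ) ^ 2 +
        1296 * (3 * n + 6) * (n : ℝ) ^ 2 / B * (1 / ((k : ℝ) - j))) := by
    have c0 : ((3 * n + 6 : ℕ) : ℝ) = 3 * n + 6 := by push_cast; ring
    rw [c0]
    have c1 : 12 * (3 * (n : ℝ) + 6) * (D / (k : ℝ) ^ 3) ≤ 20 * D / (k : ℝ) ^ 2 := by
      have c2 : 12 * (3 * (n : ℝ) + 6) ≤ 20 * k := by
        have : 12 * (3 * n + 6) ≤ 20 * k := by omega
        exact_mod_cast this
      have c3 : (20 : ℝ) * D / (k : ℝ) ^ 2 = 20 * k * (D / (k : ℝ) ^ 3) := by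
        field_simp
      rw [c3]
      apply mul_le_mul_of_nonneg_right c2 (by positivity)
    have c4 : 12 * (3 * (n : ℝ) + 6) * (108 * (n : ℝ) ^ 2 / (B * (k - τ : ℕ))) ≤
        1296 * (3 * n + 6) * (n : ℝ) ^ 2 / B * (1 / ((k : ℝ) - j)) := by
      have c5 : 12 * (3 * (n : ℝ) + 6) * (108 * (n : ℝ) ^ 2 / (B * (k - τ : ℕ))) =
          1296 * (3 * n + 6) * (n : ℝ) ^ 2 / B * (1 / ((k - τ : ℕ) : ℝ)) := by
        rw [mul_div_assoc', mul_one_div, div_div]
        congr 1
        ring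
      rw [c5, hr]
      apply mul_le_mul_of_nonneg_left _ (by positivity)
      apply one_div_le_one_div_of_le hkj
      linarith
    calc 2 * (3 * (n : ℝ) + 6) *
        (3 * (D / (k : ℝ) ^ 3 + 108 * (n : ℝ) ^ 2 / (B * (k - τ : ℕ)))) * sa S τ
        ≤ 2 * (3 * (n : ℝ) + 6) *
        (3 * (D / (k : ℝ) ^ 3 + 108 * (n : ℝ) ^ 2 / (B * (k - τ : ℕ)))) * (2 * sa S j) :=
          mul_le_mul_of_nonneg_left e5 (by positivity)
      _ = sa S j * (12 * (3 * (n : ℝ) + 6) * (D / (k : ℝ) ^ 3) +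
        12 * (3 * (n : ℝ) + 6) * (108 * (n : ℝ) ^ 2 / (B * (k - τ : ℕ)))) := by ring
      _ ≤ _ := mul_le_mul_of_nonneg_left (add_le_add c1 c4) h0
  have e9 : sa S j * (20 * D / (k : ℝ) ^ 2 + 1 / (k : ℝ) ^ 2 +
        1296 * (3 * n + 6) * (n : ℝ) ^ 2 / B * (1 / ((k : ℝ) - j))) =
      sa S j * (20 * D / (k : ℝ) ^ 2 +
        1296 * (3 * n + 6) * (n : ℝ) ^ 2 / B * (1 / ((k : ℝ) - j))) + sa S j / (k : ℝ) ^ 2 := by
    ring
  rw [e9]
  exact add_le_add e7 e4

/-- One step. -/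
theorem sa_loss {D n b B q t : ℕ} (P : Par k D n b B q t) (hS : Cod S D) [Nonempty V] {j : ℕ}
    (hj : j + 1 + t ≤ k)
    (hind : ∀ i ≤ j, sa S i ≤ sa S j * Real.exp (200 * D / (k : ℝ) ^ 2 * ((j : ℝ) - i) + 1 / 4)) :
    sa S j - sa S (j + 1) ≤ sa S j * (100 * D / (k : ℝ) ^ 2 +
      1296 * (3 * n + 6) * (n : ℝ) ^ 2 / B * (1 / ((k : ℝ) - j))) := by
  obtain ⟨h1, h2, h3, h4, h5, h6⟩ := par_nat P
  have hk : (0 : ℝ) < k := by exact_mod_cast h5
  have h0 := rec_nonneg S j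
  have e1 := rec_diff S (j := j) (by omega)
  have e2 := rec_split S (h := 3 * n + 6) (by omega) j
  have e3 := rec_A S P hS hj hind
  have e4 := rec_B S P hS hj hind
  refine (e1.trans e2).trans ((add_le_add e3 e4).trans ?_)
  rw [← mul_add]
  apply mul_le_mul_of_nonneg_left _ h0
  have hD : (1 : ℝ) ≤ D := by
    have : 1 ≤ D := by have := P.hDk; omega
    exact_mod_cast this
  have e5 : 1 / (k : ℝ) ^ 2 ≤ 4 * D / (k : ℝ) ^ 2 := by
    apply div_le_div_of_nonneg_right _ (by positivity)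
    linarith
  have e6 : 72 * D / (k : ℝ) ^ 2 + 4 * D / (k : ℝ) ^ 2 + (20 * D / (k : ℝ) ^ 2 +
      4 * D / (k : ℝ) ^ 2) = 100 * D / (k : ℝ) ^ 2 := by ring
  linarith

theorem sa_ratio {D n b B q t : ℕ} (P : Par k D n b B q t) (hS : Cod S D) [Nonempty V] {j : ℕ}
    (hj : j + t ≤ k) :
    0 < sa S j ∧ ∀ i ≤ j, sa S i ≤ sa S j * Real.exp (200 * D / (k : ℝ) ^ 2 * ((j : ℝ) - i) +
      2592 * (3 * n + 6) * (n : ℝ) ^ 2 / B * ∑ l ∈ Ico i j, 1 / ((k : ℝ) - l)) := by
  obtain ⟨h1, h2, h3, h4, h5, h6⟩ := par_nat P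
  have hk : (0 : ℝ) < k := by exact_mod_cast h5
  have hB : (0 : ℝ) < B := by exact_mod_cast h3
  induction j with
  | zero =>
    refine ⟨by rw [sa_zero]; norm_num, ?_⟩
    intro i hi
    obtain rfl : i = 0 := by omega
    simp
  | succ j ih =>
    obtain ⟨ih1, ih2⟩ := ih (by omega)
    have hind : ∀ i ≤ j, sa S i ≤
        sa S j * Real.exp (200 * D / (k : ℝ) ^ 2 * ((j : ℝ) - i) + 1 / 4) := by
      intro i hi
      refine (ih2 i hi).trans ?_
      apply mul_le_mul_of_nonneg_left _ ih1.le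
      apply Real.exp_le_exp.2
      have e1 := sum_log P (i := i) (j := j) (by omega)
      have e2 := par_Y P
      have e3 : 2592 * (3 * n + 6) * (n : ℝ) ^ 2 / B * ∑ l ∈ Ico i j, 1 / ((k : ℝ) - l) ≤
          2592 * (3 * n + 6) * (n : ℝ) ^ 2 / B * (n + 2) :=
        mul_le_mul_of_nonneg_left e1 (by positivity)
      linarith
    have e1 := sa_loss S P hS (j := j) (by omega) hind
    have hkj : (1 : ℝ) ≤ (k : ℝ) - j := by
      have : (j : ℝ) + 1 ≤ k := by
        have : j + 1 ≤ k := by omega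
        exact_mod_cast this
      linarith
    obtain ⟨z, hz⟩ : ∃ z : ℝ, z = 100 * D / (k : ℝ) ^ 2 +
      1296 * (3 * n + 6) * (n : ℝ) ^ 2 / B * (1 / ((k : ℝ) - j)) := ⟨_, rfl⟩
    rw [← hz] at e1
    have hz0 : 0 ≤ z := by
      rw [hz]
      have : (0 : ℝ) ≤ 1 / ((k : ℝ) - j) := by
        apply one_div_nonneg.2
        linarith
      positivity
    have hz2 : 2 * z = 200 * D / (k : ℝ) ^ 2 +
        2592 * (3 * n + 6) * (n : ℝ) ^ 2 / B * (1 / ((k : ℝ) - j)) := by
      rw [hz]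
      ring
    have hz1 : 2 * z ≤ 1 := by
      rw [hz2]
      have f1 := par_X P
      have f2 := par_Y' P
      have f3 : 1 / ((k : ℝ) - j) ≤ 1 := by
        rw [div_le_one (by linarith)]
        exact hkj
      have f4 : 200 * D / (k : ℝ) ^ 2 * 1 ≤ 200 * D / (k : ℝ) ^ 2 * (3 * n + 6) := by
        apply mul_le_mul_of_nonneg_left _ (by positivity)
        have : (0 : ℝ) ≤ n := by positivity
        linarith
      have f5 : 2592 * (3 * n + 6) * (n : ℝ) ^ 2 / B * (1 / ((k : ℝ) - j)) ≤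
          2592 * (3 * n + 6) * (n : ℝ) ^ 2 / B * 1 :=
        mul_le_mul_of_nonneg_left f3 (by positivity)
      linarith
    have e2 : sa S j * (1 - z) ≤ sa S (j + 1) := by linarith
    have e3 : 0 < sa S (j + 1) := by
      have : 0 < sa S j * (1 - z) := by
        apply mul_pos ih1
        linarith
      linarith
    have e4 : sa S j ≤ sa S (j + 1) * Real.exp (2 * z) := by
      have g1 := Real.add_one_le_exp (2 * z)
      calc sa S j ≤ sa S j * ((1 - z) * (2 * z + 1)) := by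
            have : 1 ≤ (1 - z) * (2 * z + 1) := by nlinarith
            exact le_mul_of_one_le_right ih1.le this
        _ = (sa S j * (1 - z)) * (2 * z + 1) := by ring
        _ ≤ sa S (j + 1) * (2 * z + 1) := mul_le_mul_of_nonneg_right e2 (by linarith)
        _ ≤ _ := mul_le_mul_of_nonneg_left g1 e3.le
    refine ⟨e3, ?_⟩
    intro i hi
    rcases Nat.lt_or_ge j i with hij | hij
    · obtain rfl : i = j + 1 := by omega
      simp
    · refine (ih2 i hij).trans ?_
      have g2 : 200 * D / (k : ℝ) ^ 2 * (((j + 1 : ℕ) : ℝ) - i) +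
          2592 * (3 * n + 6) * (n : ℝ) ^ 2 / B * ∑ l ∈ Ico i (j + 1), 1 / ((k : ℝ) - l) =
          2 * z + (200 * D / (k : ℝ) ^ 2 * ((j : ℝ) - i) +
          2592 * (3 * n + 6) * (n : ℝ) ^ 2 / B * ∑ l ∈ Ico i j, 1 / ((k : ℝ) - l)) := by
        rw [sum_Ico_succ_top hij, hz2]
        push_cast
        ring
      rw [g2, Real.exp_add (2 * z), ← mul_assoc]
      exact mul_le_mul_of_nonneg_right e4 (Real.exp_pos _).le

/-- Without logarithmic term. -/
theorem sa_ratio' {D n b B q t : ℕ} (P : Par k D n b B q t) (hS : Cod S D) [Nonempty V] {i j : ℕ}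
    (hij : i ≤ j) (hj : j + t ≤ k) :
    sa S i ≤ sa S j * Real.exp (200 * D / (k : ℝ) ^ 2 * ((j : ℝ) - i) + 1 / 4) := by
  obtain ⟨h1, h2⟩ := sa_ratio S P hS hj
  refine (h2 i hij).trans ?_
  apply mul_le_mul_of_nonneg_left _ h1.le
  apply Real.exp_le_exp.2
  have e1 := sum_log P (i := i) (j := j) (by omega)
  have e2 := par_Y P
  have e3 : 2592 * (3 * n + 6) * (n : ℝ) ^ 2 / B * ∑ l ∈ Ico i j, 1 / ((k : ℝ) - l) ≤
      2592 * (3 * n + 6) * (n : ℝ) ^ 2 / B * (n + 2) :=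
    mul_le_mul_of_nonneg_left e1 (by positivity)
  linarith

/-- The last `q` steps before the pool has size `q` lose little. -/
theorem sa_last {D n b B q t : ℕ} (P : Par k D n b B q t) (hS : Cod S D) [Nonempty V] {j : ℕ}
    (hj : j + q ≤ k) (hj' : k ≤ j + 2 * q) :
    3 / 4 * sa S (k - 2 * q) ≤ sa S j := by
  obtain ⟨h1, h2, h3, h4, h5, h6⟩ := par_nat P
  have hB : (0 : ℝ) < B := by exact_mod_cast h3
  have hq : (0 : ℝ) < q := by
    have : 0 < q := by omega
    exact_mod_cast this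
  have h64 := P.hq3
  obtain ⟨e1, e2⟩ := sa_ratio S P hS (j := j) (by omega)
  have e3 := e2 (k - 2 * q) (by omega)
  have e4 : ∑ l ∈ Ico (k - 2 * q) j, 1 / ((k : ℝ) - l) ≤ 1 := by
    calc ∑ l ∈ Ico (k - 2 * q) j, 1 / ((k : ℝ) - l) ≤ ∑ l ∈ Ico (k - 2 * q) j, 1 / (q : ℝ) := by
          apply sum_le_sum
          intro l hl
          rw [mem_Ico] at hl
          apply one_div_le_one_div_of_le hq
          have : (l : ℝ) + q ≤ k := by
            have : l + q ≤ k := by omega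
            exact_mod_cast this
          linarith
      _ = ((j - (k - 2 * q) : ℕ) : ℝ) * (1 / q) := by
          rw [sum_const, Nat.card_Ico, nsmul_eq_mul]
      _ ≤ (q : ℝ) * (1 / q) := by
          apply mul_le_mul_of_nonneg_right _ (by positivity)
          have : j - (k - 2 * q) ≤ q := by omega
          exact_mod_cast this
      _ = 1 := by field_simp
  have e5 := par_Y' P
  have e6 := par_Xq P
  have e7 : 200 * D / (k : ℝ) ^ 2 * ((j : ℝ) - (k - 2 * q : ℕ)) ≤ 200 * D / (k : ℝ) ^ 2 * q := by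
    apply mul_le_mul_of_nonneg_left _ (by positivity)
    have : (j : ℝ) ≤ q + (k - 2 * q : ℕ) := by
      have : j ≤ q + (k - 2 * q) := by omega
      exact_mod_cast this
    linarith
  have e8 : 2592 * (3 * n + 6) * (n : ℝ) ^ 2 / B *
      ∑ l ∈ Ico (k - 2 * q) j, 1 / ((k : ℝ) - l) ≤
      2592 * (3 * n + 6) * (n : ℝ) ^ 2 / B * 1 := mul_le_mul_of_nonneg_left e4 (by positivity)
  have e9 : sa S (k - 2 * q) ≤ sa S j * Real.exp (7 / 48) := by
    refine e3.trans ?_
    apply mul_le_mul_of_nonneg_left _ e1.le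
    apply Real.exp_le_exp.2
    linarith
  have e10 : 3 / 4 * Real.exp (7 / 48) ≤ 1 := by
    have f1 := Real.add_one_le_exp (-(7 / 48 : ℝ))
    have f2 : Real.exp (7 / 48) * Real.exp (-(7 / 48)) = 1 := by
      rw [← Real.exp_add]
      simp
    have f3 := Real.exp_pos (7 / 48 : ℝ)
    nlinarith
  calc 3 / 4 * sa S (k - 2 * q) ≤ 3 / 4 * (sa S j * Real.exp (7 / 48)) := by linarith
    _ = sa S j * (3 / 4 * Real.exp (7 / 48)) := by ring
    _ ≤ sa S j * 1 := mul_le_mul_of_nonneg_left e10 e1.le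
    _ = sa S j := mul_one _

end RP60
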